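import Pool.Agent.H249.Pal.Split

/-!
# Few palettes for bipartite multigraphs
-/

set_option autoImplicit false

open Finset

namespace Pool.Agent.H249.Pal

/-- the union of `P` and the translate of `Q` by `a` -/
def glue (a : ℕ) (x : Finset ℕ × Finset ℕ) : Finset ℕ := x.1 ∪ x.2.image fun y => y + a

/-- the palettes of the size `d` which arise by `k` halvings -/
def Fam : ℕ → ℕ → Finset (Finset ℕ)
  | 0, d => {Finset.range d}
  | k + 1, d => (Fam k (d / 2) ×ˢ Fam k (d - d / 2)).image (glue (2 ^ k)) ∪
      (Fam k (d - d / 2) ×ˢ Fam k (d / 2)).image (glue (2 ^ k))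

theorem card_Fam_even (k i : ℕ) : (Fam (k + 1) (2 * i)).card ≤ (Fam k i).card ^ 2 := by
  show ((Fam k (2 * i / 2) ×ˢ Fam k (2 * i - 2 * i / 2)).image (glue (2 ^ k)) ∪
      (Fam k (2 * i - 2 * i / 2) ×ˢ Fam k (2 * i / 2)).image (glue (2 ^ k))).card ≤ _
  rw [show 2 * i / 2 = i by omega, show 2 * i - i = i by omega, Finset.union_self]
  refine Finset.card_image_le.trans ?_
  rw [Finset.card_product, sq]

theorem card_Fam_odd (k i : ℕ) :
    (Fam (k + 1) (2 * i + 1)).card ≤ 2 * ((Fam k i).card * (Fam k (i + 1)).card) := by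
  show ((Fam k ((2 * i + 1) / 2) ×ˢ Fam k (2 * i + 1 - (2 * i + 1) / 2)).image (glue (2 ^ k)) ∪
      (Fam k (2 * i + 1 - (2 * i + 1) / 2) ×ˢ Fam k ((2 * i + 1) / 2)).image (glue (2 ^ k))).card ≤ _
  rw [show (2 * i + 1) / 2 = i by omega, show 2 * i + 1 - i = i + 1 by omega]
  refine (Finset.card_union_le _ _).trans ?_
  have h1 := Finset.card_image_le (s := Fam k i ×ˢ Fam k (i + 1)) (f := glue (2 ^ k))
  have h2 := Finset.card_image_le (s := Fam k (i + 1) ×ˢ Fam k i) (f := glue (2 ^ k))
  rw [Finset.card_product] at h1 h2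
  rw [mul_comm (Fam k (i + 1)).card] at h2
  omega

/-- exponents: `J k = ⌊2 ^ (k + 1) / 3⌋` -/
def J (k : ℕ) : ℕ := 2 ^ (k + 1) / 3

theorem J_two_mul (k : ℕ) : (J (k + 1) = 2 * J k ∧ 3 * J k + 1 = 2 ^ (k + 1) ∧ Odd (k + 1) = False) ∨
    (J (k + 1) = 2 * J k + 1 ∧ 3 * J k + 2 = 2 ^ (k + 1) ∧ Odd (k + 1) = True) := by
  have h1 : ∀ m : ℕ, 2 ^ m % 3 = if Odd m then 2 else 1 := by
    intro m
    induction m with
    | zero => simp
    | succ m ih =>
      rw [pow_succ, Nat.mul_mod, ih]
      by_cases h : Odd m
      · have h2 : ¬ Odd (m + 1) := by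
          rw [Nat.not_odd_iff_even]
          exact h.add_one
        rw [if_pos h, if_neg h2]
      · have h2 : Odd (m + 1) := by
          rw [Nat.not_odd_iff_even] at h
          exact h.add_one
        rw [if_neg h, if_pos h2]
  have h2 := h1 (k + 1)
  have h3 : 2 ^ (k + 1 + 1) = 2 * 2 ^ (k + 1) := by rw [pow_succ]; ring
  unfold J
  rw [h3]
  by_cases h : Odd (k + 1)
  · right
    rw [if_pos h] at h2
    refine ⟨?_, ?_, by simp [h]⟩ <;> omega
  · left
    rw [if_neg h] at h2
    refine ⟨?_, ?_, by simp [h]⟩ <;> omega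

/-- the numbers of palettes -/
theorem card_Fam (k : ℕ) : ∀ d, d ≤ 2 ^ k →
    (Fam k d).card ≤ 2 ^ J k ∧ (Even d → Odd k → (Fam k d).card ≤ 2 ^ (J k - 1)) := by
  induction k with
  | zero =>
    intro d _
    refine ⟨?_, fun _ h => absurd h (by decide)⟩
    show ({Finset.range d} : Finset (Finset ℕ)).card ≤ _
    rw [Finset.card_singleton]
    exact Nat.one_le_two_pow
  | succ k ih =>
    intro d hd
    rw [pow_succ] at hd
    rcases Nat.even_or_odd' d with ⟨i, rfl | rfl⟩
    · -- even degrees
      have h1 := (ih i (by omega)).1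
      have h2 : (Fam (k + 1) (2 * i)).card ≤ 2 ^ (2 * J k) := by
        refine (card_Fam_even k i).trans ?_
        calc (Fam k i).card ^ 2 ≤ (2 ^ J k) ^ 2 := Nat.pow_le_pow_left h1 2
          _ = 2 ^ (2 * J k) := by rw [← pow_mul, mul_comm]
      rcases J_two_mul k with ⟨h3, -, h4⟩ | ⟨h3, -, h4⟩
      · rw [h3]
        exact ⟨h2, fun _ h => absurd h (by simp [h4])⟩
      · rw [h3]
        refine ⟨h2.trans (Nat.pow_le_pow_right (by norm_num) (by omega)), fun _ _ => ?_⟩
        rwa [show 2 * J k + 1 - 1 = 2 * J k by omega]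
    · -- odd degrees
      refine ⟨?_, fun h => absurd h (by simp)⟩
      refine (card_Fam_odd k i).trans ?_
      have h1 := ih i (by omega)
      have h2 := ih (i + 1) (by omega)
      rcases J_two_mul k with ⟨h3, h5, h4⟩ | ⟨h3, -, h4⟩
      · -- `k` is odd: one of the two degrees is even
        have hk : Odd k := by
          have h6 : ¬ Odd (k + 1) := by simp [h4]
          rw [Nat.not_odd_iff_even] at h6
          rcases Nat.even_or_odd k with h7 | h7
          · exact absurd h6 (by
              rw [Nat.not_even_iff_odd]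
              exact h7.add_one)
          · exact h7
        have hJ : 1 ≤ J k := by
          have : 1 ≤ 2 ^ k := Nat.one_le_two_pow
          rw [pow_succ] at h5
          omega
        have h6 : 2 * (2 ^ (J k - 1) * 2 ^ J k) = 2 ^ J (k + 1) := by
          rw [h3, ← pow_add, ← pow_succ']
          congr 1
          omega
        rw [← h6]
        refine Nat.mul_le_mul_left 2 ?_
        rcases Nat.even_or_odd i with h7 | h7
        · exact Nat.mul_le_mul (h1.2 h7 hk) h2.1
        · have h8 := Nat.mul_le_mul h1.1 (h2.2 h7.add_one hk)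
          rwa [mul_comm (2 ^ J k)] at h8
      · have h6 : 2 * (2 ^ J k * 2 ^ J k) = 2 ^ J (k + 1) := by
          rw [h3, ← pow_add, ← pow_succ']
          congr 1
          omega
        rw [← h6]
        exact Nat.mul_le_mul_left 2 (Nat.mul_le_mul h1.1 h2.1)

variable {n m : ℕ}

/-- Colouring with `2 ^ k` colours by halving: at every outgoing and at every ingoing slot the
colours are different and the palette belongs to `Fam k`. -/
theorem colour (s t : Fin m → Fin n) (k : ℕ) : ∀ E : Finset (Fin m),
    (∀ v, (E.filter fun e => s e = v).card ≤ 2 ^ k ∧ (E.filter fun e => t e = v).card ≤ 2 ^ k) →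
    ∃ c : Fin m → ℕ, ∀ v,
      (Set.InjOn c (E.filter fun e => s e = v : Finset (Fin m)) ∧
        (E.filter fun e => s e = v).image c ∈ Fam k (E.filter fun e => s e = v).card) ∧
      (Set.InjOn c (E.filter fun e => t e = v : Finset (Fin m)) ∧
        (E.filter fun e => t e = v).image c ∈ Fam k (E.filter fun e => t e = v).card) ∧
      ∀ e ∈ E, c e < 2 ^ k := by
  induction k with
  | zero =>
    intro E hE
    have key : ∀ A : Finset (Fin m), A.card ≤ 1 → Set.InjOn (fun _ : Fin m => 0) (A : Set (Fin m)) ∧
        A.image (fun _ : Fin m => 0) ∈ Fam 0 A.card := by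
      intro A hA
      refine ⟨fun e he e' he' _ => Finset.card_le_one.1 hA e he e' he', ?_⟩
      show A.image (fun _ : Fin m => 0) ∈ ({Finset.range A.card} : Finset (Finset ℕ))
      rw [Finset.mem_singleton]
      rcases (by omega : A.card = 0 ∨ A.card = 1) with h | h
      · rw [h, Finset.card_eq_zero.1 h]
        rfl
      · obtain ⟨a, rfl⟩ := Finset.card_eq_one.1 h
        rw [h, Finset.image_singleton]
        rfl
    exact ⟨fun _ => 0, fun v => ⟨key _ (hE v).1, key _ (hE v).2, fun _ _ => Nat.one_pos⟩⟩
  | succ k ih =>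
    intro E hE
    obtain ⟨g, hg⟩ := halve s t E
    have hsplit : ∀ (u : Fin m → Fin n) (v : Fin n), (E.filter fun e => u e = v).card =
        (E.filter fun e => g e = true ∧ u e = v).card + (E.filter fun e => g e = false ∧ u e = v).card := by
      intro u v
      rw [← Finset.card_union_of_disjoint]
      · congr 1
        ext e
        rw [Finset.mem_union, Finset.mem_filter, Finset.mem_filter, Finset.mem_filter]
        cases hge : g e <;> simp
      · rw [Finset.disjoint_left]
        intro e he he'
        rw [Finset.mem_filter] at he he'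
        rw [he.2.1] at he'
        exact absurd he'.2.1 (by simp)
    have hff : ∀ (b : Bool) (u : Fin m → Fin n) (v : Fin n),
        ((E.filter fun e => g e = b).filter fun e => u e = v) = E.filter fun e => g e = b ∧ u e = v := by
      intro b u v
      rw [Finset.filter_filter]
    obtain ⟨c0, h0⟩ := ih (E.filter fun e => g e = false) (fun v => by
      rw [hff, hff]
      have h1 := hE v
      rw [hsplit s v, hsplit t v, pow_succ] at h1
      have h2 := hg v
      constructor <;> omega)
    obtain ⟨c1, h1⟩ := ih (E.filter fun e => g e = true) (fun v => by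
      rw [hff, hff]
      have h1 := hE v
      rw [hsplit s v, hsplit t v, pow_succ] at h1
      have h2 := hg v
      constructor <;> omega)
    let c : Fin m → ℕ := fun e => if g e = true then c1 e + 2 ^ k else c0 e
    have hcT : ∀ e, g e = true → c e = c1 e + 2 ^ k := fun e h => if_pos h
    have hcF : ∀ e, g e = false → c e = c0 e := fun e h => if_neg (by rw [h]; simp)
    have hlt0 : ∀ e ∈ E, g e = false → c0 e < 2 ^ k := fun e he hge =>
      (h0 (s e)).2.2 e (Finset.mem_filter.2 ⟨he, hge⟩)
    have hlt1 : ∀ e ∈ E, g e = true → c1 e < 2 ^ k := fun e he hge =>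
      (h1 (s e)).2.2 e (Finset.mem_filter.2 ⟨he, hge⟩)
    have main : ∀ (u : Fin m → Fin n) (v : Fin n),
        ((E.filter fun e => g e = true ∧ u e = v).card ≤ (E.filter fun e => g e = false ∧ u e = v).card + 1 ∧
        (E.filter fun e => g e = false ∧ u e = v).card ≤ (E.filter fun e => g e = true ∧ u e = v).card + 1) →
        (Set.InjOn c0 ((E.filter fun e => g e = false).filter fun e => u e = v : Finset (Fin m)) ∧
          ((E.filter fun e => g e = false).filter fun e => u e = v).image c0 ∈
            Fam k ((E.filter fun e => g e = false).filter fun e => u e = v).card) →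
        (Set.InjOn c1 ((E.filter fun e => g e = true).filter fun e => u e = v : Finset (Fin m)) ∧
          ((E.filter fun e => g e = true).filter fun e => u e = v).image c1 ∈
            Fam k ((E.filter fun e => g e = true).filter fun e => u e = v).card) →
        (Set.InjOn c (E.filter fun e => u e = v : Finset (Fin m)) ∧
          (E.filter fun e => u e = v).image c ∈ Fam (k + 1) (E.filter fun e => u e = v).card) := by
      intro u v hb hc0 hc1
      rw [hff] at hc0 hc1
      constructor
      · intro e he e' he' hee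
        obtain ⟨h2, h3⟩ := Finset.mem_filter.1 (Finset.mem_coe.1 he)
        obtain ⟨h4, h5⟩ := Finset.mem_filter.1 (Finset.mem_coe.1 he')
        cases hge : g e <;> cases hge' : g e'
        · rw [hcF e hge, hcF e' hge'] at hee
          exact hc0.1 (Finset.mem_coe.2 (Finset.mem_filter.2 ⟨h2, hge, h3⟩))
            (Finset.mem_coe.2 (Finset.mem_filter.2 ⟨h4, hge', h5⟩)) hee
        · rw [hcF e hge, hcT e' hge'] at hee
          have := hlt0 e h2 hge
          omega
        · rw [hcT e hge, hcF e' hge'] at hee
          have := hlt0 e' h4 hge'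
          omega
        · rw [hcT e hge, hcT e' hge'] at hee
          exact hc1.1 (Finset.mem_coe.2 (Finset.mem_filter.2 ⟨h2, hge, h3⟩))
            (Finset.mem_coe.2 (Finset.mem_filter.2 ⟨h4, hge', h5⟩)) (by omega)
      · have h2 : (E.filter fun e => u e = v).image c = glue (2 ^ k)
            ((E.filter fun e => g e = false ∧ u e = v).image c0,
              (E.filter fun e => g e = true ∧ u e = v).image c1) := by
          unfold glue
          ext x
          rw [Finset.mem_union, Finset.mem_image, Finset.mem_image, Finset.mem_image]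
          constructor
          · rintro ⟨e, he, rfl⟩
            obtain ⟨h2, h3⟩ := Finset.mem_filter.1 he
            cases hge : g e
            · exact Or.inl ⟨e, Finset.mem_filter.2 ⟨h2, hge, h3⟩, (hcF e hge).symm⟩
            · exact Or.inr ⟨c1 e, Finset.mem_image.2 ⟨e, Finset.mem_filter.2 ⟨h2, hge, h3⟩, rfl⟩,
                (hcT e hge).symm⟩
          · rintro (⟨e, he, rfl⟩ | ⟨y, hy, rfl⟩)
            · obtain ⟨h2, h3, h4⟩ := Finset.mem_filter.1 he
              exact ⟨e, Finset.mem_filter.2 ⟨h2, h4⟩, hcF e h3⟩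
            · obtain ⟨e, he, rfl⟩ := Finset.mem_image.1 hy
              obtain ⟨h2, h3, h4⟩ := Finset.mem_filter.1 he
              exact ⟨e, Finset.mem_filter.2 ⟨h2, h4⟩, hcT e h3⟩
        rw [h2]
        have h3 := hsplit u v
        show _ ∈ (Fam k ((E.filter fun e => u e = v).card / 2) ×ˢ
            Fam k ((E.filter fun e => u e = v).card - (E.filter fun e => u e = v).card / 2)).image (glue (2 ^ k)) ∪
          (Fam k ((E.filter fun e => u e = v).card - (E.filter fun e => u e = v).card / 2) ×ˢ
            Fam k ((E.filter fun e => u e = v).card / 2)).image (glue (2 ^ k))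
        rcases (by omega : (E.filter fun e => g e = false ∧ u e = v).card ≤
            (E.filter fun e => g e = true ∧ u e = v).card ∨
            (E.filter fun e => g e = true ∧ u e = v).card ≤
            (E.filter fun e => g e = false ∧ u e = v).card) with h4 | h4
        · refine Finset.mem_union_left _ (Finset.mem_image_of_mem _ (Finset.mem_product.2 ⟨?_, ?_⟩))
          · have e1 : (E.filter fun e => u e = v).card / 2 =
                (E.filter fun e => g e = false ∧ u e = v).card := by omega
            rw [e1]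
            exact hc0.2
          · have e1 : (E.filter fun e => u e = v).card - (E.filter fun e => u e = v).card / 2 =
                (E.filter fun e => g e = true ∧ u e = v).card := by omega
            rw [e1]
            exact hc1.2
        · refine Finset.mem_union_right _ (Finset.mem_image_of_mem _ (Finset.mem_product.2 ⟨?_, ?_⟩))
          · have e1 : (E.filter fun e => u e = v).card - (E.filter fun e => u e = v).card / 2 =
                (E.filter fun e => g e = false ∧ u e = v).card := by omega
            rw [e1]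
            exact hc0.2
          · have e1 : (E.filter fun e => u e = v).card / 2 =
                (E.filter fun e => g e = true ∧ u e = v).card := by omega
            rw [e1]
            exact hc1.2
    refine ⟨c, fun v => ⟨main s v (hg v).1 (h0 v).1 (h1 v).1, main t v (hg v).2 (h0 v).2.1 (h1 v).2.1,
      fun e he => ?_⟩⟩
    rw [pow_succ]
    cases hge : g e
    · rw [hcF e hge]
      have := hlt0 e he hge
      omega
    · rw [hcT e hge]
      have := hlt1 e he hge
      omega

/-- The general bound for bipartite multigraphs. -/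
theorem few_bip (k K : ℕ) (hK : 0 < K) (s t : Fin m → Fin n) (X : Fin n → Bool)
    (hX : ∀ e, X (s e) = true ∧ X (t e) = false)
    (hdeg : ∀ v, (Finset.univ.filter fun e => s e = v ∨ t e = v).card ≤ 2 ^ k * K) :
    ∃ c : Fin m → ℕ,
      (∀ i j : Fin m, i ≠ j → (s i = s j ∨ s i = t j ∨ t i = s j ∨ t i = t j) → c i ≠ c j) ∧
      ((Finset.univ : Finset (Fin n)).image fun v =>
        (Finset.univ.filter fun i : Fin m => s i = v ∨ t i = v).image c).card ≤
          (2 ^ k + 1) * (2 * 2 ^ J k) ^ K := by
  classical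
  obtain ⟨f, hf⟩ := split hK s t
  have hle : ∀ (u : Fin m → Fin n) (v : Fin n), (∀ i j, cn u f i v ≤ cn u f j v + 1) →
      (Finset.univ.filter fun e => u e = v).card ≤ 2 ^ k * K → ∀ i, cn u f i v ≤ 2 ^ k := by
    intro u v h1 h2 i
    by_contra hcon
    have h3 : ∑ _j : Fin K, 2 ^ k < ∑ j, cn u f j v := by
      refine Finset.sum_lt_sum (fun j _ => ?_) ⟨i, Finset.mem_univ _, by omega⟩
      have := h1 i j
      omega
    rw [sum_cn, Finset.sum_const, Finset.card_univ, Fintype.card_fin, smul_eq_mul, mul_comm] at h3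
    omega
  have hs : ∀ v i, cn s f i v ≤ 2 ^ k := fun v => hle s v (fun i j => (hf i j v).1)
    ((Finset.card_le_card fun e he => Finset.mem_filter.2 ⟨Finset.mem_univ _,
      Or.inl (Finset.mem_filter.1 he).2⟩).trans (hdeg v))
  have ht : ∀ v i, cn t f i v ≤ 2 ^ k := fun v => hle t v (fun i j => (hf i j v).2)
    ((Finset.card_le_card fun e he => Finset.mem_filter.2 ⟨Finset.mem_univ _,
      Or.inr (Finset.mem_filter.1 he).2⟩).trans (hdeg v))
  have hff : ∀ (i : Fin K) (u : Fin m → Fin n) (v : Fin n),
      (((Finset.univ.filter fun e => f e = i).filter fun e => u e = v)).card = cn u f i v := by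
    intro i u v
    rw [Finset.filter_filter]
    rfl
  have hcol := fun i : Fin K => colour s t k (Finset.univ.filter fun e => f e = i) (fun v => by
    rw [hff, hff]
    exact ⟨hs v i, ht v i⟩)
  choose c hc using hcol
  -- the slot of a vertex
  obtain ⟨w, hw⟩ : ∃ w : Fin n → Fin m → Fin n, ∀ v e, w v e = if X v = true then s e else t e :=
    ⟨fun v e => if X v = true then s e else t e, fun _ _ => rfl⟩
  have hat : ∀ v e, (s e = v ∨ t e = v) ↔ w v e = v := by
    intro v e
    rw [hw]
    obtain ⟨h1, h2⟩ := hX e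
    by_cases h : X v = true
    · rw [if_pos h]
      refine ⟨fun h3 => ?_, Or.inl⟩
      rcases h3 with h3 | h3
      · exact h3
      · rw [← h3, h2] at h
        exact absurd h (by simp)
    · rw [if_neg h]
      refine ⟨fun h3 => ?_, Or.inr⟩
      rcases h3 with h3 | h3
      · rw [← h3] at h
        exact absurd h1 h
      · exact h3
  have hcw : ∀ (i : Fin K) (v : Fin n),
      Set.InjOn (c i) ((Finset.univ.filter fun e => f e = i).filter fun e => w v e = v : Finset (Fin m)) ∧
        ((Finset.univ.filter fun e => f e = i).filter fun e => w v e = v).image (c i) ∈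
          Fam k ((Finset.univ.filter fun e => f e = i).filter fun e => w v e = v).card := by
    intro i v
    by_cases h : X v = true
    · have h1 : w v = s := funext fun e => by rw [hw, if_pos h]
      rw [h1]
      exact (hc i v).1
    · have h1 : w v = t := funext fun e => by rw [hw, if_neg h]
      rw [h1]
      exact (hc i v).2.1
  have hwin : ∀ v, ∃ x, x < 2 ^ k + 1 ∧ ∀ i, x ≤ cn (w v) f i v ∧ cn (w v) f i v ≤ x + 1 ∧
      cn (w v) f i v ≤ 2 ^ k := by
    intro v
    have h1 : (∀ i j, cn (w v) f i v ≤ cn (w v) f j v + 1) ∧ ∀ i, cn (w v) f i v ≤ 2 ^ k := by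
      by_cases h : X v = true
      · have h1 : w v = s := funext fun e => by rw [hw, if_pos h]
        rw [h1]
        exact ⟨fun i j => (hf i j v).1, hs v⟩
      · have h1 : w v = t := funext fun e => by rw [hw, if_neg h]
        rw [h1]
        exact ⟨fun i j => (hf i j v).2, ht v⟩
    obtain ⟨i0, -, h0⟩ := Finset.exists_min_image (Finset.univ : Finset (Fin K))
      (fun i => cn (w v) f i v) ⟨⟨0, hK⟩, Finset.mem_univ _⟩
    exact ⟨cn (w v) f i0 v, Nat.lt_succ_of_le (h1.2 i0), fun i => ⟨h0 i (Finset.mem_univ _),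
      h1.1 i i0, h1.2 i⟩⟩
  let C : Fin m → ℕ := fun e => c (f e) e * K + (f e : ℕ)
  have hC : ∀ e e', C e = C e' → f e = f e' ∧ c (f e) e = c (f e') e' := by
    intro e e' h
    have h1 : (f e : ℕ) < K := (f e).2
    have h2 : (f e' : ℕ) < K := (f e').2
    have h3 : ∀ x y : ℕ, y < K → (x * K + y) % K = y := by
      intro x y hy
      rw [Nat.mul_comm, Nat.mul_add_mod, Nat.mod_eq_of_lt hy]
    have h4 : ∀ x y : ℕ, y < K → (x * K + y) / K = x := by
      intro x y hy
      rw [Nat.mul_comm, Nat.mul_add_div hK, Nat.div_eq_of_lt hy, Nat.add_zero]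
    have h5 : C e % K = (f e : ℕ) := h3 _ _ h1
    have h6 : C e' % K = (f e' : ℕ) := h3 _ _ h2
    have h7 : C e / K = c (f e) e := h4 _ _ h1
    have h8 : C e' / K = c (f e') e' := h4 _ _ h2
    refine ⟨Fin.ext ?_, ?_⟩
    · rw [← h5, ← h6, h]
    · rw [← h7, ← h8, h]
  refine ⟨C, ?_, ?_⟩
  · intro e e' hne hee h
    obtain ⟨h1, h2⟩ := hC e e' h
    obtain ⟨v, hv, hv'⟩ : ∃ v, (s e = v ∨ t e = v) ∧ (s e' = v ∨ t e' = v) := by
      rcases hee with h3 | h3 | h3 | h3
      · exact ⟨s e, Or.inl rfl, Or.inl h3.symm⟩
      · exact ⟨s e, Or.inl rfl, Or.inr h3.symm⟩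
      · exact ⟨t e, Or.inr rfl, Or.inl h3.symm⟩
      · exact ⟨t e, Or.inr rfl, Or.inr h3.symm⟩
    rw [hat] at hv hv'
    refine hne ((hcw (f e) v).1 ?_ ?_ ?_)
    · exact Finset.mem_coe.2 (Finset.mem_filter.2 ⟨Finset.mem_filter.2 ⟨Finset.mem_univ _, rfl⟩, hv⟩)
    · exact Finset.mem_coe.2 (Finset.mem_filter.2 ⟨Finset.mem_filter.2 ⟨Finset.mem_univ _, h1.symm⟩, hv'⟩)
    · rw [h2, h1]
  · -- the palettes
    let Q : Fin n → (Fin K → Finset ℕ) := fun v i =>
      ((Finset.univ.filter fun e => f e = i).filter fun e => w v e = v).image (c i)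
    let Φ : (Fin K → Finset ℕ) → Finset ℕ := fun g =>
      Finset.univ.biUnion fun i => (g i).image fun x => x * K + (i : ℕ)
    let W : ℕ → Finset (Finset ℕ) := fun x =>
      ((Finset.range (2 ^ k + 1)).filter fun d => x ≤ d ∧ d ≤ x + 1).biUnion (Fam k)
    have hWc : ∀ x, (W x).card ≤ 2 * 2 ^ J k := by
      intro x
      refine (Finset.card_biUnion_le_card_mul _ _ (2 ^ J k) fun d hd => ?_).trans ?_
      · have h1 := Finset.mem_range.1 (Finset.mem_filter.1 hd).1
        exact (card_Fam k d (by omega)).1
      · refine Nat.mul_le_mul_right _ ?_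
        have h1 : ((Finset.range (2 ^ k + 1)).filter fun d => x ≤ d ∧ d ≤ x + 1) ⊆ {x, x + 1} := by
          intro d hd
          have h2 := (Finset.mem_filter.1 hd).2
          rw [Finset.mem_insert, Finset.mem_singleton]
          omega
        exact (Finset.card_le_card h1).trans Finset.card_le_two
    have hΦ : ∀ v, (Finset.univ.filter fun e : Fin m => s e = v ∨ t e = v).image C = Φ (Q v) := by
      intro v
      ext x
      rw [Finset.mem_image, Finset.mem_biUnion]
      constructor
      · rintro ⟨e, he, rfl⟩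
        refine ⟨f e, Finset.mem_univ _, Finset.mem_image.2 ⟨c (f e) e, ?_, rfl⟩⟩
        exact Finset.mem_image.2 ⟨e, Finset.mem_filter.2 ⟨Finset.mem_filter.2 ⟨Finset.mem_univ _, rfl⟩,
          (hat v e).1 (Finset.mem_filter.1 he).2⟩, rfl⟩
      · rintro ⟨i, -, hi⟩
        obtain ⟨y, hy, rfl⟩ := Finset.mem_image.1 hi
        obtain ⟨e, he, rfl⟩ := Finset.mem_image.1 hy
        obtain ⟨he1, he2⟩ := Finset.mem_filter.1 he
        have he3 : f e = i := (Finset.mem_filter.1 he1).2
        refine ⟨e, Finset.mem_filter.2 ⟨Finset.mem_univ _, (hat v e).2 he2⟩, ?_⟩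
        show c (f e) e * K + (f e : ℕ) = c i e * K + (i : ℕ)
        rw [he3]
    have h1 : ((Finset.univ : Finset (Fin n)).image fun v =>
        (Finset.univ.filter fun e : Fin m => s e = v ∨ t e = v).image C) ⊆
        (Finset.range (2 ^ k + 1)).biUnion fun x =>
          (Fintype.piFinset fun _ : Fin K => W x).image Φ := by
      intro x hx
      obtain ⟨v, -, rfl⟩ := Finset.mem_image.1 hx
      obtain ⟨y, hy, hy'⟩ := hwin v
      refine Finset.mem_biUnion.2 ⟨y, Finset.mem_range.2 hy, Finset.mem_image.2 ⟨Q v, ?_, (hΦ v).symm⟩⟩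
      rw [Fintype.mem_piFinset]
      intro i
      have h2 := (hcw i v).2
      rw [hff] at h2
      obtain ⟨h3, h4, h5⟩ := hy' i
      exact Finset.mem_biUnion.2 ⟨cn (w v) f i v, Finset.mem_filter.2 ⟨Finset.mem_range.2
        (Nat.lt_succ_of_le h5), h3, h4⟩, h2⟩
    refine (Finset.card_le_card h1).trans (Finset.card_biUnion_le.trans ?_)
    have h2 : ∀ x ∈ Finset.range (2 ^ k + 1),
        ((Fintype.piFinset fun _ : Fin K => W x).image Φ).card ≤ (2 * 2 ^ J k) ^ K := by
      intro x _
      refine Finset.card_image_le.trans ?_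
      rw [Fintype.card_piFinset, Finset.prod_const, Finset.card_univ, Fintype.card_fin]
      exact Nat.pow_le_pow_left (hWc x) K
    refine (Finset.sum_le_sum h2).trans ?_
    rw [Finset.sum_const, Finset.card_range, smul_eq_mul]

end Pool.Agent.H249.Pal
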