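import Pool.Agent.H249.Pal.Load

/-!
# Bipartite multigraphs of small multiplicity: subexponentially many palettes
-/

set_option autoImplicit false

open Finset

namespace Pool.Agent.H249.Pal.Rnd

variable {n m : ℕ}

/-- the load of the blocks at one vertex -/
theorem side {r P N : ℕ} (hr : 0 < r) (hP : 0 < P) (hdvd : ∀ k, 0 < k → k ≤ r → k ∣ P)
    (s t : Fin m → Fin n) (D : ℕ) (η : ℝ) (hη : 0 ≤ η) (kk : Fin n → Fin (r + 1)) (ω : Fin n → Fin r)
    (v : Fin n) (hk0 : 0 < (kk v : ℕ)) (hk1 : r * (Av s t v).card ≤ (kk v : ℕ) * D)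
    (hω : ∀ (k : Fin (r + 1)) (x : Fin r),
      (((Av s t v).filter fun e => kk (oth s t v e) = k ∧ ω (oth s t v e) = x).card : ℝ) ≤
        (((Av s t v).filter fun e => kk (oth s t v e) = k).card : ℝ) / r + η * D)
    (a b : Fin m → Fin n) (ha : ∀ e, e ∈ Av s t v ↔ a e = v) (hb : ∀ e, a e = v → oth s t v e = b e)
    (e1 : (Fin n × (Fin (r + 1) × Fin r)) ≃ Fin N) (f : Fin m → Fin (P * P)) (w : Fin m → Fin N)
    (hw : ∀ e, w e = e1 (a e, (kk (b e), ω (b e)))) (hf : ∀ i j z, cn w f i z ≤ cn w f j z + 1)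
    (p1 p2 : Fin m → Fin P) (ψ : Fin P → Fin P → Fin (P * P))
    (hψ : ∀ e i j, (p1 e = i ∧ p2 e = j) ↔ f e = ψ i j) (α β : Fin r) :
    ((Finset.univ.filter fun e => a e = v ∧
      ((ω v : ℕ) + (p1 e : ℕ) % (kk v : ℕ)) % r = (α : ℕ) ∧
      ((ω (b e) : ℕ) + (p2 e : ℕ) % (kk (b e) : ℕ)) % r = (β : ℕ)).card : ℝ) ≤
      (D : ℝ) / r ^ 2 + (r + 1) * (η * D + (P : ℝ) ^ 2) := by
  classical
  have hEA : Av s t v = Finset.univ.filter fun e => a e = v := by
    ext e
    rw [ha, Finset.mem_filter]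
    exact ⟨fun h => ⟨Finset.mem_univ _, h⟩, fun h => h.2⟩
  have h1 := load hr hP hdvd (Finset.univ.filter fun e => a e = v)
    (fun e => (kk (b e), ω (b e))) p1 p2
    (fun τ i j => by
      have h2 := refined (Nat.mul_pos hP hP) e1 (fun e => (a e, (kk (b e), ω (b e)))) w hw f hf (v, τ)
        (ψ i j)
      have h3 : (Finset.univ.filter fun e => f e = ψ i j ∧ (a e, (kk (b e), ω (b e))) = (v, τ)) =
          (Finset.univ.filter fun e => a e = v).filter
            fun e => (kk (b e), ω (b e)) = τ ∧ p1 e = i ∧ p2 e = j := by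
        ext e
        rw [Finset.mem_filter, Finset.mem_filter, Finset.mem_filter, ← hψ, Prod.mk.injEq]
        tauto
      have h4 : (Finset.univ.filter fun e => (a e, (kk (b e), ω (b e))) = (v, τ)) =
          (Finset.univ.filter fun e => a e = v).filter fun e => (kk (b e), ω (b e)) = τ := by
        ext e
        rw [Finset.mem_filter, Finset.mem_filter, Finset.mem_filter, Prod.mk.injEq]
        tauto
      rw [h3, h4] at h2
      exact h2)
    (kk v : ℕ) hk0 (Nat.lt_succ_iff.1 (kk v).2) (ω v) (D : ℝ) η (Nat.cast_nonneg D) hη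
    (fun k' x' => by
      have h2 := hω k' x'
      have h3 : ((Av s t v).filter fun e => kk (oth s t v e) = k' ∧ ω (oth s t v e) = x') =
          (Finset.univ.filter fun e => a e = v).filter fun e => (kk (b e), ω (b e)) = (k', x') := by
        ext e
        rw [Finset.mem_filter, Finset.mem_filter, Finset.mem_filter, ha, Prod.mk.injEq]
        constructor
        · rintro ⟨h, h'⟩
          rw [hb e h] at h'
          exact ⟨⟨Finset.mem_univ _, h⟩, h'⟩
        · rintro ⟨⟨-, h⟩, h'⟩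
          rw [hb e h]
          exact ⟨h, h'⟩
      have h4 : ((Av s t v).filter fun e => kk (oth s t v e) = k') =
          (Finset.univ.filter fun e => a e = v).filter fun e => kk (b e) = k' := by
        ext e
        rw [Finset.mem_filter, Finset.mem_filter, Finset.mem_filter, ha]
        constructor
        · rintro ⟨h, h'⟩
          rw [hb e h] at h'
          exact ⟨⟨Finset.mem_univ _, h⟩, h'⟩
        · rintro ⟨⟨-, h⟩, h'⟩
          rw [hb e h]
          exact ⟨h, h'⟩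
      rw [h3, h4] at h2
      exact h2)
    (by
      rw [← hEA]
      exact_mod_cast hk1) α β
  refine le_trans (le_of_eq ?_) h1
  congr 2
  ext e
  rw [Finset.mem_filter, Finset.mem_filter, Finset.mem_filter]
  tauto

theorem bipCore {r : ℕ} (hr : 0 < r) (h : ℕ) (η : ℝ) (hη : 0 ≤ η) (s t : Fin m → Fin n)
    (X : Fin n → Bool) (hX : ∀ e, X (s e) ≠ X (t e)) (D : ℕ)
    (kk : Fin n → Fin (r + 1)) (hk0 : ∀ v, 0 < (kk v : ℕ))
    (hk1 : ∀ v, r * (Av s t v).card ≤ (kk v : ℕ) * D)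
    (hk2 : ∀ v, ((kk v : ℕ) - 1) * D ≤ r * (Av s t v).card) (ω : Fin n → Fin r)
    (hω : ∀ (v : Fin n) (k : Fin (r + 1)) (x : Fin r),
      (((Av s t v).filter fun e => kk (oth s t v e) = k ∧ ω (oth s t v e) = x).card : ℝ) ≤
        (((Av s t v).filter fun e => kk (oth s t v e) = k).card : ℝ) / r + η * D)
    (Y Z : ℝ)
    (hY : (D : ℝ) / r + r ^ 2 * ((r + 1) * (η * D + (r.factorial : ℝ) ^ 2) + 1) ≤ Y)
    (hZ : (D : ℝ) + r ^ 2 * ((r + 1) * (η * D + (r.factorial : ℝ) ^ 2) + 1) ≤ Z) :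
    ∃ c : Fin m → ℕ, Col s t c ∧ ((pals s t c).card : ℝ) ≤
      (2 * ((r + 1) * r) : ℝ) * (2 : ℝ) ^ ((h : ℝ) * Y + 2 * (1 / 2) ^ h * Z) := by
  classical
  have hr' : (0 : ℝ) < r := by exact_mod_cast hr
  obtain ⟨P, hPdef⟩ : ∃ P : ℕ, P = r.factorial := ⟨_, rfl⟩
  rw [← hPdef] at hY hZ
  have hP : 0 < P := by
    rw [hPdef]
    exact Nat.factorial_pos r
  have hdvd : ∀ k, 0 < k → k ≤ r → k ∣ P := by
    intro k h1 h2
    rw [hPdef]
    exact Nat.dvd_factorial h1 h2
  obtain ⟨A, B, hAB⟩ : ∃ A B : Fin m → Fin n, ∀ e,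
      (A e = s e ∧ B e = t e ∧ X (s e) = true ∧ X (t e) = false) ∨
      (A e = t e ∧ B e = s e ∧ X (s e) = false ∧ X (t e) = true) := by
    refine ⟨fun e => if X (s e) = true then s e else t e, fun e => if X (s e) = true then t e else s e,
      fun e => ?_⟩
    have h1 := hX e
    cases h2 : X (s e) <;> cases h3 : X (t e)
    · rw [h2, h3] at h1
      exact absurd rfl h1
    · exact Or.inr ⟨by simp [h2], by simp [h2], rfl, rfl⟩
    · exact Or.inl ⟨by simp [h2], by simp [h2], rfl, rfl⟩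
    · rw [h2, h3] at h1
      exact absurd rfl h1
  have hXA : ∀ e, X (A e) = true := by
    intro e
    rcases hAB e with h1 | h1
    · rw [h1.1]; exact h1.2.2.1
    · rw [h1.1]; exact h1.2.2.2
  have hXB : ∀ e, X (B e) = false := by
    intro e
    rcases hAB e with h1 | h1
    · rw [h1.2.1]; exact h1.2.2.2
    · rw [h1.2.1]; exact h1.2.2.1
  have hvA : ∀ v, X v = true → ∀ e, e ∈ Av s t v ↔ A e = v := by
    intro v hv e
    rw [mem_Av]
    rcases hAB e with ⟨h1, h2, h3, h4⟩ | ⟨h1, h2, h3, h4⟩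
    · rw [h1]
      refine ⟨fun h5 => h5.resolve_right fun h6 => ?_, Or.inl⟩
      rw [h6, hv] at h4
      exact absurd h4 (by simp)
    · rw [h1]
      refine ⟨fun h5 => h5.resolve_left fun h6 => ?_, Or.inr⟩
      rw [h6, hv] at h3
      exact absurd h3 (by simp)
  have hvB : ∀ v, X v = false → ∀ e, e ∈ Av s t v ↔ B e = v := by
    intro v hv e
    rw [mem_Av]
    rcases hAB e with ⟨h1, h2, h3, h4⟩ | ⟨h1, h2, h3, h4⟩
    · rw [h2]
      refine ⟨fun h5 => h5.resolve_left fun h6 => ?_, Or.inr⟩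
      rw [h6, hv] at h3
      exact absurd h3 (by simp)
    · rw [h2]
      refine ⟨fun h5 => h5.resolve_right fun h6 => ?_, Or.inl⟩
      rw [h6, hv] at h4
      exact absurd h4 (by simp)
  have hoA : ∀ v e, A e = v → oth s t v e = B e := by
    intro v e he
    unfold oth
    rcases hAB e with ⟨h1, h2, h3, h4⟩ | ⟨h1, h2, h3, h4⟩
    · rw [if_pos (h1.symm.trans he), h2]
    · have h5 : ¬ s e = v := by
        intro h6
        rw [h6, ← he, h1, h4] at h3
        exact absurd h3 (by simp)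
      rw [if_neg h5, h2]
  have hoB : ∀ v e, B e = v → oth s t v e = A e := by
    intro v e he
    unfold oth
    rcases hAB e with ⟨h1, h2, h3, h4⟩ | ⟨h1, h2, h3, h4⟩
    · have h5 : ¬ s e = v := by
        intro h6
        rw [h6, ← he, h2, h4] at h3
        exact absurd h3 (by simp)
      rw [if_neg h5, h1]
    · rw [if_pos (h2.symm.trans he), h1]
  -- the first partition
  obtain ⟨N, ⟨e1⟩⟩ : ∃ N : ℕ, Nonempty ((Fin n × (Fin (r + 1) × Fin r)) ≃ Fin N) :=
    ⟨_, ⟨Fintype.equivFin _⟩⟩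
  obtain ⟨f, hf⟩ := split (k := P * P) (Nat.mul_pos hP hP) (fun e => e1 (A e, (kk (B e), ω (B e))))
    (fun e => e1 (B e, (kk (A e), ω (A e))))
  let φ : Fin (P * P) ≃ Fin P × Fin P := finProdFinEquiv.symm
  let row : Fin m → Fin r := fun e =>
    ⟨((ω (A e) : ℕ) + ((φ (f e)).1 : ℕ) % (kk (A e) : ℕ)) % r, Nat.mod_lt _ hr⟩
  let col : Fin m → Fin r := fun e =>
    ⟨((ω (B e) : ℕ) + ((φ (f e)).2 : ℕ) % (kk (B e) : ℕ)) % r, Nat.mod_lt _ hr⟩
  obtain ⟨Db, hDb⟩ : ∃ Db : ℕ, Db = ⌊(D : ℝ) / r ^ 2 + (r + 1) * (η * D + (P : ℝ) ^ 2)⌋₊ := ⟨_, rfl⟩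
  have hb0 : 0 ≤ (D : ℝ) / r ^ 2 + (r + 1) * (η * D + (P : ℝ) ^ 2) := by positivity
  have hloadA : ∀ v, X v = true → ∀ z : Fin r × Fin r,
      (Finset.univ.filter fun e => (A e, (row e, col e)) = (v, z)).card ≤ Db := by
    intro v hv z
    have h1 := side (N := N) hr hP hdvd s t D η hη kk ω v (hk0 v) (hk1 v) (hω v) A B (hvA v hv)
      (hoA v) e1 f (fun e => e1 (A e, (kk (B e), ω (B e)))) (fun _ => rfl) (fun i j z => (hf i j z).1)
      (fun e => (φ (f e)).1) (fun e => (φ (f e)).2) (fun i j => φ.symm (i, j))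
      (fun e i j => by
        rw [Equiv.eq_symm_apply, Prod.ext_iff]) z.1 z.2
    rw [hDb]
    refine Nat.le_floor (le_trans (le_of_eq ?_) h1)
    congr 2
    ext e
    rw [Finset.mem_filter, Finset.mem_filter, Prod.ext_iff, Prod.ext_iff, Fin.ext_iff (a := row e),
      Fin.ext_iff (a := col e)]
    constructor
    · rintro ⟨h2, h3, h4, h5⟩
      have h3' : A e = v := h3
      refine ⟨h2, h3', ?_, h5⟩
      rw [← h3']
      exact h4
    · rintro ⟨h2, h3, h4, h5⟩
      refine ⟨h2, h3, ?_, h5⟩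
      rw [← h3] at h4
      exact h4
  have hloadB : ∀ v, X v = false → ∀ z : Fin r × Fin r,
      (Finset.univ.filter fun e => (B e, (row e, col e)) = (v, z)).card ≤ Db := by
    intro v hv z
    have h1 := side (N := N) hr hP hdvd s t D η hη kk ω v (hk0 v) (hk1 v) (hω v) B A (hvB v hv)
      (hoB v) e1 f (fun e => e1 (B e, (kk (A e), ω (A e)))) (fun _ => rfl) (fun i j z => (hf i j z).2)
      (fun e => (φ (f e)).2) (fun e => (φ (f e)).1) (fun i j => φ.symm (j, i))
      (fun e i j => by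
        rw [Equiv.eq_symm_apply, Prod.ext_iff]
        exact and_comm) z.2 z.1
    rw [hDb]
    refine Nat.le_floor (le_trans (le_of_eq ?_) h1)
    congr 2
    ext e
    rw [Finset.mem_filter, Finset.mem_filter, Prod.ext_iff, Prod.ext_iff, Fin.ext_iff (a := row e),
      Fin.ext_iff (a := col e)]
    constructor
    · rintro ⟨h2, h3, h4, h5⟩
      have h3' : B e = v := h3
      refine ⟨h2, h3', ?_, h4⟩
      rw [← h3']
      exact h5
    · rintro ⟨h2, h3, h4, h5⟩
      refine ⟨h2, h3, h5, ?_⟩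
      rw [← h3] at h4
      exact h4
  -- the second partition
  obtain ⟨N2, ⟨e2⟩⟩ : ∃ N : ℕ, Nonempty ((Fin n × (Fin r × Fin r)) ≃ Fin N) :=
    ⟨_, ⟨Fintype.equivFin _⟩⟩
  obtain ⟨f2, hf2⟩ := split (k := Db + 1) (Nat.succ_pos _) (fun e => e2 (A e, (row e, col e)))
    (fun e => e2 (B e, (row e, col e)))
  have hone : ∀ c x : ℕ, (Db + 1) * c ≤ x + (Db + 1) → x ≤ Db → c ≤ 1 := by
    intro c x h1 h2
    by_contra h3
    have h4 : (Db + 1) * 2 ≤ (Db + 1) * c := Nat.mul_le_mul_left _ (by omega)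
    omega
  have hinA : ∀ e e', A e = A e' → (row e, col e) = (row e', col e') → f2 e = f2 e' → e = e' := by
    intro e e' h1 h2 h3
    have h4 := refined (Nat.succ_pos Db) e2 (fun e => (A e, (row e, col e))) _ (fun _ => rfl) f2
      (fun i j z => (hf2 i j z).1) (A e, (row e, col e)) (f2 e)
    have h5 := hone _ _ h4 (hloadA (A e) (hXA e) (row e, col e))
    refine Finset.card_le_one.1 h5 e (Finset.mem_filter.2 ⟨Finset.mem_univ _, rfl, rfl⟩) e'
      (Finset.mem_filter.2 ⟨Finset.mem_univ _, h3.symm, ?_⟩)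
    rw [h1, h2]
  have hinB : ∀ e e', B e = B e' → (row e, col e) = (row e', col e') → f2 e = f2 e' → e = e' := by
    intro e e' h1 h2 h3
    have h4 := refined (Nat.succ_pos Db) e2 (fun e => (B e, (row e, col e))) _ (fun _ => rfl) f2
      (fun i j z => (hf2 i j z).2) (B e, (row e, col e)) (f2 e)
    have h5 := hone _ _ h4 (hloadB (B e) (hXB e) (row e, col e))
    refine Finset.card_le_one.1 h5 e (Finset.mem_filter.2 ⟨Finset.mem_univ _, rfl, rfl⟩) e'
      (Finset.mem_filter.2 ⟨Finset.mem_univ _, h3.symm, ?_⟩)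
    rw [h1, h2]
  -- the colouring
  let c0 : Fin m → (Fin r × Fin r) × Fin (Db + 1) := fun e => ((row e, col e), f2 e)
  have hinj : ∀ v e e', e ∈ Av s t v → e' ∈ Av s t v → c0 e = c0 e' → e = e' := by
    intro v e e' he he' hc
    have h1 : (row e, col e) = (row e', col e') := congrArg Prod.fst hc
    have h2 : f2 e = f2 e' := congrArg Prod.snd hc
    cases hv : X v
    · rw [hvB v hv] at he he'
      exact hinB e e' (he.trans he'.symm) h1 h2
    · rw [hvA v hv] at he he'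
      exact hinA e e' (he.trans he'.symm) h1 h2
  obtain ⟨N3, ⟨e3⟩⟩ : ∃ N : ℕ, Nonempty (((Fin r × Fin r) × Fin (Db + 1)) ≃ Fin N) :=
    ⟨_, ⟨Fintype.equivFin _⟩⟩
  refine ⟨fun e => (e3 (c0 e) : ℕ), ?_, ?_⟩
  · intro e e' hne hsh hc
    obtain ⟨v, hv, hv'⟩ : ∃ v, e ∈ Av s t v ∧ e' ∈ Av s t v := by
      rcases hsh with h3 | h3 | h3 | h3
      · exact ⟨s e, mem_Av.2 (Or.inl rfl), mem_Av.2 (Or.inl h3.symm)⟩
      · exact ⟨s e, mem_Av.2 (Or.inl rfl), mem_Av.2 (Or.inr h3.symm)⟩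
      · exact ⟨t e, mem_Av.2 (Or.inr rfl), mem_Av.2 (Or.inl h3.symm)⟩
      · exact ⟨t e, mem_Av.2 (Or.inr rfl), mem_Av.2 (Or.inr h3.symm)⟩
    exact hne (hinj v e e' hv hv' (e3.injective (Fin.ext hc)))
  · -- the palettes
    let O : Fin (r + 1) × Fin r → Finset (Fin r) := fun y =>
      (Finset.range (y.1 : ℕ)).image fun z => ⟨((y.2 : ℕ) + z) % r, Nat.mod_lt _ hr⟩
    let S : Bool × (Fin (r + 1) × Fin r) → Finset ((Fin r × Fin r) × Fin (Db + 1)) := fun y =>
      if y.1 = true then (O y.2 ×ˢ Finset.univ) ×ˢ Finset.univ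
      else (Finset.univ ×ˢ O y.2) ×ˢ Finset.univ
    have hO : ∀ y, (O y).card ≤ (y.1 : ℕ) := fun y =>
      Finset.card_image_le.trans (le_of_eq (Finset.card_range _))
    have hS : ∀ y, (S y).card ≤ (y.2.1 : ℕ) * r * (Db + 1) := by
      intro y
      show (if y.1 = true then (O y.2 ×ˢ Finset.univ) ×ˢ Finset.univ
        else (Finset.univ ×ˢ O y.2) ×ˢ Finset.univ : Finset ((Fin r × Fin r) × Fin (Db + 1))).card ≤ _
      by_cases hy : y.1 = true
      · rw [if_pos hy, Finset.card_product, Finset.card_product, Finset.card_univ, Finset.card_univ,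
          Fintype.card_fin, Fintype.card_fin]
        exact Nat.mul_le_mul_right _ (Nat.mul_le_mul_right _ (hO y.2))
      · rw [if_neg hy, Finset.card_product, Finset.card_product, Finset.card_univ, Finset.card_univ,
          Fintype.card_fin, Fintype.card_fin, Nat.mul_comm r]
        exact Nat.mul_le_mul_right _ (Nat.mul_le_mul_right _ (hO y.2))
    let Q : Fin n → Finset ((Fin r × Fin r) × Fin (Db + 1)) := fun v => (Av s t v).image c0
    have hQc : ∀ v, (Q v).card = (Av s t v).card := fun v =>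
      Finset.card_image_of_injOn fun e he e' he' hc => hinj v e e' he he' hc
    have hQS : ∀ v, Q v ⊆ S (X v, (kk v, ω v)) := by
      intro v w hw
      obtain ⟨e, he, rfl⟩ := Finset.mem_image.1 hw
      show c0 e ∈ (if X v = true then (O (kk v, ω v) ×ˢ Finset.univ) ×ˢ Finset.univ
        else (Finset.univ ×ˢ O (kk v, ω v)) ×ˢ Finset.univ)
      cases hv : X v
      · rw [hvB v hv] at he
        rw [if_neg (by simp)]
        refine Finset.mem_product.2 ⟨Finset.mem_product.2 ⟨Finset.mem_univ _, ?_⟩, Finset.mem_univ _⟩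
        refine Finset.mem_image.2 ⟨((φ (f e)).2 : ℕ) % (kk v : ℕ),
          Finset.mem_range.2 (Nat.mod_lt _ (hk0 v)), ?_⟩
        subst he
        rfl
      · rw [hvA v hv] at he
        rw [if_pos rfl]
        refine Finset.mem_product.2 ⟨Finset.mem_product.2 ⟨?_, Finset.mem_univ _⟩, Finset.mem_univ _⟩
        refine Finset.mem_image.2 ⟨((φ (f e)).1 : ℕ) % (kk v : ℕ),
          Finset.mem_range.2 (Nat.mod_lt _ (hk0 v)), ?_⟩
        subst he
        rfl
    -- the numbers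
    have hDbr : ((Db : ℝ) + 1) ≤ (D : ℝ) / r ^ 2 + ((r + 1) * (η * D + (P : ℝ) ^ 2) + 1) := by
      have h1 : (Db : ℝ) ≤ (D : ℝ) / r ^ 2 + (r + 1) * (η * D + (P : ℝ) ^ 2) := by
        rw [hDb]
        exact Nat.floor_le hb0
      linarith
    have hSr : ∀ y : Bool × (Fin (r + 1) × Fin r), ((S y).card : ℝ) ≤
        ((y.2.1 : ℕ) : ℝ) * D / r + r ^ 2 * ((r + 1) * (η * D + (P : ℝ) ^ 2) + 1) := by
      intro y
      have h1 : ((S y).card : ℝ) ≤ ((y.2.1 : ℕ) : ℝ) * r * ((Db : ℝ) + 1) := by exact_mod_cast hS y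
      have h2 : ((y.2.1 : ℕ) : ℝ) ≤ r := by
        have : (y.2.1 : ℕ) ≤ r := Nat.lt_succ_iff.1 y.2.1.2
        exact_mod_cast this
      have h3 : ((y.2.1 : ℕ) : ℝ) * r * ((Db : ℝ) + 1) ≤ ((y.2.1 : ℕ) : ℝ) * r *
          ((D : ℝ) / r ^ 2 + ((r + 1) * (η * D + (P : ℝ) ^ 2) + 1)) :=
        mul_le_mul_of_nonneg_left hDbr (by positivity)
      have h4 : ((y.2.1 : ℕ) : ℝ) * r * ((D : ℝ) / r ^ 2 + ((r + 1) * (η * D + (P : ℝ) ^ 2) + 1)) =
          ((y.2.1 : ℕ) : ℝ) * D / r + ((y.2.1 : ℕ) : ℝ) * r * ((r + 1) * (η * D + (P : ℝ) ^ 2) + 1) := by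
        field_simp
      have h5 : ((y.2.1 : ℕ) : ℝ) * r * ((r + 1) * (η * D + (P : ℝ) ^ 2) + 1) ≤
          r ^ 2 * ((r + 1) * (η * D + (P : ℝ) ^ 2) + 1) := by
        refine mul_le_mul_of_nonneg_right ?_ (by positivity)
        nlinarith
      linarith
    have hSZ : ∀ y, ((S y).card : ℝ) ≤ Z := by
      intro y
      have h2 : ((y.2.1 : ℕ) : ℝ) ≤ r := by
        have : (y.2.1 : ℕ) ≤ r := Nat.lt_succ_iff.1 y.2.1.2
        exact_mod_cast this
      have h3 : ((y.2.1 : ℕ) : ℝ) * D / r ≤ D := by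
        rw [div_le_iff₀ hr', mul_comm (D : ℝ)]
        exact mul_le_mul_of_nonneg_right h2 (Nat.cast_nonneg D)
      have := hSr y
      linarith
    have hSY : ∀ v, ((S (X v, (kk v, ω v))).card : ℝ) ≤ ((Q v).card : ℝ) + Y := by
      intro v
      have h1 := hSr (X v, (kk v, ω v))
      have h2 : (((kk v : ℕ) : ℝ) - 1) * D ≤ r * ((Av s t v).card : ℝ) := by
        have h3 := hk2 v
        have h4 := hk0 v
        have h5 : ((((kk v : ℕ) - 1 : ℕ) : ℝ)) * (D : ℝ) ≤ r * ((Av s t v).card : ℝ) := by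
          exact_mod_cast h3
        rw [Nat.cast_sub h4, Nat.cast_one] at h5
        exact h5
      rw [hQc v]
      have h3 : ((kk v : ℕ) : ℝ) * D / r ≤ ((Av s t v).card : ℝ) + D / r := by
        rw [div_le_iff₀ hr', add_mul, div_mul_cancel₀ _ hr'.ne']
        linarith
      have h4 : (((X v, (kk v, ω v)).2.1 : ℕ) : ℝ) * D / r = ((kk v : ℕ) : ℝ) * D / r := rfl
      rw [h4] at h1
      linarith
    -- counting
    let 𝒬 : Bool × (Fin (r + 1) × Fin r) → Finset (Finset ((Fin r × Fin r) × Fin (Db + 1))) := fun y =>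
      (S y).powerset.filter fun q => ((S y).card : ℝ) ≤ q.card + Y
    have hsub : pals s t (fun e => (e3 (c0 e) : ℕ)) ⊆
        ((Finset.univ : Finset (Bool × (Fin (r + 1) × Fin r))).biUnion 𝒬).image
          fun q => q.image fun w => (e3 w : ℕ) := by
      intro x hx
      obtain ⟨v, -, rfl⟩ := Finset.mem_image.1 hx
      refine Finset.mem_image.2 ⟨Q v, Finset.mem_biUnion.2 ⟨(X v, (kk v, ω v)), Finset.mem_univ _,
        Finset.mem_filter.2 ⟨Finset.mem_powerset.2 (hQS v), hSY v⟩⟩, ?_⟩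
      exact Finset.image_image
    have hcard : ((pals s t (fun e => (e3 (c0 e) : ℕ))).card : ℝ) ≤
        ∑ y : Bool × (Fin (r + 1) × Fin r), ((𝒬 y).card : ℝ) := by
      have h1 := (Finset.card_le_card hsub).trans (Finset.card_image_le.trans Finset.card_biUnion_le)
      exact_mod_cast h1
    refine hcard.trans ((Finset.sum_le_sum fun y _ => (Cnt.subsets (S y) Y h).trans
      (Real.rpow_le_rpow_of_exponent_le (by norm_num) (add_le_add le_rfl
        (mul_le_mul_of_nonneg_left (hSZ y) (by positivity))))).trans (le_of_eq ?_))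
    rw [Finset.sum_const, Finset.card_univ, Fintype.card_prod, Fintype.card_prod, Fintype.card_bool,
      Fintype.card_fin, Fintype.card_fin, nsmul_eq_mul]
    push_cast
    ring

end Pool.Agent.H249.Pal.Rnd
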