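import Mathlib

/-!
# Two counting lemmas
-/

set_option autoImplicit false

open Finset

namespace Pool.Agent.H249.Pal.Cnt

/-- subsets of small codimension -/
theorem subsets {W : Type} [DecidableEq W] (A : Finset W) (Y : ℝ) (h : ℕ) :
    ((A.powerset.filter fun Q => (A.card : ℝ) ≤ Q.card + Y).card : ℝ) ≤
      (2 : ℝ) ^ ((h : ℝ) * Y + 2 * (1 / 2) ^ h * A.card) := by
  obtain ⟨l, hl⟩ : ∃ l : ℝ, l = (1 / 2 : ℝ) ^ h := ⟨_, rfl⟩
  have hl0 : 0 < l := by
    rw [hl]
    positivity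
  have h1 : ∑ Q ∈ A.powerset, (1 : ℝ) ^ Q.card * l ^ (A.card - Q.card) = (1 + l) ^ A.card :=
    Finset.sum_pow_mul_eq_add_pow 1 l A
  have hll : l = (2 : ℝ) ^ (-(h : ℝ)) := by
    rw [hl, Real.rpow_neg (by norm_num), Real.rpow_natCast, one_div, inv_pow]
  have h2 : ((A.powerset.filter fun Q => (A.card : ℝ) ≤ Q.card + Y).card : ℝ) *
      (2 : ℝ) ^ (-((h : ℝ) * Y)) ≤ (1 + l) ^ A.card := by
    rw [← h1, ← nsmul_eq_mul, ← Finset.sum_const]
    refine (Finset.sum_le_sum fun Q hQ => ?_).trans (Finset.sum_le_sum_of_subset_of_nonneg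
      (Finset.filter_subset _ _) fun Q _ _ => by positivity)
    obtain ⟨h3, h4⟩ := Finset.mem_filter.1 hQ
    have h5 : Q.card ≤ A.card := Finset.card_le_card (Finset.mem_powerset.1 h3)
    rw [one_pow, one_mul, ← Real.rpow_natCast, hll, ← Real.rpow_mul (by norm_num)]
    refine Real.rpow_le_rpow_of_exponent_le (by norm_num) ?_
    rw [Nat.cast_sub h5]
    have h6 : (A.card : ℝ) - Q.card ≤ Y := by linarith
    have h7 := mul_le_mul_of_nonneg_left h6 (Nat.cast_nonneg (α := ℝ) h)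
    linarith
  have h3 : (1 + l) ^ A.card ≤ (2 : ℝ) ^ (2 * l * A.card) := by
    have h4 : 1 + l ≤ (2 : ℝ) ^ (2 * l) := by
      have h5 : 1 + l ≤ Real.exp l := by
        have := Real.add_one_le_exp l
        linarith
      refine h5.trans ?_
      rw [Real.rpow_def_of_pos (by norm_num)]
      refine Real.exp_le_exp.2 ?_
      have h6 : (1 : ℝ) / 2 ≤ Real.log 2 := by
        have := Real.log_two_gt_d9
        linarith
      nlinarith
    calc (1 + l) ^ A.card ≤ ((2 : ℝ) ^ (2 * l)) ^ A.card := pow_le_pow_left₀ (by positivity) h4 _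
      _ = (2 : ℝ) ^ (2 * l * A.card) := by
        rw [← Real.rpow_natCast, ← Real.rpow_mul (by norm_num)]
  have h4 := h2.trans h3
  rw [Real.rpow_neg (by norm_num), ← div_eq_mul_inv, div_le_iff₀ (by positivity),
    ← Real.rpow_add (by norm_num)] at h4
  refine h4.trans (le_of_eq ?_)
  rw [hl]
  congr 1
  ring

/-- the number of the indices `j < P` which lead from `x` to `a` -/
def NN (P r k : ℕ) (x a : Fin r) : ℕ :=
  (Finset.univ.filter fun j : Fin P => ((x : ℕ) + (j : ℕ) % k) % r = (a : ℕ)).card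

theorem NN_le (P r k : ℕ) (hk : 0 < k) (hkr : k ≤ r) (hP : k ∣ P) (x a : Fin r) :
    k * NN P r k x a ≤ P := by
  classical
  obtain ⟨q, hq⟩ := hP
  -- all these indices have the same remainder
  have huni : ∀ j j' : Fin P, ((x : ℕ) + (j : ℕ) % k) % r = (a : ℕ) →
      ((x : ℕ) + (j' : ℕ) % k) % r = (a : ℕ) → (j : ℕ) % k = (j' : ℕ) % k := by
    intro j j' h h'
    have h1 : ((x : ℕ) + (j : ℕ) % k) % r = ((x : ℕ) + (j' : ℕ) % k) % r := h.trans h'.symm
    have h2 : (j : ℕ) % k ≡ (j' : ℕ) % k [MOD r] := Nat.ModEq.add_left_cancel' (x : ℕ) h1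
    have h3 := Nat.mod_lt (j : ℕ) hk
    have h4 := Nat.mod_lt (j' : ℕ) hk
    exact Nat.ModEq.eq_of_lt_of_lt h2 (by omega) (by omega)
  have h1 : ((Finset.range k) ×ˢ (Finset.univ.filter fun j : Fin P =>
      ((x : ℕ) + (j : ℕ) % k) % r = (a : ℕ))).card ≤ (Finset.range P).card := by
    refine Finset.card_le_card_of_injOn (fun y => (y.2 : ℕ) / k * k + y.1) ?_ ?_
    · intro y hy
      obtain ⟨h1, -⟩ := Finset.mem_product.1 (Finset.mem_coe.1 hy)
      have h2 := Finset.mem_range.1 h1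
      refine Finset.mem_coe.2 (Finset.mem_range.2 ?_)
      have h3 : (y.2 : ℕ) / k < q := (Nat.div_lt_iff_lt_mul hk).2 (by
        rw [mul_comm, ← hq]
        exact y.2.2)
      calc (y.2 : ℕ) / k * k + y.1 < (y.2 : ℕ) / k * k + k := by omega
        _ = ((y.2 : ℕ) / k + 1) * k := by ring
        _ ≤ q * k := Nat.mul_le_mul_right k h3
        _ = P := by rw [hq, mul_comm]
    · intro y hy y' hy' h
      obtain ⟨h1, h2⟩ := Finset.mem_product.1 (Finset.mem_coe.1 hy)
      obtain ⟨h3, h4⟩ := Finset.mem_product.1 (Finset.mem_coe.1 hy')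
      have k1 := Finset.mem_range.1 h1
      have k3 := Finset.mem_range.1 h3
      have k2 := (Finset.mem_filter.1 h2).2
      have k4 := (Finset.mem_filter.1 h4).2
      have h' : (y.2 : ℕ) / k * k + y.1 = (y'.2 : ℕ) / k * k + y'.1 := h
      have e1 : y.1 = y'.1 := by
        have e2 : ((y.2 : ℕ) / k * k + y.1) % k = ((y'.2 : ℕ) / k * k + y'.1) % k := by rw [h']
        rwa [Nat.mul_comm, Nat.mul_add_mod, Nat.mod_eq_of_lt k1, Nat.mul_comm, Nat.mul_add_mod,
          Nat.mod_eq_of_lt k3] at e2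
      have e3 : (y.2 : ℕ) / k * k = (y'.2 : ℕ) / k * k := by omega
      have e4 := huni y.2 y'.2 k2 k4
      have e5 := Nat.div_add_mod (y.2 : ℕ) k
      have e6 := Nat.div_add_mod (y'.2 : ℕ) k
      refine Prod.ext e1 (Fin.ext ?_)
      rw [← e5, ← e6, mul_comm, e3, e4, mul_comm]
  rw [Finset.card_product, Finset.card_range, Finset.card_range] at h1
  exact h1

theorem NN_sum (P r k : ℕ) (a : Fin r) : ∑ x : Fin r, NN P r k x a = P := by
  classical
  unfold NN
  simp only [Finset.card_filter]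
  rw [Finset.sum_comm]
  have hr : 0 < r := lt_of_le_of_lt (Nat.zero_le _) a.2
  have h1 : ∀ j : Fin P, ∑ x : Fin r, (if ((x : ℕ) + (j : ℕ) % k) % r = (a : ℕ) then 1 else 0) = 1 := by
    intro j
    obtain ⟨y, hy⟩ : ∃ y : ℕ, y = (j : ℕ) % k := ⟨_, rfl⟩
    rw [← hy]
    obtain ⟨x0, hx0⟩ : ∃ x0 : Fin r, ((x0 : ℕ) + y) % r = (a : ℕ) := by
      refine ⟨⟨((a : ℕ) + (r - y % r)) % r, Nat.mod_lt _ hr⟩, ?_⟩
      show (((a : ℕ) + (r - y % r)) % r + y) % r = (a : ℕ)
      rw [Nat.mod_add_mod, Nat.add_mod, ← Nat.add_mod]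
      have h2 := Nat.mod_lt y hr
      have h3 := Nat.div_add_mod y r
      have h4 : (a : ℕ) + (r - y % r) + y = (a : ℕ) + r * (y / r + 1) := by
        rw [Nat.mul_add, Nat.mul_one]
        omega
      rw [h4, Nat.add_mul_mod_self_left, Nat.mod_eq_of_lt a.2]
    rw [Finset.sum_eq_single x0]
    · rw [if_pos hx0]
    · intro x _ hx
      rw [if_neg]
      intro h
      refine hx (Fin.ext ?_)
      have h2 : (x : ℕ) + y ≡ (x0 : ℕ) + y [MOD r] := h.trans hx0.symm
      exact Nat.ModEq.eq_of_lt_of_lt (Nat.ModEq.add_right_cancel' y h2) x.2 x0.2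
    · intro h
      exact absurd (Finset.mem_univ _) h
  rw [Finset.sum_congr rfl fun j _ => h1 j, Finset.sum_const, Finset.card_univ, Fintype.card_fin,
    smul_eq_mul, mul_one]

end Pool.Agent.H249.Pal.Cnt
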