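import Mathlib

/-!
# Interval colourings of multigraphs whose underlying graph is a forest
-/

set_option autoImplicit false

open Finset

namespace Pool.Agent.H249.Pal

variable {n m : ℕ}

/-- The edges of the set `E` at the vertex `v`. -/
def At (s t : Fin m → Fin n) (E : Finset (Fin m)) (v : Fin n) : Finset (Fin m) :=
  E.filter fun e => s e = v ∨ t e = v

/-- `c` is an interval colouring of the multigraph with the edges `E`: at every vertex `v` the
colours of the edges at `v` are different and form an interval `{a, a + 1, ..., a + d - 1}` of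
integers, where `d` is the number of the edges at `v`. -/
def IntervalCol (s t : Fin m → Fin n) (E : Finset (Fin m)) (c : Fin m → ℕ) : Prop :=
  ∀ v : Fin n, Set.InjOn c (At s t E v : Set (Fin m)) ∧
    ∃ a : ℕ, (At s t E v).image c = Finset.Ico a (a + (At s t E v).card)

/-- The simple graph which underlies the multigraph with the edges `E`. -/
def under (s t : Fin m → Fin n) (E : Finset (Fin m)) : SimpleGraph (Fin n) where
  Adj u v := u ≠ v ∧ ∃ e ∈ E, (s e = u ∧ t e = v) ∨ (s e = v ∧ t e = u)
  symm := ⟨fun _ _ h => ⟨h.1.symm, by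
    obtain ⟨e, he, h' | h'⟩ := h.2
    · exact ⟨e, he, Or.inr h'⟩
    · exact ⟨e, he, Or.inl h'⟩⟩⟩
  loopless := ⟨fun _ h => h.1 rfl⟩

/-! ### ranks in a set with keys -/

section rank

variable {ι : Type} [DecidableEq ι] {L : Type} [LinearOrder L]

/-- the number of the elements of `A` with a smaller key -/
def rk (A : Finset ι) (κ : ι → L) (e : ι) : ℕ := (A.filter fun x => κ x < κ e).card

omit [DecidableEq ι] in
theorem rk_lt {A : Finset ι} {κ : ι → L} {e : ι} (he : e ∈ A) : rk A κ e < A.card := by
  refine Finset.card_lt_card ?_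
  rw [Finset.ssubset_iff_of_subset (Finset.filter_subset _ _)]
  exact ⟨e, he, fun h => absurd (Finset.mem_filter.1 h).2 (lt_irrefl _)⟩

omit [DecidableEq ι] in
theorem rk_lt_rk {A : Finset ι} {κ : ι → L} {e e' : ι} (he : e ∈ A) (h : κ e < κ e') :
    rk A κ e < rk A κ e' := by
  refine Finset.card_lt_card ?_
  rw [Finset.ssubset_iff_of_subset fun x hx => Finset.mem_filter.2
    ⟨(Finset.mem_filter.1 hx).1, (Finset.mem_filter.1 hx).2.trans h⟩]
  exact ⟨e, Finset.mem_filter.2 ⟨he, h⟩, fun h' => absurd (Finset.mem_filter.1 h').2 (lt_irrefl _)⟩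

omit [DecidableEq ι] in
theorem rk_inj {A : Finset ι} {κ : ι → L} (hκ : Function.Injective κ) {e e' : ι} (he : e ∈ A)
    (he' : e' ∈ A) (h : rk A κ e = rk A κ e') : e = e' := by
  rcases lt_trichotomy (κ e) (κ e') with h1 | h1 | h1
  · exact absurd h (rk_lt_rk he h1).ne
  · exact hκ h1
  · exact absurd h (rk_lt_rk he' h1).ne'

end rank

/-! ### forests given by a rank function -/

section forest

variable (s t : Fin m → Fin n) (r : Fin n → ℕ)

/-- the lower end -/
def lo (e : Fin m) : Fin n := if r (s e) < r (t e) then s e else t e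

/-- the upper end -/
def up (e : Fin m) : Fin n := if r (s e) < r (t e) then t e else s e

variable {s t r}

theorem lo_up (e : Fin m) (v : Fin n) :
    (s e = v ∨ t e = v) ↔ (lo s t r e = v ∨ up s t r e = v) := by
  unfold lo up
  by_cases h : r (s e) < r (t e)
  · rw [if_pos h, if_pos h]
  · rw [if_neg h, if_neg h]
    exact Or.comm

theorem lo_lt {e : Fin m} (h : r (s e) ≠ r (t e)) : r (lo s t r e) < r (up s t r e) := by
  unfold lo up
  by_cases h' : r (s e) < r (t e)
  · rw [if_pos h', if_pos h']
    exact h'
  · rw [if_neg h', if_neg h']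
    omega

variable (s t r)

/-- the edges down from `u` -/
def Dn (E : Finset (Fin m)) (u : Fin n) : Finset (Fin m) := E.filter fun e => up s t r e = u

/-- the edges up from `u` -/
def Up (E : Finset (Fin m)) (u : Fin n) : Finset (Fin m) := E.filter fun e => lo s t r e = u

/-- `p` is the parent of `u` -/
def Par (E : Finset (Fin m)) (u p : Fin n) : Prop := ∃ e ∈ E, up s t r e = u ∧ lo s t r e = p

/-- the position of the edges to `u` among the edges at the parent `p` of `u` -/
def off (E : Finset (Fin m)) (u p : Fin n) : ℕ :=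
  (Dn s t r E p).card + ((Up s t r E p).filter fun e => up s t r e < u).card

variable {s t r}

/-- the first colours -/
theorem exists_start (E : Finset (Fin m)) (h1 : ∀ e ∈ E, r (s e) ≠ r (t e))
    (h2 : ∀ e ∈ E, ∀ e' ∈ E, up s t r e = up s t r e' → lo s t r e = lo s t r e') :
    ∃ a : Fin n → ℕ, ∀ u p, Par s t r E u p → a u = a p + off s t r E u p := by
  classical
  have hP : ∀ u p, Par s t r E u p → r p < r u := by
    rintro u p ⟨e, he, rfl, rfl⟩
    exact lo_lt (h1 e he)
  have hU : ∀ u p p', Par s t r E u p → Par s t r E u p' → p = p' := by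
    rintro u p p' ⟨e, he, hu, rfl⟩ ⟨e', he', hu', rfl⟩
    exact h2 e he e' he' (hu.trans hu'.symm)
  let F : (u : Fin n) → ((p : Fin n) → r p < r u → ℕ) → ℕ := fun u ih =>
    if h : ∃ p, Par s t r E u p then ih h.choose (hP u _ h.choose_spec) + off s t r E u h.choose else 0
  let a : Fin n → ℕ := (measure r).wf.fix F
  refine ⟨a, fun u p hp => ?_⟩
  have hex : ∃ p, Par s t r E u p := ⟨p, hp⟩
  have e1 : a u = F u (fun p _ => a p) := (measure r).wf.fix_eq F u
  rw [e1]
  show (if h : ∃ p, Par s t r E u p then a h.choose + off s t r E u h.choose else 0) = _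
  rw [dif_pos hex, hU u _ _ hex.choose_spec hp]

/-- A forest (given by a rank function) has an interval colouring. -/
theorem interval_of_rank (E : Finset (Fin m)) (h1 : ∀ e ∈ E, r (s e) ≠ r (t e))
    (h2 : ∀ e ∈ E, ∀ e' ∈ E, up s t r e = up s t r e' → lo s t r e = lo s t r e') :
    ∃ c : Fin m → ℕ, IntervalCol s t E c := by
  obtain ⟨a, ha⟩ := exists_start E h1 h2
  -- the keys
  let κ : Fin m → Fin n ×ₗ Fin m := fun e => toLex (up s t r e, e)
  have hκ : Function.Injective κ := by
    intro e e' h
    exact (Prod.mk.inj (toLex.injective h)).2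
  let c : Fin m → ℕ := fun e => a (lo s t r e) + (Dn s t r E (lo s t r e)).card +
    rk (Up s t r E (lo s t r e)) κ e
  refine ⟨c, fun v => ?_⟩
  -- the colours of the edges at `v`
  have hAt : At s t E v = Dn s t r E v ∪ Up s t r E v := by
    unfold At Dn Up
    rw [← Finset.filter_or]
    refine Finset.filter_congr fun e _ => ?_
    rw [lo_up (r := r) e v]
    exact Or.comm
  have hcU : ∀ e ∈ Up s t r E v, c e = a v + ((Dn s t r E v).card + rk (Up s t r E v) κ e) := by
    intro e he
    have h3 : lo s t r e = v := (Finset.mem_filter.1 he).2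
    show a (lo s t r e) + (Dn s t r E (lo s t r e)).card +
      rk (Up s t r E (lo s t r e)) κ e = _
    rw [h3, add_assoc]
  have hcD : ∀ e ∈ Dn s t r E v, c e = a v + rk (Dn s t r E v) κ e := by
    intro e he
    obtain ⟨heE, heu⟩ := Finset.mem_filter.1 he
    have h3 : a v = a (lo s t r e) + off s t r E v (lo s t r e) := ha v _ ⟨e, heE, heu, rfl⟩
    show a (lo s t r e) + (Dn s t r E (lo s t r e)).card +
      rk (Up s t r E (lo s t r e)) κ e = _
    rw [h3]
    unfold off
    have h4 : rk (Up s t r E (lo s t r e)) κ e =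
        ((Up s t r E (lo s t r e)).filter fun x => up s t r x < v).card +
          rk (Dn s t r E v) κ e := by
      unfold rk
      rw [← Finset.card_union_of_disjoint]
      · congr 1
        ext x
        rw [Finset.mem_filter, Finset.mem_union, Finset.mem_filter, Finset.mem_filter]
        have h5 : κ x < κ e ↔ up s t r x < up s t r e ∨ up s t r x = up s t r e ∧ x < e :=
          Prod.Lex.toLex_lt_toLex
        rw [h5, heu]
        constructor
        · rintro ⟨hx, hx' | hx'⟩
          · exact Or.inl ⟨hx, hx'⟩
          · exact Or.inr ⟨Finset.mem_filter.2 ⟨(Finset.mem_filter.1 hx).1, hx'.1⟩, Or.inr hx'⟩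
        · rintro (⟨hx, hx'⟩ | ⟨hx, hx'⟩)
          · exact ⟨hx, Or.inl hx'⟩
          · obtain ⟨hxE, hxu⟩ := Finset.mem_filter.1 hx
            exact ⟨Finset.mem_filter.2 ⟨hxE, h2 x hxE e heE (hxu.trans heu.symm)⟩, hx'⟩
      · rw [Finset.disjoint_left]
        intro x hx hx'
        have h6 := (Finset.mem_filter.1 hx).2
        have h7 := (Finset.mem_filter.1 (Finset.mem_filter.1 hx').1).2
        rw [h7] at h6
        exact lt_irrefl _ h6
    rw [h4]
    omega
  have hdisj : Disjoint (Dn s t r E v) (Up s t r E v) := by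
    rw [Finset.disjoint_left]
    intro x hx hx'
    obtain ⟨hxE, hxu⟩ := Finset.mem_filter.1 hx
    have h6 := (Finset.mem_filter.1 hx').2
    have h7 := lo_lt (h1 x hxE)
    rw [hxu, h6] at h7
    exact lt_irrefl _ h7
  have hinj : Set.InjOn c (At s t E v : Set (Fin m)) := by
    intro e he e' he' hee
    rw [Finset.mem_coe, hAt, Finset.mem_union] at he he'
    rcases he with he | he <;> rcases he' with he' | he'
    · rw [hcD e he, hcD e' he'] at hee
      exact rk_inj hκ he he' (by omega)
    · rw [hcD e he, hcU e' he'] at hee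
      have := rk_lt (κ := κ) he
      omega
    · rw [hcU e he, hcD e' he'] at hee
      have := rk_lt (κ := κ) he'
      omega
    · rw [hcU e he, hcU e' he'] at hee
      exact rk_inj hκ he he' (by omega)
  refine ⟨hinj, a v, ?_⟩
  refine Finset.eq_of_subset_of_card_le ?_ ?_
  · intro x hx
    obtain ⟨e, he, rfl⟩ := Finset.mem_image.1 hx
    rw [hAt, Finset.card_union_of_disjoint hdisj, Finset.mem_Ico]
    rw [hAt, Finset.mem_union] at he
    rcases he with he | he
    · rw [hcD e he]
      have := rk_lt (κ := κ) he
      omega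
    · rw [hcU e he]
      have := rk_lt (κ := κ) he
      omega
  · rw [Finset.card_image_of_injOn hinj, Nat.card_Ico]
    omega

/-- the rank function of an acyclic graph -/
theorem exists_rank {V : Type} (G : SimpleGraph V) (hG : G.IsAcyclic) :
    ∃ r : V → ℕ, (∀ u v, G.Adj u v → r u ≠ r v) ∧
      ∀ u u' v, G.Adj u v → G.Adj u' v → r u < r v → r u' < r v → u = u' := by
  classical
  let ρ : V → V := fun v => (G.connectedComponentMk v).out
  have hρ : ∀ v, G.Reachable (ρ v) v := fun v =>
    SimpleGraph.ConnectedComponent.exact (Quot.out_eq (G.connectedComponentMk v))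
  have hρe : ∀ u v, G.Adj u v → ρ u = ρ v := by
    intro u v h
    show (G.connectedComponentMk u).out = (G.connectedComponentMk v).out
    rw [SimpleGraph.ConnectedComponent.sound h.reachable]
  let r : V → ℕ := fun v => G.dist (ρ v) v
  -- the main alternative
  have key : ∀ u v, G.Adj u v → ∀ (p : G.Walk (ρ v) v), p.IsPath → p.length = r v →
      r v < r u ∨ (r v = r u + 1 ∧ p.penultimate = u) := by
    intro u v huv p hp hpl
    have hreach : G.Reachable (ρ v) u := by
      rw [← hρe u v huv]
      exact hρ u
    obtain ⟨q, hq, hql⟩ := hreach.exists_path_of_dist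
    have hru : r u = G.dist (ρ v) u := by
      show G.dist (ρ u) u = _
      rw [hρe u v huv]
    by_cases hv : v ∈ q.support
    · left
      have h3 : r v ≤ (q.takeUntil v hv).length := SimpleGraph.dist_le _
      have h4 : (q.takeUntil v hv).length < q.length := by
        refine lt_of_le_of_ne (q.length_takeUntil_le_length hv) fun h5 => ?_
        have h6 := congrArg SimpleGraph.Walk.length (q.take_spec hv)
        rw [SimpleGraph.Walk.length_append] at h6
        have h7 : (q.dropUntil v hv).length = 0 := by omega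
        exact huv.ne (SimpleGraph.Walk.eq_of_length_eq_zero h7).symm
      rw [hru, ← hql]
      omega
    · right
      have h3 : (q.concat huv).IsPath := hq.concat hv huv
      have h4 : (⟨p, hp⟩ : G.Path (ρ v) v) = ⟨q.concat huv, h3⟩ := (hG.subsingleton_path _ _).allEq _ _
      have h5 : p = q.concat huv := congrArg Subtype.val h4
      constructor
      · rw [hru, ← hql, ← hpl, h5, SimpleGraph.Walk.length_concat]
      · rw [h5, SimpleGraph.Walk.penultimate_concat]
  refine ⟨r, ?_, ?_⟩
  · intro u v huv he
    obtain ⟨p, hp, hpl⟩ := (hρ v).exists_path_of_dist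
    rcases key u v huv p hp hpl with h | h <;> omega
  · intro u u' v hu hu' hlt hlt'
    obtain ⟨p, hp, hpl⟩ := (hρ v).exists_path_of_dist
    rcases key u v hu p hp hpl with h | h
    · omega
    · rcases key u' v hu' p hp hpl with h' | h'
      · omega
      · exact h.2.symm.trans h'.2

/-- A multigraph whose underlying graph is a forest has an interval colouring. -/
theorem interval_of_acyclic (s t : Fin m → Fin n) (hst : ∀ e, s e ≠ t e) (E : Finset (Fin m))
    (h : (under s t E).IsAcyclic) : ∃ c : Fin m → ℕ, IntervalCol s t E c := by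
  obtain ⟨r, hr1, hr2⟩ := exists_rank _ h
  have hadj : ∀ e ∈ E, (under s t E).Adj (s e) (t e) := fun e he =>
    ⟨hst e, e, he, Or.inl ⟨rfl, rfl⟩⟩
  have hadj' : ∀ e ∈ E, (under s t E).Adj (lo s t r e) (up s t r e) := by
    intro e he
    unfold lo up
    by_cases h' : r (s e) < r (t e)
    · rw [if_pos h', if_pos h']
      exact hadj e he
    · rw [if_neg h', if_neg h']
      exact (hadj e he).symm
  refine interval_of_rank (r := r) E (fun e he => hr1 _ _ (hadj e he)) fun e he e' he' hu => ?_
  have h1 := hadj' e he
  have h2 := hadj' e' he'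
  have h3 := lo_lt (s := s) (t := t) (r := r) (hr1 _ _ (hadj e he))
  have h4 := lo_lt (s := s) (t := t) (r := r) (hr1 _ _ (hadj e' he'))
  rw [← hu] at h2 h4
  exact hr2 _ _ _ h1 h2 h3 h4

end forest

end Pool.Agent.H249.Pal
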