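import Pool.Agent.H249.Pal.Mult
import Pool.Agent.H249.Pal.Forest

/-!
# Few palettes for all multigraphs: bundles of parallel edges
-/

set_option autoImplicit false

open Finset

namespace Pool.Agent.H249.Pal.Rnd

variable {n m : ℕ}

/-- bundles of `M` parallel edges -/
theorem bundles (M : ℕ) (hM : 0 < M) (s t : Fin m → Fin n) :
    ∃ (full : Fin m → Prop) (rep : Fin m → Fin m) (pos : Fin m → ℕ),
      (∀ e, full e → full (rep e) ∧ rep (rep e) = rep e ∧
        (∀ v, (s (rep e) = v ∨ t (rep e) = v) ↔ (s e = v ∨ t e = v)) ∧ pos e < M) ∧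
      (∀ e e', full e → full e' → rep e = rep e' → pos e = pos e' → e = e') ∧
      (∀ e, full e → ∀ y, y < M → ∃ e', full e' ∧ rep e' = rep e ∧ pos e' = y) ∧
      (∀ e e', ¬ full e → ¬ full e' →
        ((s e' = s e ∧ t e' = t e) ∨ (s e' = t e ∧ t e' = s e)) → pos e = pos e' → e = e') ∧
      ∀ e, pos e < M := by
  classical
  let K : Fin m → Finset (Fin m) := fun e =>
    Finset.univ.filter fun e' => (s e' = s e ∧ t e' = t e) ∨ (s e' = t e ∧ t e' = s e)
  have hmem : ∀ e e', e' ∈ K e ↔ ((s e' = s e ∧ t e' = t e) ∨ (s e' = t e ∧ t e' = s e)) := by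
    intro e e'
    exact ⟨fun h => (Finset.mem_filter.1 h).2, fun h => Finset.mem_filter.2 ⟨Finset.mem_univ _, h⟩⟩
  have hself : ∀ e, e ∈ K e := fun e => (hmem e e).2 (Or.inl ⟨rfl, rfl⟩)
  have hK : ∀ e e', e' ∈ K e → K e' = K e := by
    intro e e' h
    ext x
    rw [hmem, hmem]
    rcases (hmem e e').1 h with ⟨h1, h2⟩ | ⟨h1, h2⟩
    · rw [h1, h2]
    · rw [h1, h2]
      exact Or.comm
  have hKv : ∀ e e', e' ∈ K e → ∀ v, (s e' = v ∨ t e' = v) ↔ (s e = v ∨ t e = v) := by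
    intro e e' h v
    rcases (hmem e e').1 h with ⟨h1, h2⟩ | ⟨h1, h2⟩
    · rw [h1, h2]
    · rw [h1, h2]
      exact Or.comm
  let idx : Fin m → ℕ := fun e => rk (K e) (fun x => x) e
  have hlt : ∀ e, idx e < (K e).card := fun e => rk_lt (hself e)
  have hinj : ∀ e e', K e = K e' → idx e = idx e' → e = e' := by
    intro e e' h1 h2
    have h3 : e' ∈ K e := by
      rw [h1]
      exact hself e'
    refine rk_inj (A := K e) (κ := fun x => x) (fun _ _ h => h) (hself e) h3 ?_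
    have h4 : rk (K e) (fun x => x) e' = rk (K e') (fun x => x) e' := by rw [h1]
    rw [h4]
    exact h2
  have hsur : ∀ e y, y < (K e).card → ∃ e', e' ∈ K e ∧ idx e' = y := by
    intro e y hy
    have h1 : (K e).image idx = Finset.range (K e).card := by
      refine Finset.eq_of_subset_of_card_le ?_ ?_
      · intro z hz
        obtain ⟨e', he', rfl⟩ := Finset.mem_image.1 hz
        rw [Finset.mem_range, ← hK e e' he']
        exact hlt e'
      · rw [Finset.card_range, Finset.card_image_of_injOn]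
        intro e' he' e'' he'' h
        exact hinj e' e'' ((hK e e' he').trans (hK e e'' he'').symm) h
    have h2 : y ∈ (K e).image idx := by
      rw [h1]
      exact Finset.mem_range.2 hy
    obtain ⟨e', he', h3⟩ := Finset.mem_image.1 h2
    exact ⟨e', he', h3⟩
  choose! pick hpick using hsur
  have hdm : ∀ e, idx e / M * M ≤ idx e := fun e => Nat.div_mul_le_self _ _
  have hdiv : ∀ a y : ℕ, y < M → (a * M + y) / M = a := by
    intro a y hy
    rw [Nat.mul_comm, Nat.mul_add_div hM, Nat.div_eq_of_lt hy, Nat.add_zero]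
  have hmod : ∀ a y : ℕ, y < M → (a * M + y) % M = y := by
    intro a y hy
    rw [Nat.mul_comm, Nat.mul_add_mod, Nat.mod_eq_of_lt hy]
  -- the representative
  have hrep : ∀ e, pick e (idx e / M * M) ∈ K e ∧ idx (pick e (idx e / M * M)) = idx e / M * M :=
    fun e => hpick e _ (lt_of_le_of_lt (hdm e) (hlt e))
  have hrep2 : ∀ e, idx (pick e (idx e / M * M)) / M = idx e / M := by
    intro e
    rw [(hrep e).2, Nat.mul_div_cancel _ hM]
  have hsame : ∀ e e', e' ∈ K e → idx e' / M = idx e / M →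
      pick e' (idx e' / M * M) = pick e (idx e / M * M) := by
    intro e e' h1 h2
    refine hinj _ _ ?_ ?_
    · rw [hK _ _ (hrep e').1, hK _ _ (hrep e).1, hK _ _ h1]
    · rw [(hrep e').2, (hrep e).2, h2]
  refine ⟨fun e => (idx e / M + 1) * M ≤ (K e).card, fun e => pick e (idx e / M * M),
    fun e => idx e % M, ?_, ?_, ?_, ?_, fun e => Nat.mod_lt _ hM⟩
  · intro e he
    refine ⟨?_, ?_, hKv e _ (hrep e).1, Nat.mod_lt _ hM⟩
    · show (idx (pick e (idx e / M * M)) / M + 1) * M ≤ (K (pick e (idx e / M * M))).card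
      rw [hrep2, hK _ _ (hrep e).1]
      exact he
    · exact hsame e _ (hrep e).1 (hrep2 e)
  · intro e e' he he' h1 h2
    have h3 : K e = K e' := by
      rw [← hK _ _ (hrep e).1, ← hK _ _ (hrep e').1]
      exact congrArg K h1
    refine hinj e e' h3 ?_
    have h4 : idx e / M * M = idx e' / M * M := by
      rw [← (hrep e).2, ← (hrep e').2]
      exact congrArg idx h1
    have h5 := Nat.div_add_mod (idx e) M
    have h6 := Nat.div_add_mod (idx e') M
    have h7 : idx e % M = idx e' % M := h2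
    rw [← h5, ← h6, Nat.mul_comm, h4, h7, Nat.mul_comm]
  · intro e he y hy
    have h1 : idx e / M * M + y < (K e).card := by
      have h2 : (idx e / M + 1) * M ≤ (K e).card := he
      rw [Nat.add_mul, Nat.one_mul] at h2
      omega
    obtain ⟨h2, h3⟩ := hpick e _ h1
    have h4 : idx (pick e (idx e / M * M + y)) / M = idx e / M := by
      rw [h3, hdiv _ _ hy]
    refine ⟨pick e (idx e / M * M + y), ?_, hsame e _ h2 h4, ?_⟩
    · show (idx (pick e (idx e / M * M + y)) / M + 1) * M ≤ (K (pick e (idx e / M * M + y))).card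
      rw [h4, hK _ _ h2]
      exact he
    · show idx (pick e (idx e / M * M + y)) % M = y
      rw [h3, hmod _ _ hy]
  · intro e e' he he' hee h1
    have h2 : e' ∈ K e := (hmem e e').2 hee
    have h3 := hK e e' h2
    have h4 : (K e).card < (idx e / M + 1) * M := not_le.1 he
    have h5 : (K e).card < (idx e' / M + 1) * M := by
      have := not_le.1 he'
      rwa [h3] at this
    have h6 := hlt e
    have h7 : idx e' < (K e).card := by
      rw [← h3]
      exact hlt e'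
    have h8 : idx e / M = (K e).card / M :=
      le_antisymm (Nat.div_le_div_right h6.le) (Nat.lt_succ_iff.1 ((Nat.div_lt_iff_lt_mul hM).2 h4))
    have h9 : idx e' / M = (K e).card / M :=
      le_antisymm (Nat.div_le_div_right h7.le) (Nat.lt_succ_iff.1 ((Nat.div_lt_iff_lt_mul hM).2 h5))
    refine hinj e e' h3.symm ?_
    have h10 := Nat.div_add_mod (idx e) M
    have h11 := Nat.div_add_mod (idx e') M
    have h12 : idx e % M = idx e' % M := h1
    rw [← h10, ← h11, h8, h9, h12]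

theorem mulLe_triv (s t : Fin m → Fin n) : MulLe s t m := fun _ _ =>
  (Finset.card_le_univ _).trans (le_of_eq (Fintype.card_fin m))

theorem fold_bound (C a : ℝ) (ε : ℝ)
    (hG : ∀ μ : ℕ, 0 < μ → ∀ (n m : ℕ) (s t : Fin m → Fin n), (∀ e, s e ≠ t e) →
      MulLe s t μ → ∀ D : ℕ, (∀ v, (Av s t v).card ≤ D) →
      ∃ c : Fin m → ℕ, Col s t c ∧ ((pals s t c).card : ℝ) ≤
        (2 : ℝ) ^ ((2 / 3 + ε) * (D : ℝ) + C * LL μ))
    (hg : ∀ (n m : ℕ) (s t : Fin m → Fin n), (∀ e, s e ≠ t e) →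
      ∀ D : ℕ, (∀ v, (Av s t v).card ≤ D) →
      ∃ c : Fin m → ℕ, Col s t c ∧ ((pals s t c).card : ℝ) ≤ (2 : ℝ) ^ (2 * (D : ℝ) + a))
    (M : ℕ) (hM : 0 < M) (s t : Fin m → Fin n) (hst : ∀ e, s e ≠ t e) (D : ℕ)
    (hD : ∀ v, (Av s t v).card ≤ D) :
    ∃ c : Fin m → ℕ, Col s t c ∧ ((pals s t c).card : ℝ) ≤
      (2 : ℝ) ^ ((2 * ((D / M : ℕ) : ℝ) + a) + ((2 / 3 + ε) * (D : ℝ) + C * LL M)) := by
  classical
  obtain ⟨full, rep, pos, hA, hB, hC, hR, hpos⟩ := bundles M hM s t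
  choose! g hg1 hg2 hg3 using hC
  -- the graph of the representatives
  obtain ⟨m', i', hi', hp', hst', -, hdeg'⟩ := sub s t hst m (mulLe_triv s t)
    (fun e => full e ∧ rep e = e)
  obtain ⟨m1, i1, hi1, hp1, hst1, -, -⟩ := sub s t hst m (mulLe_triv s t) full
  obtain ⟨m2, i2, hi2, hp2, hst2, -, hdeg2⟩ := sub s t hst m (mulLe_triv s t) (fun e => ¬ full e)
  have hdegr : ∀ v, (Av (fun i => s (i' i)) (fun i => t (i' i)) v).card ≤ D / M := by
    intro v
    rw [hdeg' v, Nat.le_div_iff_mul_le hM, ← Finset.card_range M, ← Finset.card_product]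
    refine le_trans (Finset.card_le_card_of_injOn (fun x => g x.1 x.2) ?_ ?_) (hD v)
    · intro x hx
      obtain ⟨h1, h2⟩ := Finset.mem_product.1 (Finset.mem_coe.1 hx)
      obtain ⟨h3, h4, h5⟩ := Finset.mem_filter.1 h1
      have h6 := Finset.mem_range.1 h2
      refine Finset.mem_coe.2 (mem_Av.2 ?_)
      have h7 := (hA _ (hg1 x.1 h4 x.2 h6)).2.2.1 v
      rw [hg2 x.1 h4 x.2 h6, h5] at h7
      exact h7.1 (mem_Av.1 h3)
    · intro x hx x' hx' hxx
      obtain ⟨h1, h2⟩ := Finset.mem_product.1 (Finset.mem_coe.1 hx)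
      obtain ⟨-, h4, h5⟩ := Finset.mem_filter.1 h1
      have h6 := Finset.mem_range.1 h2
      obtain ⟨k1, k2⟩ := Finset.mem_product.1 (Finset.mem_coe.1 hx')
      obtain ⟨-, k4, k5⟩ := Finset.mem_filter.1 k1
      have k6 := Finset.mem_range.1 k2
      have hxx' : g x.1 x.2 = g x'.1 x'.2 := hxx
      have e1 := hg2 x.1 h4 x.2 h6
      have e2 := hg2 x'.1 k4 x'.2 k6
      have e3 := hg3 x.1 h4 x.2 h6
      have e4 := hg3 x'.1 k4 x'.2 k6
      rw [hxx'] at e1 e3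
      refine Prod.ext ?_ ?_
      · rw [← h5, ← e1, e2, k5]
      · rw [← e3, e4]
  obtain ⟨c', hc', hcc'⟩ := hg n m' (fun i => s (i' i)) (fun i => t (i' i)) hst' (D / M) hdegr
  have hmul2 : MulLe (fun i => s (i2 i)) (fun i => t (i2 i)) M := by
    intro u v
    rw [← Finset.card_range M]
    refine Finset.card_le_card_of_injOn (fun i => pos (i2 i)) ?_ ?_
    · intro i _
      exact Finset.mem_coe.2 (Finset.mem_range.2 (hpos _))
    · intro i hi j hj hij
      have h1 := (Finset.mem_filter.1 (Finset.mem_coe.1 hi)).2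
      have h2 := (Finset.mem_filter.1 (Finset.mem_coe.1 hj)).2
      refine hi2 (hR _ _ ((hp2 _).1 ⟨i, rfl⟩) ((hp2 _).1 ⟨j, rfl⟩) ?_ hij)
      rcases h1 with ⟨a1, a2⟩ | ⟨a1, a2⟩ <;> rcases h2 with ⟨b1, b2⟩ | ⟨b1, b2⟩
      · exact Or.inl ⟨b1.trans a1.symm, b2.trans a2.symm⟩
      · exact Or.inr ⟨b1.trans a2.symm, b2.trans a1.symm⟩
      · exact Or.inr ⟨b1.trans a2.symm, b2.trans a1.symm⟩
      · exact Or.inl ⟨b1.trans a1.symm, b2.trans a2.symm⟩
  obtain ⟨c2, hc2, hcc2⟩ := hG M hM n m2 (fun i => s (i2 i)) (fun i => t (i2 i)) hst2 hmul2 D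
    (fun v => by
      rw [hdeg2 v]
      exact (Finset.card_le_card (Finset.filter_subset _ _)).trans (hD v))
  -- the colouring of the full bundles
  have hrepj : ∀ e, full e → ∃ j, i' j = rep e := fun e he =>
    (hp' (rep e)).2 ⟨(hA e he).1, (hA e he).2.1⟩
  have hfi : ∀ i, full (i1 i) := fun i => (hp1 _).1 ⟨i, rfl⟩
  choose j hj using fun i => hrepj (i1 i) (hfi i)
  have hdiv : ∀ x y : ℕ, y < M → (x * M + y) / M = x := by
    intro x y hy
    rw [Nat.mul_comm, Nat.mul_add_div hM, Nat.div_eq_of_lt hy, Nat.add_zero]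
  have hmod : ∀ x y : ℕ, y < M → (x * M + y) % M = y := by
    intro x y hy
    rw [Nat.mul_comm, Nat.mul_add_mod, Nat.mod_eq_of_lt hy]
  have hat : ∀ i v, (s (i' (j i)) = v ∨ t (i' (j i)) = v) ↔ (s (i1 i) = v ∨ t (i1 i) = v) := by
    intro i v
    rw [hj i]
    exact (hA _ (hfi i)).2.2.1 v
  have hc1 : Col (fun i => s (i1 i)) (fun i => t (i1 i)) (fun i => c' (j i) * M + pos (i1 i)) := by
    intro x y hxy hsh h
    have h' : c' (j x) * M + pos (i1 x) = c' (j y) * M + pos (i1 y) := h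
    have e1 : c' (j x) = c' (j y) := by
      rw [← hdiv (c' (j x)) _ (hpos (i1 x)), h', hdiv _ _ (hpos _)]
    have e2 : pos (i1 x) = pos (i1 y) := by
      rw [← hmod (c' (j x)) _ (hpos (i1 x)), h', hmod _ _ (hpos _)]
    by_cases hjj : j x = j y
    · refine hxy (hi1 (hB _ _ (hfi x) (hfi y) ?_ e2))
      rw [← hj x, ← hj y, hjj]
    · obtain ⟨v, hv, hv'⟩ : ∃ v, (s (i1 x) = v ∨ t (i1 x) = v) ∧ (s (i1 y) = v ∨ t (i1 y) = v) := by
        rcases hsh with h3 | h3 | h3 | h3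
        · exact ⟨s (i1 x), Or.inl rfl, Or.inl h3.symm⟩
        · exact ⟨s (i1 x), Or.inl rfl, Or.inr h3.symm⟩
        · exact ⟨t (i1 x), Or.inr rfl, Or.inl h3.symm⟩
        · exact ⟨t (i1 x), Or.inr rfl, Or.inr h3.symm⟩
      refine hc' (j x) (j y) hjj ?_ e1
      rcases (hat x v).2 hv with k1 | k1 <;> rcases (hat y v).2 hv' with k2 | k2
      · exact Or.inl (k1.trans k2.symm)
      · exact Or.inr (Or.inl (k1.trans k2.symm))
      · exact Or.inr (Or.inr (Or.inl (k1.trans k2.symm)))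
      · exact Or.inr (Or.inr (Or.inr (k1.trans k2.symm)))
  have hp1c : (pals (fun i => s (i1 i)) (fun i => t (i1 i)) (fun i => c' (j i) * M + pos (i1 i))).card ≤
      (pals (fun i => s (i' i)) (fun i => t (i' i)) c').card := by
    let Ψ : Finset ℕ → Finset ℕ := fun P => (P ×ˢ Finset.range M).image fun x => x.1 * M + x.2
    refine (Finset.card_le_card (?_ : _ ⊆ (pals (fun i => s (i' i)) (fun i => t (i' i)) c').image Ψ)).trans
      Finset.card_image_le
    intro P hP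
    obtain ⟨v, -, rfl⟩ := Finset.mem_image.1 hP
    refine Finset.mem_image.2 ⟨(Av (fun i => s (i' i)) (fun i => t (i' i)) v).image c',
      Finset.mem_image.2 ⟨v, Finset.mem_univ _, rfl⟩, ?_⟩
    ext x
    constructor
    · intro hx
      obtain ⟨z, hz, rfl⟩ := Finset.mem_image.1 hx
      obtain ⟨hz1, hz2⟩ := Finset.mem_product.1 hz
      obtain ⟨k, hk, hk'⟩ := Finset.mem_image.1 hz1
      have hy := Finset.mem_range.1 hz2
      obtain ⟨f1, f2⟩ := (hp' (i' k)).1 ⟨k, rfl⟩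
      obtain ⟨i, hi⟩ := (hp1 (g (i' k) z.2)).2 (hg1 _ f1 _ hy)
      have q1 : rep (i1 i) = i' k := by
        rw [hi, hg2 _ f1 _ hy, f2]
      have q2 : pos (i1 i) = z.2 := by
        rw [hi, hg3 _ f1 _ hy]
      have q3 : j i = k := hi' ((hj i).trans q1)
      refine Finset.mem_image.2 ⟨i, mem_Av.2 ((hat i v).1 ?_), ?_⟩
      · rw [q3]
        exact mem_Av.1 ((mem_sub s t i' v k).1 hk)
      · show c' (j i) * M + pos (i1 i) = z.1 * M + z.2
        rw [q3, q2, hk']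
    · intro hx
      obtain ⟨i, hi, rfl⟩ := Finset.mem_image.1 hx
      refine Finset.mem_image.2 ⟨(c' (j i), pos (i1 i)), Finset.mem_product.2
        ⟨Finset.mem_image.2 ⟨j i, (mem_sub s t i' v (j i)).2 (mem_Av.2 ((hat i v).2
          (mem_Av.1 ((mem_sub s t i1 v i).1 hi)))), rfl⟩,
          Finset.mem_range.2 (hpos _)⟩, rfl⟩
  obtain ⟨c, hc, hcc⟩ := glue2 s t full i1 i2 hi1 hi2 hp1 hp2 (fun i => c' (j i) * M + pos (i1 i)) c2
    hc1 hc2
  refine ⟨c, hc, ?_⟩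
  rw [Real.rpow_add (by norm_num)]
  have e1 : ((pals s t c).card : ℝ) ≤
      ((pals (fun i => s (i' i)) (fun i => t (i' i)) c').card : ℝ) *
        ((pals (fun i => s (i2 i)) (fun i => t (i2 i)) c2).card : ℝ) := by
    exact_mod_cast hcc.trans (Nat.mul_le_mul_right _ hp1c)
  exact e1.trans (mul_le_mul hcc' hcc2 (Nat.cast_nonneg _) (by positivity))

/-- the error term -/
theorem err (C ε : ℝ) (hC : 0 ≤ C) (hε : 0 < ε) : ∃ B : ℝ, ∀ D : ℕ,
    2 * ((D / (Nat.sqrt D + 1) : ℕ) : ℝ) + C * LL (Nat.sqrt D + 1) ≤ ε / 2 * (D : ℝ) + B := by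
  obtain ⟨b, hb⟩ : ∃ b : ℝ, b = 2 + 2 * C + ε := ⟨_, rfl⟩
  have hb0 : 0 < b := by
    rw [hb]
    positivity
  refine ⟨b * (2 * b / ε) ^ 3, fun D => ?_⟩
  obtain ⟨y, hy⟩ : ∃ y : ℝ, y = Real.sqrt ((Nat.sqrt D + 1 : ℕ) : ℝ) := ⟨_, rfl⟩
  have hMpos : (1 : ℝ) ≤ ((Nat.sqrt D + 1 : ℕ) : ℝ) := by
    push_cast
    have : (0 : ℝ) ≤ (Nat.sqrt D : ℝ) := Nat.cast_nonneg _
    linarith
  have hy2 : y ^ 2 = ((Nat.sqrt D + 1 : ℕ) : ℝ) := by
    rw [hy]
    exact Real.sq_sqrt (by linarith)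
  have hy0 : 0 ≤ y := by
    rw [hy]
    exact Real.sqrt_nonneg _
  have hy1 : 1 ≤ y := by
    by_contra h
    push Not at h
    have : y ^ 2 < 1 := by nlinarith
    linarith
  -- the quotient
  have h1 : ((D / (Nat.sqrt D + 1) : ℕ) : ℝ) ≤ y ^ 2 := by
    rw [hy2]
    have h2 : D / (Nat.sqrt D + 1) < Nat.sqrt D + 1 :=
      (Nat.div_lt_iff_lt_mul (Nat.succ_pos _)).2 (Nat.lt_succ_sqrt D)
    exact_mod_cast h2.le
  have h2 : LL (Nat.sqrt D + 1) ≤ 2 * y ^ 3 := by
    unfold LL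
    rw [← hy2, Real.log_pow]
    have h3 := Real.log_le_sub_one_of_pos (show 0 < y by linarith)
    have h4 : 1 + ((2 : ℕ) : ℝ) * Real.log y ≤ 2 * y := by
      push_cast
      linarith
    calc y ^ 2 * (1 + ((2 : ℕ) : ℝ) * Real.log y) ≤ y ^ 2 * (2 * y) :=
          mul_le_mul_of_nonneg_left h4 (by positivity)
      _ = 2 * y ^ 3 := by ring
  have h3 : (y ^ 2 - 1) ^ 2 ≤ (D : ℝ) := by
    rw [hy2]
    push_cast
    have h4 : Nat.sqrt D * Nat.sqrt D ≤ D := Nat.sqrt_le D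
    have h5 : ((Nat.sqrt D : ℕ) : ℝ) * ((Nat.sqrt D : ℕ) : ℝ) ≤ (D : ℝ) := by exact_mod_cast h4
    nlinarith
  have h4 : y ^ 2 ≤ y ^ 3 := by
    nlinarith [sq_nonneg y]
  have h5 : b * y ^ 3 ≤ ε / 2 * y ^ 4 + b * (2 * b / ε) ^ 3 := by
    by_cases h6 : 2 * b / ε ≤ y
    · rw [div_le_iff₀ hε] at h6
      have h7 : b * y ^ 3 ≤ (y * ε / 2) * y ^ 3 :=
        mul_le_mul_of_nonneg_right (by linarith) (by positivity)
      have h8 : (y * ε / 2) * y ^ 3 = ε / 2 * y ^ 4 := by ring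
      have h9 : 0 ≤ b * (2 * b / ε) ^ 3 := by positivity
      linarith
    · push Not at h6
      have h7 : y ^ 3 ≤ (2 * b / ε) ^ 3 := pow_le_pow_left₀ hy0 h6.le 3
      have h8 := mul_le_mul_of_nonneg_left h7 hb0.le
      have h9 : 0 ≤ ε / 2 * y ^ 4 := by positivity
      linarith
  have h6 : C * LL (Nat.sqrt D + 1) ≤ C * (2 * y ^ 3) := mul_le_mul_of_nonneg_left h2 hC
  have h7 : ε / 2 * (y ^ 2 - 1) ^ 2 ≤ ε / 2 * (D : ℝ) := mul_le_mul_of_nonneg_left h3 (by positivity)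
  have h8 : ε * y ^ 2 ≤ ε * y ^ 3 := mul_le_mul_of_nonneg_left h4 hε.le
  have h9 : ε / 2 * (y ^ 2 - 1) ^ 2 = ε / 2 * y ^ 4 - ε * y ^ 2 + ε / 2 := by ring
  rw [hb] at h5
  rw [hb]
  linarith

theorem final (ε : ℝ) (hε : 0 < ε) : ∃ C : ℝ, ∀ (n m : ℕ) (s t : Fin m → Fin n),
    (∀ e, s e ≠ t e) → ∀ D : ℕ, (∀ v, (Av s t v).card ≤ D) →
      ∃ c : Fin m → ℕ, Col s t c ∧ ((pals s t c).card : ℝ) ≤ C * (2 : ℝ) ^ ((2 / 3 + ε) * (D : ℝ)) := by
  obtain ⟨C, hC0, hC⟩ := good_final (ε / 2) (by positivity)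
  obtain ⟨a, ha0, hg⟩ := gen2
  obtain ⟨B, hB⟩ := err C ε hC0 hε
  refine ⟨(2 : ℝ) ^ (B + a), fun n m s t hst D hD => ?_⟩
  obtain ⟨c, hc, hcc⟩ := fold_bound C a (ε / 2) hC hg (Nat.sqrt D + 1) (Nat.succ_pos _) s t hst D hD
  refine ⟨c, hc, hcc.trans ?_⟩
  rw [← Real.rpow_add (by norm_num)]
  refine Real.rpow_le_rpow_of_exponent_le (by norm_num) ?_
  have := hB D
  linarith

end Pool.Agent.H249.Pal.Rnd
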