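import Pool.Agent.H249.Pal.Split
import Pool.Graph.R_pool_sql_team_seeded_3997aac3.Q6.CI.Vizing

/-!
# Few palettes for simple graphs
-/

set_option autoImplicit false

open Finset

namespace Pool.Agent.H249.Pal

variable {n m : ℕ}

/-- balanced orientations -/
theorem orient (s t : Fin m → Fin n) : ∃ s' t' : Fin m → Fin n,
    (∀ e, (s' e = s e ∧ t' e = t e) ∨ (s' e = t e ∧ t' e = s e)) ∧
    ∀ v, (Finset.univ.filter fun e => s' e = v).card ≤ (Finset.univ.filter fun e => t' e = v).card + 1 ∧
      (Finset.univ.filter fun e => t' e = v).card ≤ (Finset.univ.filter fun e => s' e = v).card + 1 := by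
  obtain ⟨x, hx, hx'⟩ := bal _ (Finset.univ : Finset (Fin m)) rfl s t
  refine ⟨fun e => if x e = 1 then s e else t e, fun e => if x e = 1 then t e else s e, fun e => ?_,
    fun v => ?_⟩
  · by_cases h : x e = 1
    · exact Or.inl ⟨if_pos h, if_pos h⟩
    · exact Or.inr ⟨if_neg h, if_neg h⟩
  · have h1 := hx' v
    have h2 : ∑ i, x i * ((if s i = v then 1 else 0) - (if t i = v then 1 else 0)) =
        ((Finset.univ.filter fun e => (if x e = 1 then s e else t e) = v).card : ℤ) -
          ((Finset.univ.filter fun e => (if x e = 1 then t e else s e) = v).card : ℤ) := by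
      rw [Finset.card_filter, Finset.card_filter]
      push_cast
      rw [← Finset.sum_sub_distrib]
      refine Finset.sum_congr rfl fun i _ => ?_
      rcases hx i with h | h
      · rw [h, if_pos rfl, if_pos rfl, one_mul]
      · have h0 : ¬ ((-1 : ℤ) = 1) := by norm_num
        rw [h, if_neg h0, if_neg h0]
        ring
    rw [h2, abs_le] at h1
    constructor
    · show (Finset.univ.filter fun e => (if x e = 1 then s e else t e) = v).card ≤
        (Finset.univ.filter fun e => (if x e = 1 then t e else s e) = v).card + 1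
      omega
    · show (Finset.univ.filter fun e => (if x e = 1 then t e else s e) = v).card ≤
        (Finset.univ.filter fun e => (if x e = 1 then s e else t e) = v).card + 1
      omega

/-- sets of colours with a prescribed number of elements -/
def Win (r x : ℕ) : Finset (Finset ℕ) :=
  (Finset.range (2 * r + 1)).powerset.filter fun P => x ≤ P.card ∧ P.card ≤ x + 2

theorem card_Win (r x : ℕ) : (Win r x).card ≤ 3 * (2 * r + 1).choose r := by
  have h1 : Win r x ⊆ (Finset.powersetCard x (Finset.range (2 * r + 1)) ∪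
      Finset.powersetCard (x + 1) (Finset.range (2 * r + 1))) ∪
      Finset.powersetCard (x + 2) (Finset.range (2 * r + 1)) := by
    intro P hP
    obtain ⟨h2, h3, h4⟩ := Finset.mem_filter.1 hP
    rw [Finset.mem_powerset] at h2
    rw [Finset.mem_union, Finset.mem_union, Finset.mem_powersetCard, Finset.mem_powersetCard,
      Finset.mem_powersetCard]
    rcases (by omega : P.card = x ∨ P.card = x + 1 ∨ P.card = x + 2) with h | h | h
    · exact Or.inl (Or.inl ⟨h2, h⟩)
    · exact Or.inl (Or.inr ⟨h2, h⟩)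
    · exact Or.inr ⟨h2, h⟩
  have h2 : ∀ y, (Finset.powersetCard y (Finset.range (2 * r + 1))).card ≤ (2 * r + 1).choose r := by
    intro y
    rw [Finset.card_powersetCard, Finset.card_range]
    have h3 := Nat.choose_le_middle y (2 * r + 1)
    rwa [show (2 * r + 1) / 2 = r by omega] at h3
  refine (Finset.card_le_card h1).trans ((Finset.card_union_le _ _).trans ?_)
  have h3 := Finset.card_union_le (Finset.powersetCard x (Finset.range (2 * r + 1)))
    (Finset.powersetCard (x + 1) (Finset.range (2 * r + 1)))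
  have h4 := h2 x
  have h5 := h2 (x + 1)
  have h6 := h2 (x + 2)
  omega

/-- the graph of the class `i` -/
def clsG {k : ℕ} (s t : Fin m → Fin n) (f : Fin m → Fin k) (i : Fin k) : SimpleGraph (Fin n) where
  Adj := fun u v => u ≠ v ∧ ∃ e, f e = i ∧ ((s e = u ∧ t e = v) ∨ (s e = v ∧ t e = u))
  symm := ⟨fun _ _ h => ⟨h.1.symm, by
    obtain ⟨e, he, h' | h'⟩ := h.2
    · exact ⟨e, he, Or.inr h'⟩
    · exact ⟨e, he, Or.inl h'⟩⟩⟩
  loopless := ⟨fun _ h => h.1 rfl⟩

/-- The general bound for simple graphs. -/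
theorem few_simple (r k : ℕ) (hk : 0 < k) (s t : Fin m → Fin n) (hst : ∀ e, s e ≠ t e)
    (hsim : ∀ e e', e ≠ e' → ¬ ((s e = s e' ∧ t e = t e') ∨ (s e = t e' ∧ t e = s e')))
    (hdeg : ∀ v, (Finset.univ.filter fun e => s e = v ∨ t e = v).card ≤ 2 * (r * k)) :
    ∃ c : Fin m → ℕ,
      (∀ i j : Fin m, i ≠ j → (s i = s j ∨ s i = t j ∨ t i = s j ∨ t i = t j) → c i ≠ c j) ∧
      ((Finset.univ : Finset (Fin n)).image fun v =>
        (Finset.univ.filter fun i : Fin m => s i = v ∨ t i = v).image c).card ≤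
          (2 * r + 1) * (3 * (2 * r + 1).choose r) ^ k := by
  classical
  obtain ⟨s', t', hor, hbal⟩ := orient s t
  obtain ⟨f, hf⟩ := split hk s' t'
  have hne : ∀ e, s' e ≠ t' e := by
    intro e
    rcases hor e with h | h <;> rw [h.1, h.2]
    · exact hst e
    · exact (hst e).symm
  have hor' : ∀ e v, (s e = v ∨ t e = v) ↔ (s' e = v ∨ t' e = v) := by
    intro e v
    rcases hor e with h | h <;> rw [h.1, h.2]
    exact Or.comm
  -- degrees in the classes
  have hout : ∀ v, (Finset.univ.filter fun e => s' e = v).card + (Finset.univ.filter fun e => t' e = v).card ≤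
      2 * (r * k) := by
    intro v
    rw [← Finset.card_union_of_disjoint]
    · refine (Finset.card_le_card fun e he => ?_).trans (hdeg v)
      rw [Finset.mem_union, Finset.mem_filter, Finset.mem_filter] at he
      refine Finset.mem_filter.2 ⟨Finset.mem_univ _, (hor' e v).2 ?_⟩
      rcases he with h | h
      · exact Or.inl h.2
      · exact Or.inr h.2
    · rw [Finset.disjoint_left]
      intro e he he'
      exact hne e ((Finset.mem_filter.1 he).2.trans (Finset.mem_filter.1 he').2.symm)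
  have hle : ∀ (u : Fin m → Fin n) (v : Fin n), (∀ i j, cn u f i v ≤ cn u f j v + 1) →
      (Finset.univ.filter fun e => u e = v).card ≤ r * k → ∀ i, cn u f i v ≤ r := by
    intro u v h1 h2 i
    by_contra hcon
    have h3 : ∑ _j : Fin k, r < ∑ j, cn u f j v := by
      refine Finset.sum_lt_sum (fun j _ => ?_) ⟨i, Finset.mem_univ _, by omega⟩
      have := h1 i j
      omega
    rw [sum_cn, Finset.sum_const, Finset.card_univ, Fintype.card_fin, smul_eq_mul, mul_comm] at h3
    omega
  have hs : ∀ v i, cn s' f i v ≤ r := fun v => hle s' v (fun i j => (hf i j v).1) (by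
    have h1 := hout v
    have h2 := (hbal v).1
    omega)
  have ht : ∀ v i, cn t' f i v ≤ r := fun v => hle t' v (fun i j => (hf i j v).2) (by
    have h1 := hout v
    have h2 := (hbal v).2
    omega)
  -- the edges of a class at a vertex
  obtain ⟨A, hA⟩ : ∃ A : Fin k → Fin n → Finset (Fin m), ∀ i v e, e ∈ A i v ↔ f e = i ∧ (s e = v ∨ t e = v) :=
    ⟨fun i v => Finset.univ.filter fun e => f e = i ∧ (s e = v ∨ t e = v), fun i v e => by
      rw [Finset.mem_filter]
      exact ⟨fun h => h.2, fun h => ⟨Finset.mem_univ _, h⟩⟩⟩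
  have hAc : ∀ i v, (A i v).card = cn s' f i v + cn t' f i v := by
    intro i v
    unfold cn
    rw [← Finset.card_union_of_disjoint]
    · congr 1
      ext e
      rw [hA, hor', Finset.mem_union, Finset.mem_filter, Finset.mem_filter]
      constructor
      · rintro ⟨h1, h2 | h2⟩
        · exact Or.inl ⟨Finset.mem_univ _, h1, h2⟩
        · exact Or.inr ⟨Finset.mem_univ _, h1, h2⟩
      · rintro (⟨-, h1, h2⟩ | ⟨-, h1, h2⟩)
        · exact ⟨h1, Or.inl h2⟩
        · exact ⟨h1, Or.inr h2⟩
    · rw [Finset.disjoint_left]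
      intro e he he'
      exact hne e ((Finset.mem_filter.1 he).2.2.trans (Finset.mem_filter.1 he').2.2.symm)
  have hwin : ∀ v, ∃ x, x < 2 * r + 1 ∧ ∀ i, x ≤ (A i v).card ∧ (A i v).card ≤ x + 2 := by
    intro v
    obtain ⟨i0, -, h0⟩ := Finset.exists_min_image (Finset.univ : Finset (Fin k)) (fun i => cn s' f i v)
      ⟨⟨0, hk⟩, Finset.mem_univ _⟩
    obtain ⟨i1, -, h1⟩ := Finset.exists_min_image (Finset.univ : Finset (Fin k)) (fun i => cn t' f i v)
      ⟨⟨0, hk⟩, Finset.mem_univ _⟩
    refine ⟨cn s' f i0 v + cn t' f i1 v, ?_, fun i => ?_⟩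
    · have h2 := hs v i0
      have h3 := ht v i1
      omega
    · rw [hAc]
      have h2 := h0 i (Finset.mem_univ _)
      have h3 := h1 i (Finset.mem_univ _)
      have h4 := (hf i i0 v).1
      have h5 := (hf i i1 v).2
      constructor <;> omega
  -- the graphs of the classes
  obtain ⟨G, hGa⟩ : ∃ G : Fin k → SimpleGraph (Fin n), ∀ i u v, (G i).Adj u v ↔
      u ≠ v ∧ ∃ e, f e = i ∧ ((s e = u ∧ t e = v) ∨ (s e = v ∧ t e = u)) :=
    ⟨clsG s t f, fun _ _ _ => Iff.rfl⟩
  let oth : Fin n → Fin m → Fin n := fun v e => if s e = v then t e else s e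
  have hoth1 : ∀ v e, s e = v → oth v e = t e := fun v e h => if_pos h
  have hoth2 : ∀ v e, t e = v → oth v e = s e := fun v e h => if_neg fun h' => hst e (h'.trans h.symm)
  have hG : ∀ i v, Pool.Q6.CI.dg (G i) v ≤ 2 * r := by
    intro i v
    have h2 : Pool.Q6.CI.dg (G i) v ≤ (A i v).card := by
      unfold Pool.Q6.CI.dg
      refine Finset.card_le_card_of_surjOn (oth v) ?_
      intro w hw
      have hw' : (G i).Adj v w := (Finset.mem_filter.1 (Finset.mem_coe.1 hw)).2
      obtain ⟨h2, e, he, h3 | h3⟩ := (hGa i v w).1 hw'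
      · exact ⟨e, Finset.mem_coe.2 ((hA i v e).2 ⟨he, Or.inl h3.1⟩), (hoth1 v e h3.1).trans h3.2⟩
      · exact ⟨e, Finset.mem_coe.2 ((hA i v e).2 ⟨he, Or.inr h3.2⟩), (hoth2 v e h3.2).trans h3.1⟩
    have h3 := hAc i v
    have h4 := hs v i
    have h5 := ht v i
    omega
  have hEC : ∀ i, ∃ c : Fin n → Fin n → ℕ, Pool.Q11.TwoEnd.PC (G i) (2 * r + 1) c :=
    fun i => Pool.Q6.CI.vizing (hG i)
  choose c hc using hEC
  -- the colours of the edges at a vertex
  have hcv : ∀ e v, (s e = v ∨ t e = v) → (G (f e)).Adj v (oth v e) ∧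
      c (f e) v (oth v e) = c (f e) (s e) (t e) := by
    intro e v h
    rcases h with h | h
    · rw [hoth1 v e h, ← h]
      exact ⟨(hGa _ _ _).2 ⟨hst e, e, rfl, Or.inl ⟨rfl, rfl⟩⟩, rfl⟩
    · rw [hoth2 v e h, ← h]
      have h1 : (G (f e)).Adj (t e) (s e) := (hGa _ _ _).2 ⟨(hst e).symm, e, rfl, Or.inr ⟨rfl, rfl⟩⟩
      exact ⟨h1, (hc (f e)).symm _ _ h1⟩
  have hpar : ∀ e e' v, (s e = v ∨ t e = v) → (s e' = v ∨ t e' = v) → oth v e = oth v e' → e = e' := by
    intro e e' v h h' ho
    by_contra hee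
    apply hsim e e' hee
    rcases h with h | h <;> rcases h' with h' | h'
    · rw [hoth1 v e h, hoth1 v e' h'] at ho
      exact Or.inl ⟨h.trans h'.symm, ho⟩
    · rw [hoth1 v e h, hoth2 v e' h'] at ho
      exact Or.inr ⟨h.trans h'.symm, ho⟩
    · rw [hoth2 v e h, hoth1 v e' h'] at ho
      exact Or.inr ⟨ho, h.trans h'.symm⟩
    · rw [hoth2 v e h, hoth2 v e' h'] at ho
      exact Or.inl ⟨ho, h.trans h'.symm⟩
  have hinj : ∀ e e' v, (s e = v ∨ t e = v) → (s e' = v ∨ t e' = v) → f e = f e' →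
      c (f e) (s e) (t e) = c (f e') (s e') (t e') → e = e' := by
    intro e e' v h h' hff hcc
    refine hpar e e' v h h' ?_
    obtain ⟨h1, h2⟩ := hcv e v h
    obtain ⟨h3, h4⟩ := hcv e' v h'
    rw [← hff] at h3 h4 hcc
    exact (hc (f e)).inj v _ _ h1 h3 (by rw [h2, h4, hcc])
  let C : Fin m → ℕ := fun e => c (f e) (s e) (t e) * k + (f e : ℕ)
  have hC : ∀ e e', C e = C e' → f e = f e' ∧ c (f e) (s e) (t e) = c (f e') (s e') (t e') := by
    intro e e' h
    have h1 : (f e : ℕ) < k := (f e).2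
    have h2 : (f e' : ℕ) < k := (f e').2
    have h3 : ∀ x y : ℕ, y < k → (x * k + y) % k = y := by
      intro x y hy
      rw [Nat.mul_comm, Nat.mul_add_mod, Nat.mod_eq_of_lt hy]
    have h4 : ∀ x y : ℕ, y < k → (x * k + y) / k = x := by
      intro x y hy
      rw [Nat.mul_comm, Nat.mul_add_div hk, Nat.div_eq_of_lt hy, Nat.add_zero]
    have h5 : C e % k = (f e : ℕ) := h3 _ _ h1
    have h6 : C e' % k = (f e' : ℕ) := h3 _ _ h2
    have h7 : C e / k = c (f e) (s e) (t e) := h4 _ _ h1
    have h8 : C e' / k = c (f e') (s e') (t e') := h4 _ _ h2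
    refine ⟨Fin.ext ?_, ?_⟩
    · rw [← h5, ← h6, h]
    · rw [← h7, ← h8, h]
  refine ⟨C, ?_, ?_⟩
  · intro e e' hne hee h
    obtain ⟨h1, h2⟩ := hC e e' h
    obtain ⟨v, hv, hv'⟩ : ∃ v, (s e = v ∨ t e = v) ∧ (s e' = v ∨ t e' = v) := by
      rcases hee with h3 | h3 | h3 | h3
      · exact ⟨s e, Or.inl rfl, Or.inl h3.symm⟩
      · exact ⟨s e, Or.inl rfl, Or.inr h3.symm⟩
      · exact ⟨t e, Or.inr rfl, Or.inl h3.symm⟩
      · exact ⟨t e, Or.inr rfl, Or.inr h3.symm⟩
    exact hne (hinj e e' v hv hv' h1 h2)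
  · -- the palettes
    let Q : Fin n → (Fin k → Finset ℕ) := fun v i => (A i v).image fun e => c i (s e) (t e)
    let Φ : (Fin k → Finset ℕ) → Finset ℕ := fun g =>
      Finset.univ.biUnion fun i => (g i).image fun x => x * k + (i : ℕ)
    have hQc : ∀ v i, (Q v i).card = (A i v).card := by
      intro v i
      refine Finset.card_image_of_injOn fun e he e' he' h => ?_
      obtain ⟨h1, h2⟩ := (hA i v e).1 he
      obtain ⟨h3, h4⟩ := (hA i v e').1 he'
      refine hinj e e' v h2 h4 (h1.trans h3.symm) ?_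
      rw [h1, h3]
      exact h
    have hQs : ∀ v i, Q v i ⊆ Finset.range (2 * r + 1) := by
      intro v i y hy
      obtain ⟨e, he, rfl⟩ := Finset.mem_image.1 hy
      obtain ⟨h1, h2⟩ := (hA i v e).1 he
      obtain ⟨h3, h4⟩ := hcv e v h2
      rw [Finset.mem_range]
      show c i (s e) (t e) < 2 * r + 1
      rw [← h1, ← h4]
      exact (hc (f e)).lt _ _ h3
    have hΦ : ∀ v, (Finset.univ.filter fun e : Fin m => s e = v ∨ t e = v).image C = Φ (Q v) := by
      intro v
      ext x
      rw [Finset.mem_image, Finset.mem_biUnion]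
      constructor
      · rintro ⟨e, he, rfl⟩
        refine ⟨f e, Finset.mem_univ _, Finset.mem_image.2 ⟨c (f e) (s e) (t e), ?_, rfl⟩⟩
        exact Finset.mem_image.2 ⟨e, (hA _ _ e).2 ⟨rfl, (Finset.mem_filter.1 he).2⟩, rfl⟩
      · rintro ⟨i, -, hi⟩
        obtain ⟨y, hy, rfl⟩ := Finset.mem_image.1 hi
        obtain ⟨e, he, rfl⟩ := Finset.mem_image.1 hy
        obtain ⟨he1, he2⟩ := (hA i v e).1 he
        refine ⟨e, Finset.mem_filter.2 ⟨Finset.mem_univ _, he2⟩, ?_⟩
        show c (f e) (s e) (t e) * k + (f e : ℕ) = c i (s e) (t e) * k + (i : ℕ)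
        rw [he1]
    have h1 : ((Finset.univ : Finset (Fin n)).image fun v =>
        (Finset.univ.filter fun e : Fin m => s e = v ∨ t e = v).image C) ⊆
        (Finset.range (2 * r + 1)).biUnion fun x =>
          (Fintype.piFinset fun _ : Fin k => Win r x).image Φ := by
      intro x hx
      obtain ⟨v, -, rfl⟩ := Finset.mem_image.1 hx
      obtain ⟨y, hy, hy'⟩ := hwin v
      refine Finset.mem_biUnion.2 ⟨y, Finset.mem_range.2 hy, Finset.mem_image.2 ⟨Q v, ?_, (hΦ v).symm⟩⟩
      rw [Fintype.mem_piFinset]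
      intro i
      refine Finset.mem_filter.2 ⟨Finset.mem_powerset.2 (hQs v i), ?_⟩
      rw [hQc]
      exact hy' i
    refine (Finset.card_le_card h1).trans (Finset.card_biUnion_le.trans ?_)
    have h2 : ∀ x ∈ Finset.range (2 * r + 1),
        ((Fintype.piFinset fun _ : Fin k => Win r x).image Φ).card ≤ (3 * (2 * r + 1).choose r) ^ k := by
      intro x _
      refine Finset.card_image_le.trans ?_
      rw [Fintype.card_piFinset, Finset.prod_const, Finset.card_univ, Fintype.card_fin]
      exact Nat.pow_le_pow_left (card_Win r x) k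
    refine (Finset.sum_le_sum h2).trans ?_
    rw [Finset.sum_const, Finset.card_range, smul_eq_mul]

end Pool.Agent.H249.Pal
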