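import Pool.Agent.H249.Pal.Bip
import Pool.Agent.H249.Pal.Simple

/-!
# Few palettes for all multigraphs

A balanced orientation, an equitable partition of the edges, repeated halving of the classes down to
directed paths and circuits, and three colours for each of these.
-/

set_option autoImplicit false

open Finset

namespace Pool.Agent.H249.Pal

variable {n m : ℕ}

/-- Three colours suffice for a union of directed paths and circuits, and the third one is used only
for edges which have a predecessor and a successor. -/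
theorem three (s t : Fin m → Fin n) (hst : ∀ e, s e ≠ t e) : ∀ E : Finset (Fin m),
    (∀ v, (E.filter fun e => s e = v).card ≤ 1 ∧ (E.filter fun e => t e = v).card ≤ 1) →
    ∃ c : Fin m → ℕ, (∀ e ∈ E, c e < 3) ∧ (∀ e ∈ E, ∀ e' ∈ E, s e = t e' → c e ≠ c e') ∧
      (∀ e ∈ E, (∀ e' ∈ E, t e' ≠ s e) → c e < 2) ∧ (∀ e ∈ E, (∀ e' ∈ E, s e' ≠ t e) → c e < 2) := by
  classical
  intro E
  induction E using Finset.induction_on with
  | empty =>
    intro _
    exact ⟨fun _ => 0, fun _ h => absurd h (Finset.notMem_empty _),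
      fun _ h => absurd h (Finset.notMem_empty _), fun _ h => absurd h (Finset.notMem_empty _),
      fun _ h => absurd h (Finset.notMem_empty _)⟩
  | insert a E ha ih =>
    intro hE
    have hmono : ∀ (p : Fin m → Prop) [DecidablePred p],
        (E.filter p).card ≤ ((insert a E).filter p).card := fun p _ =>
      Finset.card_le_card (Finset.filter_subset_filter _ (Finset.subset_insert a E))
    have hE' : ∀ v, (E.filter fun e => s e = v).card ≤ 1 ∧ (E.filter fun e => t e = v).card ≤ 1 :=
      fun v => ⟨(hmono _).trans (hE v).1, (hmono _).trans (hE v).2⟩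
    obtain ⟨c, hc1, hc2, hc3, hc4⟩ := ih hE'
    have hne : ∀ e ∈ E, e ≠ a := fun e he h => ha (h ▸ he)
    have hsu : ∀ e ∈ insert a E, ∀ e' ∈ insert a E, s e = s e' → e = e' := fun e he e' he' h =>
      Finset.card_le_one.1 (hE (s e')).1 e (Finset.mem_filter.2 ⟨he, h⟩) e'
        (Finset.mem_filter.2 ⟨he', rfl⟩)
    have htu : ∀ e ∈ insert a E, ∀ e' ∈ insert a E, t e = t e' → e = e' := fun e he e' he' h =>
      Finset.card_le_one.1 (hE (t e')).2 e (Finset.mem_filter.2 ⟨he, h⟩) e'
        (Finset.mem_filter.2 ⟨he', rfl⟩)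
    have haI : a ∈ insert a E := Finset.mem_insert_self a E
    have hI : ∀ e ∈ E, e ∈ insert a E := fun e he => Finset.mem_insert_of_mem he
    -- predecessors and successors of `a` have one of the colours 0, 1
    have hP : ∀ b ∈ E, t b = s a → c b < 2 := by
      intro b hb h
      refine hc4 b hb fun e' he' h' => ?_
      exact hne e' he' (hsu e' (hI e' he') a haI (h'.trans h))
    have hS : ∀ d ∈ E, s d = t a → c d < 2 := by
      intro d hd h
      refine hc3 d hd fun e' he' h' => ?_
      exact hne e' he' (htu e' (hI e' he') a haI (h'.trans h))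
    obtain ⟨x, hx, hxP, hxS, hx3, hx4⟩ : ∃ x : ℕ, x < 3 ∧ (∀ b ∈ E, t b = s a → x ≠ c b) ∧
        (∀ d ∈ E, s d = t a → x ≠ c d) ∧ ((∀ b ∈ E, t b ≠ s a) → x < 2) ∧
        ((∀ d ∈ E, s d ≠ t a) → x < 2) := by
      by_cases h1 : ∃ b ∈ E, t b = s a
      · obtain ⟨b, hb, hba⟩ := h1
        by_cases h2 : ∃ d ∈ E, s d = t a
        · obtain ⟨d, hd, hda⟩ := h2
          refine ⟨2, by omega, fun b' hb' h => ?_, fun d' hd' h => ?_, fun h => absurd hba (h b hb),
            fun h => absurd hda (h d hd)⟩
          · have := hP b' hb' h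
            omega
          · have := hS d' hd' h
            omega
        · have h3 := hP b hb hba
          refine ⟨1 - c b, by omega, fun b' hb' h => ?_, fun d' hd' h => absurd ⟨d', hd', h⟩ h2,
            fun _ => by omega, fun _ => by omega⟩
          rw [htu b' (hI b' hb') b (hI b hb) (h.trans hba.symm)]
          omega
      · by_cases h2 : ∃ d ∈ E, s d = t a
        · obtain ⟨d, hd, hda⟩ := h2
          have h3 := hS d hd hda
          refine ⟨1 - c d, by omega, fun b' hb' h => absurd ⟨b', hb', h⟩ h1, fun d' hd' h => ?_,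
            fun _ => by omega, fun _ => by omega⟩
          rw [hsu d' (hI d' hd') d (hI d hd) (h.trans hda.symm)]
          omega
        · exact ⟨0, by omega, fun b' hb' h => absurd ⟨b', hb', h⟩ h1,
            fun d' hd' h => absurd ⟨d', hd', h⟩ h2, fun _ => by omega, fun _ => by omega⟩
    refine ⟨Function.update c a x, ?_, ?_, ?_, ?_⟩
    · intro e he
      rcases Finset.mem_insert.1 he with h | h
      · rw [h, Function.update_self]
        exact hx
      · rw [Function.update_of_ne (hne e h)]
        exact hc1 e h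
    · intro e he e' he' hee
      rcases Finset.mem_insert.1 he with h | h <;> rcases Finset.mem_insert.1 he' with h' | h'
      · rw [h, h'] at hee
        exact absurd hee (hst a)
      · rw [h, Function.update_self, Function.update_of_ne (hne e' h')]
        exact hxP e' h' (by rw [← hee, h])
      · rw [h', Function.update_self, Function.update_of_ne (hne e h)]
        exact (hxS e h (by rw [hee, h'])).symm
      · rw [Function.update_of_ne (hne e h), Function.update_of_ne (hne e' h')]
        exact hc2 e h e' h' hee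
    · intro e he h3
      rcases Finset.mem_insert.1 he with h | h
      · rw [h, Function.update_self]
        exact hx3 fun b hb => by
          rw [← h]
          exact h3 b (hI b hb)
      · rw [Function.update_of_ne (hne e h)]
        exact hc3 e h fun e' he' => h3 e' (hI e' he')
    · intro e he h3
      rcases Finset.mem_insert.1 he with h | h
      · rw [h, Function.update_self]
        exact hx4 fun b hb => by
          rw [← h]
          exact h3 b (hI b hb)
      · rw [Function.update_of_ne (hne e h)]
        exact hc4 e h fun e' he' => h3 e' (hI e' he')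

/-- the palettes of the size `d` which arise by `k` halvings -/
def FamG : ℕ → ℕ → Finset (Finset ℕ)
  | 0, d => if d = 1 then Finset.powersetCard 1 (Finset.range 2) else Finset.powersetCard d (Finset.range 3)
  | k + 1, d =>
    if d % 4 = 0 then (FamG k (d / 2) ×ˢ FamG k (d / 2)).image (glue (3 * 2 ^ k))
    else if d % 4 = 2 then
      (FamG k (d / 2) ×ˢ FamG k (d / 2)).image (glue (3 * 2 ^ k)) ∪
        ((FamG k (d / 2 - 1) ×ˢ FamG k (d / 2 + 1)).image (glue (3 * 2 ^ k)) ∪
          (FamG k (d / 2 + 1) ×ˢ FamG k (d / 2 - 1)).image (glue (3 * 2 ^ k)))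
    else (FamG k (d / 2) ×ˢ FamG k (d / 2 + 1)).image (glue (3 * 2 ^ k)) ∪
      (FamG k (d / 2 + 1) ×ˢ FamG k (d / 2)).image (glue (3 * 2 ^ k))

/-- the bounds of their numbers -/
def NN : ℕ → ℕ → ℕ
  | 0, d => if d = 0 then 1 else if d = 1 then 2 else if d = 2 then 3 else if d = 3 then 1 else 0
  | k + 1, d =>
    if d % 4 = 0 then NN k (d / 2) * NN k (d / 2)
    else if d % 4 = 2 then NN k (d / 2) * NN k (d / 2) + 2 * (NN k (d / 2 - 1) * NN k (d / 2 + 1))
    else 2 * (NN k (d / 2) * NN k (d / 2 + 1))

theorem card_glue {a : ℕ} {A B : Finset (Finset ℕ)} {x y : ℕ} (hA : A.card ≤ x) (hB : B.card ≤ y) :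
    ((A ×ˢ B).image (glue a)).card ≤ x * y := by
  refine Finset.card_image_le.trans ?_
  rw [Finset.card_product]
  exact Nat.mul_le_mul hA hB

theorem card_FamG (k : ℕ) : ∀ d, (FamG k d).card ≤ NN k d := by
  induction k with
  | zero =>
    intro d
    show (if d = 1 then Finset.powersetCard 1 (Finset.range 2)
        else Finset.powersetCard d (Finset.range 3)).card ≤
      if d = 0 then 1 else if d = 1 then 2 else if d = 2 then 3 else if d = 3 then 1 else 0
    rcases (by omega : d = 0 ∨ d = 1 ∨ d = 2 ∨ d = 3 ∨ 3 < d) with h | h | h | h | h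
    · subst h; decide
    · subst h; decide
    · subst h; decide
    · subst h; decide
    · rw [if_neg (by omega : ¬ d = 1), Finset.card_powersetCard, Finset.card_range,
        Nat.choose_eq_zero_of_lt h]
      exact Nat.zero_le _
  | succ k ih =>
    intro d
    unfold FamG NN
    by_cases h0 : d % 4 = 0
    · rw [if_pos h0, if_pos h0]
      exact card_glue (ih _) (ih _)
    · rw [if_neg h0, if_neg h0]
      by_cases h2 : d % 4 = 2
      · rw [if_pos h2, if_pos h2]
        have h3 := card_glue (a := 3 * 2 ^ k) (ih (d / 2)) (ih (d / 2))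
        have h4 := card_glue (a := 3 * 2 ^ k) (ih (d / 2 - 1)) (ih (d / 2 + 1))
        have h5 := card_glue (a := 3 * 2 ^ k) (ih (d / 2 + 1)) (ih (d / 2 - 1))
        rw [mul_comm (NN k (d / 2 + 1))] at h5
        refine (Finset.card_union_le _ _).trans ?_
        refine Nat.add_le_add h3 ((Finset.card_union_le _ _).trans ?_)
        omega
      · rw [if_neg h2, if_neg h2]
        have h4 := card_glue (a := 3 * 2 ^ k) (ih (d / 2)) (ih (d / 2 + 1))
        have h5 := card_glue (a := 3 * 2 ^ k) (ih (d / 2 + 1)) (ih (d / 2))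
        rw [mul_comm (NN k (d / 2 + 1))] at h5
        refine (Finset.card_union_le _ _).trans ?_
        omega

/-- Colouring by halving: at every vertex the colours are different and the palette belongs to
`FamG k`. -/
theorem colourG (s t : Fin m → Fin n) (hst : ∀ e, s e ≠ t e) (k : ℕ) : ∀ E : Finset (Fin m),
    (∀ v, ((E.filter fun e => s e = v).card ≤ 2 ^ k ∧ (E.filter fun e => t e = v).card ≤ 2 ^ k) ∧
      ((E.filter fun e => s e = v).card ≤ (E.filter fun e => t e = v).card + 1 ∧
      (E.filter fun e => t e = v).card ≤ (E.filter fun e => s e = v).card + 1)) →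
    ∃ c : Fin m → ℕ, (∀ e ∈ E, c e < 3 * 2 ^ k) ∧ ∀ v,
      Set.InjOn c (E.filter fun e => s e = v ∨ t e = v : Finset (Fin m)) ∧
        (E.filter fun e => s e = v ∨ t e = v).image c ∈
          FamG k (E.filter fun e => s e = v ∨ t e = v).card := by
  induction k with
  | zero =>
    intro E hE
    obtain ⟨c, hc1, hc2, hc3, hc4⟩ := three s t hst E (fun v => (hE v).1)
    have hinj : ∀ v, Set.InjOn c (E.filter fun e => s e = v ∨ t e = v : Finset (Fin m)) := by
      intro v e he e' he' hee
      obtain ⟨h1, h2⟩ := Finset.mem_filter.1 (Finset.mem_coe.1 he)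
      obtain ⟨h3, h4⟩ := Finset.mem_filter.1 (Finset.mem_coe.1 he')
      rcases h2 with h2 | h2 <;> rcases h4 with h4 | h4
      · exact Finset.card_le_one.1 (hE v).1.1 e (Finset.mem_filter.2 ⟨h1, h2⟩) e'
          (Finset.mem_filter.2 ⟨h3, h4⟩)
      · exact absurd hee (hc2 e h1 e' h3 (h2.trans h4.symm))
      · exact absurd hee.symm (hc2 e' h3 e h1 (h4.trans h2.symm))
      · exact Finset.card_le_one.1 (hE v).1.2 e (Finset.mem_filter.2 ⟨h1, h2⟩) e'
          (Finset.mem_filter.2 ⟨h3, h4⟩)
    refine ⟨c, fun e he => by rw [pow_zero, mul_one]; exact hc1 e he, fun v => ⟨hinj v, ?_⟩⟩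
    show _ ∈ if (E.filter fun e => s e = v ∨ t e = v).card = 1
      then Finset.powersetCard 1 (Finset.range 2)
      else Finset.powersetCard (E.filter fun e => s e = v ∨ t e = v).card (Finset.range 3)
    by_cases h1 : (E.filter fun e => s e = v ∨ t e = v).card = 1
    · rw [if_pos h1, Finset.mem_powersetCard]
      refine ⟨fun x hx => ?_, (Finset.card_image_of_injOn (hinj v)).trans h1⟩
      obtain ⟨e, he, rfl⟩ := Finset.mem_image.1 hx
      obtain ⟨heE, hev⟩ := Finset.mem_filter.1 he
      rw [Finset.mem_range]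
      have huni : ∀ e' ∈ E, (s e' = v ∨ t e' = v) → e' = e := fun e' he' h =>
        Finset.card_le_one.1 h1.le e' (Finset.mem_filter.2 ⟨he', h⟩) e he
      rcases hev with h | h
      · refine hc3 e heE fun e' he' h' => ?_
        have h2 := huni e' he' (Or.inr (h'.trans h))
        rw [h2] at h'
        exact hst e h'.symm
      · refine hc4 e heE fun e' he' h' => ?_
        have h2 := huni e' he' (Or.inl (h'.trans h))
        rw [h2] at h'
        exact hst e h'
    · rw [if_neg h1, Finset.mem_powersetCard]
      refine ⟨fun x hx => ?_, Finset.card_image_of_injOn (hinj v)⟩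
      obtain ⟨e, he, rfl⟩ := Finset.mem_image.1 hx
      exact Finset.mem_range.2 (hc1 e (Finset.mem_filter.1 he).1)
  | succ k ih =>
    intro E hE
    obtain ⟨g, hg⟩ := halve s t E
    have hsplit : ∀ (p : Fin m → Prop) [DecidablePred p], (E.filter p).card =
        (E.filter fun e => g e = true ∧ p e).card + (E.filter fun e => g e = false ∧ p e).card := by
      intro p _
      rw [← Finset.card_union_of_disjoint]
      · congr 1
        ext e
        rw [Finset.mem_union, Finset.mem_filter, Finset.mem_filter, Finset.mem_filter]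
        cases hge : g e <;> simp
      · rw [Finset.disjoint_left]
        intro e he he'
        rw [Finset.mem_filter] at he he'
        rw [he.2.1] at he'
        exact absurd he'.2.1 (by simp)
    have hff : ∀ (b : Bool) (p : Fin m → Prop) [DecidablePred p],
        ((E.filter fun e => g e = b).filter p) = E.filter fun e => g e = b ∧ p e := by
      intro b p _
      rw [Finset.filter_filter]
    have hdis : ∀ (b : Bool) (v : Fin n), (E.filter fun e => g e = b ∧ (s e = v ∨ t e = v)).card =
        (E.filter fun e => g e = b ∧ s e = v).card + (E.filter fun e => g e = b ∧ t e = v).card := by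
      intro b v
      rw [← Finset.card_union_of_disjoint]
      · congr 1
        ext e
        rw [Finset.mem_union, Finset.mem_filter, Finset.mem_filter, Finset.mem_filter]
        tauto
      · rw [Finset.disjoint_left]
        intro e he he'
        rw [Finset.mem_filter] at he he'
        exact hst e (he.2.2.trans he'.2.2.symm)
    have hEv : ∀ v, _ := fun v => hE v
    have hs1 := fun v => hsplit (fun e => s e = v)
    have ht1 := fun v => hsplit (fun e => t e = v)
    obtain ⟨c0, hl0, h0⟩ := ih (E.filter fun e => g e = false) (fun v => by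
      rw [hff, hff]
      have h1 := hE v
      rw [hs1 v, ht1 v, pow_succ] at h1
      have h2 := hg v
      refine ⟨⟨?_, ?_⟩, ?_, ?_⟩ <;> omega)
    obtain ⟨c1, hl1, h1⟩ := ih (E.filter fun e => g e = true) (fun v => by
      rw [hff, hff]
      have h1 := hE v
      rw [hs1 v, ht1 v, pow_succ] at h1
      have h2 := hg v
      refine ⟨⟨?_, ?_⟩, ?_, ?_⟩ <;> omega)
    let c : Fin m → ℕ := fun e => if g e = true then c1 e + 3 * 2 ^ k else c0 e
    have hcT : ∀ e, g e = true → c e = c1 e + 3 * 2 ^ k := fun e h => if_pos h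
    have hcF : ∀ e, g e = false → c e = c0 e := fun e h => if_neg (by rw [h]; simp)
    have hlt0 : ∀ e ∈ E, g e = false → c0 e < 3 * 2 ^ k := fun e he hge =>
      hl0 e (Finset.mem_filter.2 ⟨he, hge⟩)
    have hlt1 : ∀ e ∈ E, g e = true → c1 e < 3 * 2 ^ k := fun e he hge =>
      hl1 e (Finset.mem_filter.2 ⟨he, hge⟩)
    refine ⟨c, ?_, ?_⟩
    · intro e he
      rw [pow_succ]
      cases hge : g e
      · rw [hcF e hge]
        have := hlt0 e he hge
        omega
      · rw [hcT e hge]
        have := hlt1 e he hge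
        omega
    · intro v
      have hc0 := h0 v
      have hc1 := h1 v
      rw [hff] at hc0 hc1
      constructor
      · intro e he e' he' hee
        obtain ⟨h2, h3⟩ := Finset.mem_filter.1 (Finset.mem_coe.1 he)
        obtain ⟨h4, h5⟩ := Finset.mem_filter.1 (Finset.mem_coe.1 he')
        cases hge : g e <;> cases hge' : g e'
        · rw [hcF e hge, hcF e' hge'] at hee
          exact hc0.1 (Finset.mem_coe.2 (Finset.mem_filter.2 ⟨h2, hge, h3⟩))
            (Finset.mem_coe.2 (Finset.mem_filter.2 ⟨h4, hge', h5⟩)) hee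
        · rw [hcF e hge, hcT e' hge'] at hee
          have := hlt0 e h2 hge
          omega
        · rw [hcT e hge, hcF e' hge'] at hee
          have := hlt0 e' h4 hge'
          omega
        · rw [hcT e hge, hcT e' hge'] at hee
          exact hc1.1 (Finset.mem_coe.2 (Finset.mem_filter.2 ⟨h2, hge, h3⟩))
            (Finset.mem_coe.2 (Finset.mem_filter.2 ⟨h4, hge', h5⟩)) (by omega)
      · have h2 : (E.filter fun e => s e = v ∨ t e = v).image c = glue (3 * 2 ^ k)
            ((E.filter fun e => g e = false ∧ (s e = v ∨ t e = v)).image c0,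
              (E.filter fun e => g e = true ∧ (s e = v ∨ t e = v)).image c1) := by
          unfold glue
          ext x
          rw [Finset.mem_union, Finset.mem_image, Finset.mem_image, Finset.mem_image]
          constructor
          · rintro ⟨e, he, rfl⟩
            obtain ⟨h2, h3⟩ := Finset.mem_filter.1 he
            cases hge : g e
            · exact Or.inl ⟨e, Finset.mem_filter.2 ⟨h2, hge, h3⟩, (hcF e hge).symm⟩
            · exact Or.inr ⟨c1 e, Finset.mem_image.2 ⟨e, Finset.mem_filter.2 ⟨h2, hge, h3⟩, rfl⟩,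
                (hcT e hge).symm⟩
          · rintro (⟨e, he, rfl⟩ | ⟨y, hy, rfl⟩)
            · obtain ⟨h2, h3, h4⟩ := Finset.mem_filter.1 he
              exact ⟨e, Finset.mem_filter.2 ⟨h2, h4⟩, hcF e h3⟩
            · obtain ⟨e, he, rfl⟩ := Finset.mem_image.1 hy
              obtain ⟨h2, h3, h4⟩ := Finset.mem_filter.1 he
              exact ⟨e, Finset.mem_filter.2 ⟨h2, h4⟩, hcT e h3⟩
        rw [h2]
        have h3 := hsplit (fun e => s e = v ∨ t e = v)
        have h4 := hdis true v
        have h5 := hdis false v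
        have h6 := hg v
        have h7 := (hE v).2
        rw [hs1 v, ht1 v] at h7
        have hm0 := hc0.2
        have hm1 := hc1.2
        -- names for the two degrees
        obtain ⟨a, ha⟩ : ∃ a, a = (E.filter fun e => g e = false ∧ (s e = v ∨ t e = v)).card := ⟨_, rfl⟩
        obtain ⟨b, hb⟩ : ∃ b, b = (E.filter fun e => g e = true ∧ (s e = v ∨ t e = v)).card := ⟨_, rfl⟩
        obtain ⟨d, hd⟩ : ∃ d, d = (E.filter fun e => s e = v ∨ t e = v).card := ⟨_, rfl⟩
        rw [← hd]
        rw [← ha] at hm0
        rw [← hb] at hm1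
        rw [← hd, ← ha, ← hb] at h3
        rw [← hb] at h4
        rw [← ha] at h5
        have hmem : ∀ x y : ℕ, a = x → b = y →
            glue (3 * 2 ^ k) ((E.filter fun e => g e = false ∧ (s e = v ∨ t e = v)).image c0,
              (E.filter fun e => g e = true ∧ (s e = v ∨ t e = v)).image c1) ∈
            (FamG k x ×ˢ FamG k y).image (glue (3 * 2 ^ k)) := by
          intro x y hx hy
          rw [← hx, ← hy]
          exact Finset.mem_image_of_mem _ (Finset.mem_product.2 ⟨hm0, hm1⟩)
        show _ ∈ if d % 4 = 0 then (FamG k (d / 2) ×ˢ FamG k (d / 2)).image (glue (3 * 2 ^ k))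
          else if d % 4 = 2 then
            (FamG k (d / 2) ×ˢ FamG k (d / 2)).image (glue (3 * 2 ^ k)) ∪
              ((FamG k (d / 2 - 1) ×ˢ FamG k (d / 2 + 1)).image (glue (3 * 2 ^ k)) ∪
                (FamG k (d / 2 + 1) ×ˢ FamG k (d / 2 - 1)).image (glue (3 * 2 ^ k)))
          else (FamG k (d / 2) ×ˢ FamG k (d / 2 + 1)).image (glue (3 * 2 ^ k)) ∪
            (FamG k (d / 2 + 1) ×ˢ FamG k (d / 2)).image (glue (3 * 2 ^ k))
        by_cases e0 : d % 4 = 0
        · rw [if_pos e0]
          exact hmem _ _ (by omega) (by omega)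
        · rw [if_neg e0]
          by_cases e2 : d % 4 = 2
          · rw [if_pos e2]
            rcases (by omega : a = b ∨ a + 2 = b ∨ a = b + 2) with h | h | h
            · exact Finset.mem_union_left _ (hmem _ _ (by omega) (by omega))
            · exact Finset.mem_union_right _ (Finset.mem_union_left _ (hmem _ _ (by omega) (by omega)))
            · exact Finset.mem_union_right _ (Finset.mem_union_right _ (hmem _ _ (by omega) (by omega)))
          · rw [if_neg e2]
            rcases (by omega : a + 1 = b ∨ a = b + 1) with h | h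
            · exact Finset.mem_union_left _ (hmem _ _ (by omega) (by omega))
            · exact Finset.mem_union_right _ (hmem _ _ (by omega) (by omega))

/-- The general bound for multigraphs. -/
theorem few_gen (k K M : ℕ) (hK : 0 < K)
    (hM : ∀ z, z < 2 ^ (k + 1) + 1 → NN k z + NN k (z + 1) + NN k (z + 2) ≤ M)
    (s t : Fin m → Fin n) (hst : ∀ e, s e ≠ t e)
    (hdeg : ∀ v, (Finset.univ.filter fun e => s e = v ∨ t e = v).card < 2 ^ (k + 1) * K) :
    ∃ c : Fin m → ℕ,
      (∀ i j : Fin m, i ≠ j → (s i = s j ∨ s i = t j ∨ t i = s j ∨ t i = t j) → c i ≠ c j) ∧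
      ((Finset.univ : Finset (Fin n)).image fun v =>
        (Finset.univ.filter fun i : Fin m => s i = v ∨ t i = v).image c).card ≤
          (2 ^ (k + 1) + 1) * M ^ K := by
  classical
  obtain ⟨s', t', hor, hbal⟩ := orient s t
  obtain ⟨f, hf⟩ := split hK s' t'
  have hne : ∀ e, s' e ≠ t' e := by
    intro e
    rcases hor e with h | h <;> rw [h.1, h.2]
    · exact hst e
    · exact (hst e).symm
  have hor' : ∀ e v, (s e = v ∨ t e = v) ↔ (s' e = v ∨ t' e = v) := by
    intro e v
    rcases hor e with h | h <;> rw [h.1, h.2]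
    exact Or.comm
  have hout : ∀ v, (Finset.univ.filter fun e => s' e = v).card + (Finset.univ.filter fun e => t' e = v).card <
      2 * (2 ^ k * K) := by
    intro v
    rw [← Finset.card_union_of_disjoint]
    · refine lt_of_le_of_lt (Finset.card_le_card fun e he => ?_) (lt_of_lt_of_eq (hdeg v) (by
        rw [pow_succ]; ring))
      rw [Finset.mem_union, Finset.mem_filter, Finset.mem_filter] at he
      refine Finset.mem_filter.2 ⟨Finset.mem_univ _, (hor' e v).2 ?_⟩
      rcases he with h | h
      · exact Or.inl h.2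
      · exact Or.inr h.2
    · rw [Finset.disjoint_left]
      intro e he he'
      exact hne e ((Finset.mem_filter.1 he).2.trans (Finset.mem_filter.1 he').2.symm)
  have hle : ∀ (u : Fin m → Fin n) (v : Fin n), (∀ i j, cn u f i v ≤ cn u f j v + 1) →
      (Finset.univ.filter fun e => u e = v).card ≤ 2 ^ k * K → ∀ i, cn u f i v ≤ 2 ^ k := by
    intro u v h1 h2 i
    by_contra hcon
    have h3 : ∑ _j : Fin K, 2 ^ k < ∑ j, cn u f j v := by
      refine Finset.sum_lt_sum (fun j _ => ?_) ⟨i, Finset.mem_univ _, by omega⟩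
      have := h1 i j
      omega
    rw [sum_cn, Finset.sum_const, Finset.card_univ, Fintype.card_fin, smul_eq_mul, mul_comm] at h3
    omega
  have hs : ∀ v i, cn s' f i v ≤ 2 ^ k := fun v => hle s' v (fun i j => (hf i j v).1) (by
    have h1 := hout v
    have h2 := (hbal v).1
    omega)
  have ht : ∀ v i, cn t' f i v ≤ 2 ^ k := fun v => hle t' v (fun i j => (hf i j v).2) (by
    have h1 := hout v
    have h2 := (hbal v).2
    omega)
  -- the two degrees of a vertex in a class differ by at most one
  have hcmp : ∀ (u w : Fin m → Fin n) (v : Fin n), (∀ i j, cn u f i v ≤ cn u f j v + 1) →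
      (∀ i j, cn w f i v ≤ cn w f j v + 1) →
      (Finset.univ.filter fun e => u e = v).card ≤ (Finset.univ.filter fun e => w e = v).card + 1 →
      ∀ i, cn u f i v ≤ cn w f i v + 1 := by
    intro u w v h1 h2 h3 i
    by_contra hcon
    have h4 : ∀ j, cn w f j v ≤ cn u f j v := by
      intro j
      have h5 := h1 i j
      have h6 := h2 j i
      omega
    have h5 : ∑ j, cn w f j v + 2 ≤ ∑ j, cn u f j v := by
      rw [← Finset.add_sum_erase _ _ (Finset.mem_univ i), ← Finset.add_sum_erase _ (fun j => cn u f j v)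
        (Finset.mem_univ i)]
      have h6 : ∑ j ∈ (Finset.univ : Finset (Fin K)).erase i, cn w f j v ≤
          ∑ j ∈ (Finset.univ : Finset (Fin K)).erase i, cn u f j v := Finset.sum_le_sum fun j _ => h4 j
      omega
    rw [sum_cn, sum_cn] at h5
    omega
  have hff : ∀ (i : Fin K) (u : Fin m → Fin n) (v : Fin n),
      (((Finset.univ.filter fun e => f e = i).filter fun e => u e = v)).card = cn u f i v := by
    intro i u v
    rw [Finset.filter_filter]
    rfl
  have hcol := fun i : Fin K => colourG s' t' hne k (Finset.univ.filter fun e => f e = i) (fun v => by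
    rw [hff, hff]
    exact ⟨⟨hs v i, ht v i⟩,
      hcmp s' t' v (fun i j => (hf i j v).1) (fun i j => (hf i j v).2) (hbal v).1 i,
      hcmp t' s' v (fun i j => (hf i j v).2) (fun i j => (hf i j v).1) (hbal v).2 i⟩)
  choose c hc0 hc using hcol
  -- the degree in a class
  have hdg : ∀ (i : Fin K) (v : Fin n), ((Finset.univ.filter fun e => f e = i).filter
      fun e => s' e = v ∨ t' e = v).card = cn s' f i v + cn t' f i v := by
    intro i v
    unfold cn
    rw [← Finset.card_union_of_disjoint]
    · congr 1
      ext e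
      rw [Finset.mem_union, Finset.mem_filter, Finset.mem_filter, Finset.mem_filter, Finset.mem_filter]
      have := Finset.mem_univ e
      tauto
    · rw [Finset.disjoint_left]
      intro e he he'
      exact hne e ((Finset.mem_filter.1 he).2.2.trans (Finset.mem_filter.1 he').2.2.symm)
  have hwin : ∀ v, ∃ x, x < 2 ^ (k + 1) + 1 ∧ ∀ i, x ≤ cn s' f i v + cn t' f i v ∧
      cn s' f i v + cn t' f i v ≤ x + 2 := by
    intro v
    obtain ⟨i0, -, h0⟩ := Finset.exists_min_image (Finset.univ : Finset (Fin K))
      (fun i => cn s' f i v + cn t' f i v) ⟨⟨0, hK⟩, Finset.mem_univ _⟩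
    refine ⟨cn s' f i0 v + cn t' f i0 v, ?_, fun i => ⟨h0 i (Finset.mem_univ _), ?_⟩⟩
    · have h1 := hs v i0
      have h2 := ht v i0
      rw [pow_succ]
      omega
    · have h1 := (hf i i0 v).1
      have h2 := (hf i i0 v).2
      omega
  let C : Fin m → ℕ := fun e => c (f e) e * K + (f e : ℕ)
  have hC : ∀ e e', C e = C e' → f e = f e' ∧ c (f e) e = c (f e') e' := by
    intro e e' h
    have h1 : (f e : ℕ) < K := (f e).2
    have h2 : (f e' : ℕ) < K := (f e').2
    have h3 : ∀ x y : ℕ, y < K → (x * K + y) % K = y := by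
      intro x y hy
      rw [Nat.mul_comm, Nat.mul_add_mod, Nat.mod_eq_of_lt hy]
    have h4 : ∀ x y : ℕ, y < K → (x * K + y) / K = x := by
      intro x y hy
      rw [Nat.mul_comm, Nat.mul_add_div hK, Nat.div_eq_of_lt hy, Nat.add_zero]
    have h5 : C e % K = (f e : ℕ) := h3 _ _ h1
    have h6 : C e' % K = (f e' : ℕ) := h3 _ _ h2
    have h7 : C e / K = c (f e) e := h4 _ _ h1
    have h8 : C e' / K = c (f e') e' := h4 _ _ h2
    refine ⟨Fin.ext ?_, ?_⟩
    · rw [← h5, ← h6, h]
    · rw [← h7, ← h8, h]
  refine ⟨C, ?_, ?_⟩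
  · intro e e' hne' hee h
    obtain ⟨h1, h2⟩ := hC e e' h
    obtain ⟨v, hv, hv'⟩ : ∃ v, (s e = v ∨ t e = v) ∧ (s e' = v ∨ t e' = v) := by
      rcases hee with h3 | h3 | h3 | h3
      · exact ⟨s e, Or.inl rfl, Or.inl h3.symm⟩
      · exact ⟨s e, Or.inl rfl, Or.inr h3.symm⟩
      · exact ⟨t e, Or.inr rfl, Or.inl h3.symm⟩
      · exact ⟨t e, Or.inr rfl, Or.inr h3.symm⟩
    rw [hor'] at hv hv'
    refine hne' ((hc (f e) v).1 ?_ ?_ ?_)
    · exact Finset.mem_coe.2 (Finset.mem_filter.2 ⟨Finset.mem_filter.2 ⟨Finset.mem_univ _, rfl⟩, hv⟩)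
    · exact Finset.mem_coe.2 (Finset.mem_filter.2 ⟨Finset.mem_filter.2 ⟨Finset.mem_univ _, h1.symm⟩, hv'⟩)
    · rw [h2, h1]
  · -- the palettes
    let Q : Fin n → (Fin K → Finset ℕ) := fun v i =>
      ((Finset.univ.filter fun e => f e = i).filter fun e => s' e = v ∨ t' e = v).image (c i)
    let Φ : (Fin K → Finset ℕ) → Finset ℕ := fun g =>
      Finset.univ.biUnion fun i => (g i).image fun x => x * K + (i : ℕ)
    let W : ℕ → Finset (Finset ℕ) := fun x => (FamG k x ∪ FamG k (x + 1)) ∪ FamG k (x + 2)
    have hWc : ∀ x, x < 2 ^ (k + 1) + 1 → (W x).card ≤ M := by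
      intro x hx
      refine le_trans ?_ (hM x hx)
      refine (Finset.card_union_le _ _).trans (Nat.add_le_add ((Finset.card_union_le _ _).trans
        (Nat.add_le_add ?_ ?_)) ?_)
      · exact card_FamG k _
      · exact card_FamG k _
      · exact card_FamG k _
    have hΦ : ∀ v, (Finset.univ.filter fun e : Fin m => s e = v ∨ t e = v).image C = Φ (Q v) := by
      intro v
      ext x
      rw [Finset.mem_image, Finset.mem_biUnion]
      constructor
      · rintro ⟨e, he, rfl⟩
        refine ⟨f e, Finset.mem_univ _, Finset.mem_image.2 ⟨c (f e) e, ?_, rfl⟩⟩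
        exact Finset.mem_image.2 ⟨e, Finset.mem_filter.2 ⟨Finset.mem_filter.2 ⟨Finset.mem_univ _, rfl⟩,
          (hor' e v).1 (Finset.mem_filter.1 he).2⟩, rfl⟩
      · rintro ⟨i, -, hi⟩
        obtain ⟨y, hy, rfl⟩ := Finset.mem_image.1 hi
        obtain ⟨e, he, rfl⟩ := Finset.mem_image.1 hy
        obtain ⟨he1, he2⟩ := Finset.mem_filter.1 he
        have he3 : f e = i := (Finset.mem_filter.1 he1).2
        refine ⟨e, Finset.mem_filter.2 ⟨Finset.mem_univ _, (hor' e v).2 he2⟩, ?_⟩
        show c (f e) e * K + (f e : ℕ) = c i e * K + (i : ℕ)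
        rw [he3]
    have h1 : ((Finset.univ : Finset (Fin n)).image fun v =>
        (Finset.univ.filter fun e : Fin m => s e = v ∨ t e = v).image C) ⊆
        (Finset.range (2 ^ (k + 1) + 1)).biUnion fun x =>
          (Fintype.piFinset fun _ : Fin K => W x).image Φ := by
      intro x hx
      obtain ⟨v, -, rfl⟩ := Finset.mem_image.1 hx
      obtain ⟨y, hy, hy'⟩ := hwin v
      refine Finset.mem_biUnion.2 ⟨y, Finset.mem_range.2 hy, Finset.mem_image.2 ⟨Q v, ?_, (hΦ v).symm⟩⟩
      rw [Fintype.mem_piFinset]
      intro i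
      have h2 := (hc i v).2
      rw [hdg] at h2
      obtain ⟨h3, h4⟩ := hy' i
      show _ ∈ (FamG k y ∪ FamG k (y + 1)) ∪ FamG k (y + 2)
      rcases (by omega : cn s' f i v + cn t' f i v = y ∨ cn s' f i v + cn t' f i v = y + 1 ∨
        cn s' f i v + cn t' f i v = y + 2) with h5 | h5 | h5
      · rw [h5] at h2
        exact Finset.mem_union_left _ (Finset.mem_union_left _ h2)
      · rw [h5] at h2
        exact Finset.mem_union_left _ (Finset.mem_union_right _ h2)
      · rw [h5] at h2
        exact Finset.mem_union_right _ h2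
    refine (Finset.card_le_card h1).trans (Finset.card_biUnion_le.trans ?_)
    have h2 : ∀ x ∈ Finset.range (2 ^ (k + 1) + 1),
        ((Fintype.piFinset fun _ : Fin K => W x).image Φ).card ≤ M ^ K := by
      intro x hx
      refine Finset.card_image_le.trans ?_
      rw [Fintype.card_piFinset, Finset.prod_const, Finset.card_univ, Fintype.card_fin]
      exact Nat.pow_le_pow_left (hWc x (Finset.mem_range.1 hx)) K
    refine (Finset.sum_le_sum h2).trans ?_
    rw [Finset.sum_const, Finset.card_range, smul_eq_mul]

/-- the numbers of palettes for `k = 6` -/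
theorem NN_six : ∀ z, z < 2 ^ (6 + 1) + 1 → NN 6 z + NN 6 (z + 1) + NN 6 (z + 2) ≤
    70350097508882159719885159878623232000000000 := by
  decide +kernel

end Pool.Agent.H249.Pal
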