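import Pool.Agent.H249.Pal.Sh
import Pool.Agent.H249.Pal.Cnt

/-!
# The load of a block
-/

set_option autoImplicit false

open Finset

namespace Pool.Agent.H249.Pal.Rnd

theorem load {m r P : ℕ} (hr : 0 < r) (hP : 0 < P) (hdvd : ∀ k, 0 < k → k ≤ r → k ∣ P)
    (E : Finset (Fin m)) (ty : Fin m → Fin (r + 1) × Fin r) (p1 p2 : Fin m → Fin P)
    (hbal : ∀ (τ : Fin (r + 1) × Fin r) (i j : Fin P),
      (P * P) * (E.filter fun e => ty e = τ ∧ p1 e = i ∧ p2 e = j).card ≤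
        (E.filter fun e => ty e = τ).card + P * P)
    (k : ℕ) (hk0 : 0 < k) (hkr : k ≤ r) (x : Fin r) (D η : ℝ) (hD : 0 ≤ D) (hη : 0 ≤ η)
    (hsh : ∀ (k' : Fin (r + 1)) (x' : Fin r), ((E.filter fun e => ty e = (k', x')).card : ℝ) ≤
      ((E.filter fun e => (ty e).1 = k').card : ℝ) / r + η * D)
    (hkd : (r : ℝ) * E.card ≤ k * D) (α β : Fin r) :
    ((E.filter fun e => ((x : ℕ) + (p1 e : ℕ) % k) % r = (α : ℕ) ∧
      (((ty e).2 : ℕ) + (p2 e : ℕ) % ((ty e).1 : ℕ)) % r = (β : ℕ)).card : ℝ) ≤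
      D / r ^ 2 + (r + 1) * (η * D + (P : ℝ) ^ 2) := by
  classical
  have hr' : (0 : ℝ) < r := by exact_mod_cast hr
  have hP' : (0 : ℝ) < P := by exact_mod_cast hP
  have hk' : (0 : ℝ) < k := by exact_mod_cast hk0
  let I : Finset (Fin P) := Finset.univ.filter fun j : Fin P => ((x : ℕ) + (j : ℕ) % k) % r = (α : ℕ)
  let J : Fin (r + 1) × Fin r → Finset (Fin P) := fun τ =>
    Finset.univ.filter fun j : Fin P => ((τ.2 : ℕ) + (j : ℕ) % (τ.1 : ℕ)) % r = (β : ℕ)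
  let cnn : (Fin (r + 1) × Fin r) → Fin P → Fin P → ℕ := fun τ i j =>
    (E.filter fun e => ty e = τ ∧ p1 e = i ∧ p2 e = j).card
  have h1 : (E.filter fun e => ((x : ℕ) + (p1 e : ℕ) % k) % r = (α : ℕ) ∧
      (((ty e).2 : ℕ) + (p2 e : ℕ) % ((ty e).1 : ℕ)) % r = (β : ℕ)).card ≤
      ∑ τ : Fin (r + 1) × Fin r, ∑ ij ∈ I ×ˢ J τ, cnn τ ij.1 ij.2 := by
    refine (Finset.card_le_card (?_ : _ ⊆ (Finset.univ : Finset (Fin (r + 1) × Fin r)).biUnion fun τ =>
      (I ×ˢ J τ).biUnion fun ij => E.filter fun e => ty e = τ ∧ p1 e = ij.1 ∧ p2 e = ij.2)).trans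
      (Finset.card_biUnion_le.trans (Finset.sum_le_sum fun τ _ => Finset.card_biUnion_le))
    intro e he
    obtain ⟨h1, h2, h3⟩ := Finset.mem_filter.1 he
    refine Finset.mem_biUnion.2 ⟨ty e, Finset.mem_univ _, Finset.mem_biUnion.2 ⟨(p1 e, p2 e), ?_, ?_⟩⟩
    · exact Finset.mem_product.2 ⟨Finset.mem_filter.2 ⟨Finset.mem_univ _, h2⟩,
        Finset.mem_filter.2 ⟨Finset.mem_univ _, h3⟩⟩
    · exact Finset.mem_filter.2 ⟨h1, rfl, rfl, rfl⟩
  let g : Fin (r + 1) → ℝ := fun k' =>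
    ((E.filter fun e => (ty e).1 = k').card : ℝ) / r + η * D
  have h2 : ∀ τ i j, (cnn τ i j : ℝ) ≤ g τ.1 / P ^ 2 + 1 := by
    intro τ i j
    have h3 : ((P : ℝ) * P) * (cnn τ i j : ℝ) ≤ ((E.filter fun e => ty e = τ).card : ℝ) + P * P := by
      exact_mod_cast hbal τ i j
    have h4 := hsh τ.1 τ.2
    have h5 : (P : ℝ) ^ 2 * (cnn τ i j : ℝ) ≤ g τ.1 + P ^ 2 := by
      have h6 : ((E.filter fun e => ty e = (τ.1, τ.2)).card : ℝ) =
        ((E.filter fun e => ty e = τ).card : ℝ) := rfl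
      rw [h6] at h4
      show (P : ℝ) ^ 2 * (cnn τ i j : ℝ) ≤
        ((E.filter fun e => (ty e).1 = τ.1).card : ℝ) / r + η * D + P ^ 2
      nlinarith
    rw [div_add_one (by positivity), le_div_iff₀ (by positivity)]
    linarith
  have hg0 : ∀ k', 0 ≤ g k' := fun k' => by positivity
  have hI : (k : ℝ) * (I.card : ℝ) ≤ P := by
    have := Cnt.NN_le P r k hk0 hkr (hdvd k hk0 hkr) x α
    exact_mod_cast this
  have hJ : ∀ k' : Fin (r + 1), ∑ x' : Fin r, ((J (k', x')).card : ℝ) = P := by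
    intro k'
    have := Cnt.NN_sum P r (k' : ℕ) β
    exact_mod_cast this
  have h3 : ((E.filter fun e => ((x : ℕ) + (p1 e : ℕ) % k) % r = (α : ℕ) ∧
      (((ty e).2 : ℕ) + (p2 e : ℕ) % ((ty e).1 : ℕ)) % r = (β : ℕ)).card : ℝ) ≤
      ∑ τ : Fin (r + 1) × Fin r, ((I.card : ℝ) * (J τ).card) * (g τ.1 / P ^ 2 + 1) := by
    have h4 : ((E.filter fun e => ((x : ℕ) + (p1 e : ℕ) % k) % r = (α : ℕ) ∧
      (((ty e).2 : ℕ) + (p2 e : ℕ) % ((ty e).1 : ℕ)) % r = (β : ℕ)).card : ℝ) ≤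
      ∑ τ : Fin (r + 1) × Fin r, ∑ ij ∈ I ×ˢ J τ, (cnn τ ij.1 ij.2 : ℝ) := by
      exact_mod_cast h1
    refine h4.trans (Finset.sum_le_sum fun τ _ => ?_)
    refine (Finset.sum_le_sum fun ij _ => h2 τ ij.1 ij.2).trans (le_of_eq ?_)
    rw [Finset.sum_const, Finset.card_product, nsmul_eq_mul]
    push_cast
    ring
  have h4 : ∑ τ : Fin (r + 1) × Fin r, ((I.card : ℝ) * (J τ).card) * (g τ.1 / P ^ 2 + 1) =
      (I.card : ℝ) * ∑ k' : Fin (r + 1), (g k' / P ^ 2 + 1) * P := by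
    rw [Fintype.sum_prod_type, Finset.mul_sum]
    refine Finset.sum_congr rfl fun k' _ => ?_
    rw [← hJ k', Finset.mul_sum, Finset.mul_sum]
    refine Finset.sum_congr rfl fun x' _ => ?_
    ring
  rw [h4] at h3
  have h5 : (k : ℝ) * ((I.card : ℝ) * ∑ k' : Fin (r + 1), (g k' / P ^ 2 + 1) * P) ≤
      ∑ k' : Fin (r + 1), (g k' + P ^ 2) := by
    have h6 : 0 ≤ ∑ k' : Fin (r + 1), (g k' / P ^ 2 + 1) * (P : ℝ) :=
      Finset.sum_nonneg fun k' _ => by
        have := hg0 k'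
        positivity
    have h7 := mul_le_mul_of_nonneg_right hI h6
    rw [← mul_assoc]
    refine h7.trans (le_of_eq ?_)
    rw [Finset.mul_sum]
    refine Finset.sum_congr rfl fun k' _ => ?_
    field_simp
  have h6 : ∑ k' : Fin (r + 1), (g k' + P ^ 2) = (E.card : ℝ) / r + (r + 1) * (η * D + (P : ℝ) ^ 2) := by
    have h7 : ∑ k' : Fin (r + 1), ((E.filter fun e => (ty e).1 = k').card : ℝ) = E.card := by
      have h8 : ∑ k' : Fin (r + 1), (E.filter fun e => (ty e).1 = k').card = E.card :=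
        (Finset.card_eq_sum_card_fiberwise (f := fun e => (ty e).1) (t := Finset.univ)
          (fun _ _ => Finset.mem_univ _)).symm
      exact_mod_cast h8
    show ∑ k' : Fin (r + 1), (((E.filter fun e => (ty e).1 = k').card : ℝ) / r + η * D + P ^ 2) = _
    rw [Finset.sum_add_distrib, Finset.sum_add_distrib, ← Finset.sum_div, h7, Finset.sum_const,
      Finset.sum_const, Finset.card_univ, Fintype.card_fin, nsmul_eq_mul, nsmul_eq_mul]
    push_cast
    ring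
  rw [h6] at h5
  have h7 := mul_le_mul_of_nonneg_left h3 hk'.le
  have h8 := h7.trans h5
  -- divide by `k`
  have h9 : (E.card : ℝ) / r ≤ k * (D / r ^ 2) := by
    rw [div_le_iff₀ hr']
    have h10 : k * (D / (r : ℝ) ^ 2) * r = k * D / r := by
      field_simp
    rw [h10, le_div_iff₀ hr']
    linarith
  have h10 : (1 : ℝ) ≤ k := by exact_mod_cast hk0
  have h11 : 0 ≤ (r + 1) * (η * D + (P : ℝ) ^ 2) := by positivity
  have h12 : (k : ℝ) * ((E.filter fun e => ((x : ℕ) + (p1 e : ℕ) % k) % r = (α : ℕ) ∧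
      (((ty e).2 : ℕ) + (p2 e : ℕ) % ((ty e).1 : ℕ)) % r = (β : ℕ)).card : ℝ) ≤
      k * (D / r ^ 2 + (r + 1) * (η * D + (P : ℝ) ^ 2)) := by
    nlinarith
  exact le_of_mul_le_mul_left h12 hk'

/-- balanced classes with refined ends -/
theorem refined {m N L : ℕ} {Y : Type} [DecidableEq Y] (_ : 0 < L) (e1 : Y ≃ Fin N) (a : Fin m → Y)
    (w : Fin m → Fin N) (hw : ∀ e, w e = e1 (a e)) (f : Fin m → Fin L)
    (hf : ∀ i j z, cn w f i z ≤ cn w f j z + 1) (y : Y) (i : Fin L) :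
    L * (Finset.univ.filter fun e => f e = i ∧ a e = y).card ≤
      (Finset.univ.filter fun e => a e = y).card + L := by
  have h1 : ∀ i, cn w f i (e1 y) = (Finset.univ.filter fun e => f e = i ∧ a e = y).card := by
    intro i
    unfold cn
    congr 1
    ext e
    rw [Finset.mem_filter, Finset.mem_filter, hw e, e1.injective.eq_iff]
  have h2 : ∑ i, cn w f i (e1 y) = (Finset.univ.filter fun e => a e = y).card := by
    rw [sum_cn]
    congr 1
    ext e
    rw [Finset.mem_filter, Finset.mem_filter, hw e, e1.injective.eq_iff]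
  rw [← h1 i, ← h2]
  have h3 : ∑ _j : Fin L, cn w f i (e1 y) ≤ ∑ j, (cn w f j (e1 y) + 1) :=
    Finset.sum_le_sum fun j _ => hf i j (e1 y)
  rw [Finset.sum_add_distrib, Finset.sum_const, Finset.sum_const, Finset.card_univ, Fintype.card_fin,
    smul_eq_mul, smul_eq_mul, mul_one] at h3
  exact h3

end Pool.Agent.H249.Pal.Rnd
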