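import Pool.Agent.H249.Pal.Bip
import Pool.Agent.H249.Pal.Gen

/-!
# Real forms of the bounds for bipartite and for general multigraphs
-/

set_option autoImplicit false

namespace Pool.Agent.H249.Pal.RF

theorem bip_real (ε : ℝ) (hε : 0 < ε) : ∃ C : ℝ, ∀ (n m : ℕ) (s t : Fin m → Fin n),
    (∃ X : Fin n → Bool, ∀ i, X (s i) ≠ X (t i)) →
    ∀ Δ : ℕ, (∀ v : Fin n, (Finset.univ.filter fun i : Fin m => s i = v ∨ t i = v).card ≤ Δ) →
      ∃ c : Fin m → ℕ,
        (∀ i j : Fin m, i ≠ j →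
          (s i = s j ∨ s i = t j ∨ t i = s j ∨ t i = t j) → c i ≠ c j) ∧
        (((Finset.univ : Finset (Fin n)).image fun v =>
          (Finset.univ.filter fun i : Fin m => s i = v ∨ t i = v).image c).card : ℝ) ≤
            C * (2 : ℝ) ^ ((2 / 3 + ε) * (Δ : ℝ)) := by
  obtain ⟨k, hk⟩ := exists_pow_lt_of_lt_one hε (show (1 / 2 : ℝ) < 1 by norm_num)
  refine ⟨(2 ^ k + 1) * (2 * 2 ^ Pool.Agent.H249.Pal.J k), fun n m s t hX Δ hΔ => ?_⟩
  obtain ⟨X, hX⟩ := hX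
  -- the orientation from the side `true` to the side `false`
  obtain ⟨s', hs'⟩ : ∃ s' : Fin m → Fin n, ∀ e, s' e = if X (s e) = true then s e else t e :=
    ⟨fun e => if X (s e) = true then s e else t e, fun _ => rfl⟩
  obtain ⟨t', ht'⟩ : ∃ t' : Fin m → Fin n, ∀ e, t' e = if X (s e) = true then t e else s e :=
    ⟨fun e => if X (s e) = true then t e else s e, fun _ => rfl⟩
  have hor : ∀ e, (s' e = s e ∧ t' e = t e) ∨ (s' e = t e ∧ t' e = s e) := by
    intro e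
    rw [hs', ht']
    by_cases h : X (s e) = true
    · rw [if_pos h, if_pos h]
      exact Or.inl ⟨rfl, rfl⟩
    · rw [if_neg h, if_neg h]
      exact Or.inr ⟨rfl, rfl⟩
  have hX' : ∀ e, X (s' e) = true ∧ X (t' e) = false := by
    intro e
    rw [hs', ht']
    have h1 := hX e
    cases h2 : X (s e) <;> cases h3 : X (t e)
    · rw [h2, h3] at h1
      exact absurd rfl h1
    · simp [h2, h3]
    · simp [h2, h3]
    · rw [h2, h3] at h1
      exact absurd rfl h1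
  have hat : ∀ e v, (s' e = v ∨ t' e = v) ↔ (s e = v ∨ t e = v) := by
    intro e v
    rcases hor e with h | h <;> rw [h.1, h.2]
    exact Or.comm
  have hpal : ∀ v, (Finset.univ.filter fun e => s' e = v ∨ t' e = v) =
      Finset.univ.filter fun e => s e = v ∨ t e = v :=
    fun v => Finset.filter_congr fun e _ => hat e v
  obtain ⟨c, hc1, hc2⟩ := Pool.Agent.H249.Pal.few_bip k (Δ / 2 ^ k + 1) (Nat.succ_pos _) s' t' X hX'
    (fun v => by
      rw [hpal]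
      refine (hΔ v).trans ?_
      have h1 := Nat.div_add_mod Δ (2 ^ k)
      have h2 := Nat.mod_lt Δ (show 0 < 2 ^ k by positivity)
      rw [Nat.mul_add, Nat.mul_one]
      omega)
  refine ⟨c, fun i j hij h => hc1 i j hij ?_, ?_⟩
  · obtain ⟨v, hv, hv'⟩ : ∃ v, (s i = v ∨ t i = v) ∧ (s j = v ∨ t j = v) := by
      rcases h with h3 | h3 | h3 | h3
      · exact ⟨s i, Or.inl rfl, Or.inl h3.symm⟩
      · exact ⟨s i, Or.inl rfl, Or.inr h3.symm⟩
      · exact ⟨t i, Or.inr rfl, Or.inl h3.symm⟩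
      · exact ⟨t i, Or.inr rfl, Or.inr h3.symm⟩
    rcases (hat i v).2 hv with h1 | h1 <;> rcases (hat j v).2 hv' with h2 | h2
    · exact Or.inl (h1.trans h2.symm)
    · exact Or.inr (Or.inl (h1.trans h2.symm))
    · exact Or.inr (Or.inr (Or.inl (h1.trans h2.symm)))
    · exact Or.inr (Or.inr (Or.inr (h1.trans h2.symm)))
  · have hc3 : ((Finset.univ : Finset (Fin n)).image fun v =>
        (Finset.univ.filter fun i : Fin m => s i = v ∨ t i = v).image c).card ≤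
          (2 ^ k + 1) * (2 * 2 ^ Pool.Agent.H249.Pal.J k) ^ (Δ / 2 ^ k + 1) := by
      refine le_trans (le_of_eq ?_) hc2
      congr 1
      refine Finset.image_congr fun v _ => ?_
      show (Finset.univ.filter fun i : Fin m => s i = v ∨ t i = v).image c =
        (Finset.univ.filter fun e => s' e = v ∨ t' e = v).image c
      rw [hpal]
    refine (Nat.cast_le.2 hc3).trans ?_
    push_cast
    have hJ : (3 : ℝ) * (Pool.Agent.H249.Pal.J k : ℝ) ≤ 2 * 2 ^ k := by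
      have h1 : 3 * Pool.Agent.H249.Pal.J k ≤ 2 ^ (k + 1) := Nat.mul_div_le _ 3
      have h2 : ((3 * Pool.Agent.H249.Pal.J k : ℕ) : ℝ) ≤ ((2 ^ (k + 1) : ℕ) : ℝ) := Nat.cast_le.2 h1
      push_cast at h2
      rw [pow_succ] at h2
      linarith
    have hpos : (0 : ℝ) < 2 ^ k := by positivity
    have hk2 : 1 / (2 : ℝ) ^ k < ε := by
      rwa [one_div_pow] at hk
    have hdiv : ((Δ / 2 ^ k : ℕ) : ℝ) * 2 ^ k ≤ Δ := by
      have h1 : Δ / 2 ^ k * 2 ^ k ≤ Δ := Nat.div_mul_le_self Δ (2 ^ k)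
      exact_mod_cast h1
    have hexp : ((Pool.Agent.H249.Pal.J k : ℝ) + 1) * ((Δ / 2 ^ k : ℕ) : ℝ) ≤ (2 / 3 + ε) * (Δ : ℝ) := by
      have hq : (0 : ℝ) ≤ ((Δ / 2 ^ k : ℕ) : ℝ) := Nat.cast_nonneg _
      have h1 : (1 : ℝ) ≤ ε * 2 ^ k := by
        rw [div_lt_iff₀ hpos] at hk2
        exact hk2.le
      have h2 : (Pool.Agent.H249.Pal.J k : ℝ) + 1 ≤ (2 / 3 + ε) * 2 ^ k := by nlinarith
      calc ((Pool.Agent.H249.Pal.J k : ℝ) + 1) * ((Δ / 2 ^ k : ℕ) : ℝ)
          ≤ ((2 / 3 + ε) * 2 ^ k) * ((Δ / 2 ^ k : ℕ) : ℝ) := mul_le_mul_of_nonneg_right h2 hq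
        _ = (2 / 3 + ε) * (((Δ / 2 ^ k : ℕ) : ℝ) * 2 ^ k) := by ring
        _ ≤ (2 / 3 + ε) * (Δ : ℝ) := mul_le_mul_of_nonneg_left hdiv (by positivity)
    have hpw : ((2 : ℝ) * 2 ^ Pool.Agent.H249.Pal.J k) ^ (Δ / 2 ^ k) ≤
        (2 : ℝ) ^ ((2 / 3 + ε) * (Δ : ℝ)) := by
      have h1 : ((2 : ℝ) * 2 ^ Pool.Agent.H249.Pal.J k) ^ (Δ / 2 ^ k) =
          (2 : ℝ) ^ (((Pool.Agent.H249.Pal.J k : ℝ) + 1) * ((Δ / 2 ^ k : ℕ) : ℝ)) := by
        rw [← pow_succ', ← pow_mul, ← Real.rpow_natCast]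
        push_cast
        rfl
      rw [h1]
      exact Real.rpow_le_rpow_of_exponent_le (by norm_num) hexp
    rw [pow_succ]
    calc ((2 : ℝ) ^ k + 1) * ((2 * 2 ^ Pool.Agent.H249.Pal.J k) ^ (Δ / 2 ^ k) *
          (2 * 2 ^ Pool.Agent.H249.Pal.J k))
        = (2 ^ k + 1) * (2 * 2 ^ Pool.Agent.H249.Pal.J k) *
          (2 * 2 ^ Pool.Agent.H249.Pal.J k) ^ (Δ / 2 ^ k) := by ring
      _ ≤ (2 ^ k + 1) * (2 * 2 ^ Pool.Agent.H249.Pal.J k) * (2 : ℝ) ^ ((2 / 3 + ε) * (Δ : ℝ)) :=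
          mul_le_mul_of_nonneg_left hpw (by positivity)

theorem gen_real : ∃ C : ℝ, ∀ (n m : ℕ) (s t : Fin m → Fin n), (∀ i, s i ≠ t i) →
    ∀ Δ : ℕ, (∀ v : Fin n, (Finset.univ.filter fun i : Fin m => s i = v ∨ t i = v).card ≤ Δ) →
      ∃ c : Fin m → ℕ,
        (∀ i j : Fin m, i ≠ j →
          (s i = s j ∨ s i = t j ∨ t i = s j ∨ t i = t j) → c i ≠ c j) ∧
        (((Finset.univ : Finset (Fin n)).image fun v =>
          (Finset.univ.filter fun i : Fin m => s i = v ∨ t i = v).image c).card : ℝ) ≤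
            C * (2.201 : ℝ) ^ Δ := by
  refine ⟨129 * 70350097508882159719885159878623232000000000, fun n m s t hst Δ hΔ => ?_⟩
  obtain ⟨c, hc1, hc2⟩ := Pool.Agent.H249.Pal.few_gen 6 (Δ / 128 + 1)
    70350097508882159719885159878623232000000000 (by omega) Pool.Agent.H249.Pal.NN_six s t hst
    (fun v => lt_of_le_of_lt (hΔ v) (by
      rw [show (2 : ℕ) ^ (6 + 1) = 128 by norm_num]
      omega))
  refine ⟨c, hc1, ?_⟩
  have h2 : (70350097508882159719885159878623232000000000 : ℝ) ≤ (2.201 : ℝ) ^ 128 := by norm_num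
  have h3 : (70350097508882159719885159878623232000000000 : ℝ) ^ (Δ / 128) ≤ (2.201 : ℝ) ^ Δ := by
    calc (70350097508882159719885159878623232000000000 : ℝ) ^ (Δ / 128) ≤ ((2.201 : ℝ) ^ 128) ^ (Δ / 128) :=
          pow_le_pow_left₀ (by norm_num) h2 _
      _ = (2.201 : ℝ) ^ (128 * (Δ / 128)) := by rw [← pow_mul]
      _ ≤ (2.201 : ℝ) ^ Δ := pow_le_pow_right₀ (by norm_num) (Nat.mul_div_le Δ 128)
  have h4 : (2 ^ (6 + 1) + 1 : ℕ) = 129 := by norm_num
  rw [h4] at hc2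
  refine (Nat.cast_le.2 hc2).trans ?_
  rw [Nat.cast_mul, Nat.cast_pow, pow_succ, Nat.cast_ofNat, Nat.cast_ofNat]
  calc (129 : ℝ) * (70350097508882159719885159878623232000000000 ^ (Δ / 128) * 70350097508882159719885159878623232000000000)
      = 129 * 70350097508882159719885159878623232000000000 * 70350097508882159719885159878623232000000000 ^ (Δ / 128) := by ring
    _ ≤ 129 * 70350097508882159719885159878623232000000000 * (2.201 : ℝ) ^ Δ :=
        mul_le_mul_of_nonneg_left h3 (by norm_num)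

end Pool.Agent.H249.Pal.RF
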