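import Pool.Agent.H249.Pal.Rand
import Pool.Agent.H249.Pal.Real

/-!
# Few palettes for multigraphs of bounded multiplicity
-/

set_option autoImplicit false

open Finset

namespace Pool.Agent.H249.Pal.Rnd

variable {n m : ℕ}

/-- multiplicities are at most `μ` -/
def MulLe (s t : Fin m → Fin n) (μ : ℕ) : Prop :=
  ∀ u v, (Finset.univ.filter fun e => (s e = u ∧ t e = v) ∨ (s e = v ∧ t e = u)).card ≤ μ

/-- proper edge colourings -/
def Col (s t : Fin m → Fin n) (c : Fin m → ℕ) : Prop :=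
  ∀ i j : Fin m, i ≠ j → (s i = s j ∨ s i = t j ∨ t i = s j ∨ t i = t j) → c i ≠ c j

/-- the set of the palettes -/
def pals (s t : Fin m → Fin n) (c : Fin m → ℕ) : Finset (Finset ℕ) :=
  (Finset.univ : Finset (Fin n)).image fun v => (Av s t v).image c

theorem mem_sub {m' : ℕ} (s t : Fin m → Fin n) (i' : Fin m' → Fin m) (v : Fin n) (i : Fin m') :
    i ∈ Av (fun i => s (i' i)) (fun i => t (i' i)) v ↔ i' i ∈ Av s t v := by
  rw [mem_Av, mem_Av]

theorem glue2 {m1 m2 : ℕ} (s t : Fin m → Fin n) (p : Fin m → Prop) [DecidablePred p]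
    (i1 : Fin m1 → Fin m) (i2 : Fin m2 → Fin m) (h1 : Function.Injective i1)
    (h2 : Function.Injective i2) (hp1 : ∀ e, (∃ i, i1 i = e) ↔ p e) (hp2 : ∀ e, (∃ i, i2 i = e) ↔ ¬ p e)
    (c1 : Fin m1 → ℕ) (c2 : Fin m2 → ℕ) (hc1 : Col (fun i => s (i1 i)) (fun i => t (i1 i)) c1)
    (hc2 : Col (fun i => s (i2 i)) (fun i => t (i2 i)) c2) :
    ∃ c : Fin m → ℕ, Col s t c ∧ (pals s t c).card ≤
      (pals (fun i => s (i1 i)) (fun i => t (i1 i)) c1).card *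
        (pals (fun i => s (i2 i)) (fun i => t (i2 i)) c2).card := by
  classical
  obtain ⟨c, hT, hF⟩ : ∃ c : Fin m → ℕ, (∀ i, c (i1 i) = 2 * c1 i) ∧ ∀ i, c (i2 i) = 2 * c2 i + 1 := by
    refine ⟨fun e => if p e then 2 * Function.extend i1 c1 0 e else 2 * Function.extend i2 c2 0 e + 1,
      fun i => ?_, fun i => ?_⟩
    · have h3 : p (i1 i) := (hp1 _).1 ⟨i, rfl⟩
      show (if p (i1 i) then 2 * Function.extend i1 c1 0 (i1 i)
        else 2 * Function.extend i2 c2 0 (i1 i) + 1) = 2 * c1 i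
      rw [if_pos h3, h1.extend_apply]
    · have h3 : ¬ p (i2 i) := (hp2 _).1 ⟨i, rfl⟩
      show (if p (i2 i) then 2 * Function.extend i1 c1 0 (i2 i)
        else 2 * Function.extend i2 c2 0 (i2 i) + 1) = 2 * c2 i + 1
      rw [if_neg h3, h2.extend_apply]
  have hcov : ∀ e, (∃ i, i1 i = e) ∨ ∃ i, i2 i = e := by
    intro e
    by_cases h : p e
    · exact Or.inl ((hp1 e).2 h)
    · exact Or.inr ((hp2 e).2 h)
  refine ⟨c, ?_, ?_⟩
  · intro e e' hne hee hc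
    rcases hcov e with ⟨i, rfl⟩ | ⟨i, rfl⟩ <;> rcases hcov e' with ⟨j, rfl⟩ | ⟨j, rfl⟩
    · rw [hT, hT] at hc
      exact hc1 i j (fun h => hne (by rw [h])) hee (by omega)
    · rw [hT, hF] at hc
      omega
    · rw [hF, hT] at hc
      omega
    · rw [hF, hF] at hc
      exact hc2 i j (fun h => hne (by rw [h])) hee (by omega)
  · rw [← Finset.card_product]
    let Φ : Finset ℕ × Finset ℕ → Finset ℕ := fun x =>
      (x.1.image fun y => 2 * y) ∪ x.2.image fun y => 2 * y + 1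
    have h3 : pals s t c ⊆ ((pals (fun i => s (i1 i)) (fun i => t (i1 i)) c1) ×ˢ
        (pals (fun i => s (i2 i)) (fun i => t (i2 i)) c2)).image Φ := by
      intro x hx
      obtain ⟨v, -, rfl⟩ := Finset.mem_image.1 hx
      refine Finset.mem_image.2 ⟨((Av (fun i => s (i1 i)) (fun i => t (i1 i)) v).image c1,
        (Av (fun i => s (i2 i)) (fun i => t (i2 i)) v).image c2), Finset.mem_product.2
        ⟨Finset.mem_image.2 ⟨v, Finset.mem_univ _, rfl⟩, Finset.mem_image.2 ⟨v, Finset.mem_univ _, rfl⟩⟩, ?_⟩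
      show (((Av (fun i => s (i1 i)) (fun i => t (i1 i)) v).image c1).image fun y => 2 * y) ∪
        (((Av (fun i => s (i2 i)) (fun i => t (i2 i)) v).image c2).image fun y => 2 * y + 1) =
        (Av s t v).image c
      ext x
      rw [Finset.mem_union, Finset.mem_image, Finset.mem_image, Finset.mem_image]
      constructor
      · rintro (⟨y, hy, rfl⟩ | ⟨y, hy, rfl⟩)
        · obtain ⟨i, hi, rfl⟩ := Finset.mem_image.1 hy
          exact ⟨i1 i, (mem_sub s t i1 v i).1 hi, hT i⟩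
        · obtain ⟨i, hi, rfl⟩ := Finset.mem_image.1 hy
          exact ⟨i2 i, (mem_sub s t i2 v i).1 hi, hF i⟩
      · rintro ⟨e, he, rfl⟩
        rcases hcov e with ⟨i, rfl⟩ | ⟨i, rfl⟩
        · exact Or.inl ⟨c1 i, Finset.mem_image.2 ⟨i, (mem_sub s t i1 v i).2 he, rfl⟩, (hT i).symm⟩
        · exact Or.inr ⟨c2 i, Finset.mem_image.2 ⟨i, (mem_sub s t i2 v i).2 he, rfl⟩, (hF i).symm⟩
    exact (Finset.card_le_card h3).trans Finset.card_image_le

/-- subgraphs given by a set of edges -/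
theorem sub (s t : Fin m → Fin n) (hst : ∀ e, s e ≠ t e) (μ : ℕ) (hmul : MulLe s t μ)
    (p : Fin m → Prop) [DecidablePred p] : ∃ (m' : ℕ) (i' : Fin m' → Fin m), Function.Injective i' ∧
      (∀ e, (∃ i, i' i = e) ↔ p e) ∧ (∀ i, s (i' i) ≠ t (i' i)) ∧
      MulLe (fun i => s (i' i)) (fun i => t (i' i)) μ ∧
      ∀ v, (Av (fun i => s (i' i)) (fun i => t (i' i)) v).card = ((Av s t v).filter p).card := by
  classical
  let F : Finset (Fin m) := Finset.univ.filter p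
  let ι : Fin F.card ↪o Fin m := F.orderEmbOfFin rfl
  have hr : ∀ e, (∃ i, ι i = e) ↔ p e := by
    intro e
    have h1 := Finset.range_orderEmbOfFin F rfl
    have h2 : (∃ i, ι i = e) ↔ e ∈ (F : Set (Fin m)) := by
      rw [← h1]
      exact Iff.rfl
    rw [h2]
    exact ⟨fun h => (Finset.mem_filter.1 (Finset.mem_coe.1 h)).2,
      fun h => Finset.mem_coe.2 (Finset.mem_filter.2 ⟨Finset.mem_univ _, h⟩)⟩
  refine ⟨F.card, fun i => ι i, ι.injective, hr, fun i => hst _, ?_, ?_⟩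
  · intro u v
    refine le_trans ?_ (hmul u v)
    refine Finset.card_le_card_of_injOn (fun i => ι i) ?_ (fun _ _ _ _ h => ι.injective h)
    intro i hi
    exact Finset.mem_coe.2 (Finset.mem_filter.2 ⟨Finset.mem_univ _,
      (Finset.mem_filter.1 (Finset.mem_coe.1 hi)).2⟩)
  · intro v
    refine Finset.card_bij (fun i _ => ι i) ?_ (fun _ _ _ _ h => ι.injective h) ?_
    · intro i hi
      exact Finset.mem_filter.2 ⟨(mem_sub s t (fun i => ι i) v i).1 hi, (hr _).1 ⟨i, rfl⟩⟩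
    · intro e he
      obtain ⟨h1, h2⟩ := Finset.mem_filter.1 he
      obtain ⟨i, rfl⟩ := (hr e).2 h2
      exact ⟨i, (mem_sub s t (fun i => ι i) v i).2 h1, rfl⟩

/-- the bound with the exponent `γ` -/
def Good (γ : ℝ) : Prop :=
  ∃ C : ℝ, 0 ≤ C ∧ ∀ μ : ℕ, 0 < μ → ∀ (n m : ℕ) (s t : Fin m → Fin n), (∀ e, s e ≠ t e) →
    MulLe s t μ → ∀ D : ℕ, (∀ v, (Av s t v).card ≤ D) →
      ∃ c : Fin m → ℕ, Col s t c ∧ ((pals s t c).card : ℝ) ≤ (2 : ℝ) ^ (γ * (D : ℝ) + C * LL μ)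

theorem Good.mono {γ γ' : ℝ} (h : Good γ) (hγ : γ ≤ γ') : Good γ' := by
  obtain ⟨C, hC0, hC⟩ := h
  refine ⟨C, hC0, fun μ hμ n m s t hst hmul D hD => ?_⟩
  obtain ⟨c, hc1, hc2⟩ := hC μ hμ n m s t hst hmul D hD
  refine ⟨c, hc1, hc2.trans ?_⟩
  refine Real.rpow_le_rpow_of_exponent_le (by norm_num) ?_
  have := mul_le_mul_of_nonneg_right hγ (Nat.cast_nonneg (α := ℝ) D)
  linarith

theorem two_pow (x : ℝ) : ∃ a : ℝ, 0 ≤ a ∧ |x| ≤ (2 : ℝ) ^ a := by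
  obtain ⟨a, ha⟩ := exists_nat_gt |x|
  refine ⟨a, Nat.cast_nonneg a, ?_⟩
  have h1 : a < 2 ^ a := Nat.lt_two_pow_self
  have h2 : (a : ℝ) < 2 ^ a := by exact_mod_cast h1
  rw [Real.rpow_natCast]
  linarith

theorem gen2 : ∃ a : ℝ, 0 ≤ a ∧ ∀ (n m : ℕ) (s t : Fin m → Fin n), (∀ e, s e ≠ t e) →
    ∀ D : ℕ, (∀ v, (Av s t v).card ≤ D) →
      ∃ c : Fin m → ℕ, Col s t c ∧ ((pals s t c).card : ℝ) ≤ (2 : ℝ) ^ (2 * (D : ℝ) + a) := by
  obtain ⟨Cg, hCg⟩ := RF.gen_real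
  obtain ⟨a, ha0, ha⟩ := two_pow Cg
  refine ⟨a, ha0, fun n m s t hst D hD => ?_⟩
  obtain ⟨c, hc, hc'⟩ := hCg n m s t hst D hD
  refine ⟨c, hc, ?_⟩
  have e1 : ((pals s t c).card : ℝ) ≤ Cg * (2.201 : ℝ) ^ D := hc'
  have e2 : (2.201 : ℝ) ^ D ≤ (2 : ℝ) ^ (2 * (D : ℝ)) := by
    have e3 : (2.201 : ℝ) ^ D ≤ ((2 : ℝ) ^ (2 : ℝ)) ^ (D : ℝ) := by
      rw [Real.rpow_natCast]
      refine pow_le_pow_left₀ (by norm_num) ?_ D
      rw [show (2 : ℝ) ^ (2 : ℝ) = 4 by norm_num]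
      norm_num
    rwa [← Real.rpow_mul (by norm_num)] at e3
  rw [Real.rpow_add (by norm_num), mul_comm]
  exact e1.trans (mul_le_mul ((le_abs_self _).trans ha) e2 (by positivity) (by positivity))

theorem good_step (δ ε γ : ℝ) (hδ : 0 < δ) (hε : 0 < ε) (hγ : 0 ≤ γ)
    (h : Good γ) : Good ((1 / 2 + δ) * ((2 / 3 + ε) + γ)) := by
  classical
  obtain ⟨C, hC0, hC⟩ := h
  obtain ⟨Cb, hCb⟩ := RF.bip_real ε hε
  obtain ⟨b, hb0, hb⟩ := two_pow Cb
  obtain ⟨a, ha0, hg⟩ := gen2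
  obtain ⟨K, hK0, hK⟩ := small δ hδ
  refine ⟨b + C + a + 2 * K, by positivity, fun μ hμ n m s t hst hmul D hD => ?_⟩
  have hL := one_le_LL hμ
  have hg0 : 0 ≤ (1 / 2 + δ) * ((2 / 3 + ε) + γ) := by positivity
  by_cases hDD : K * LL μ ≤ D
  · have hDpos : 0 < D := by
      have h1 : (0 : ℝ) < D := lt_of_lt_of_le (mul_pos hK0 (by linarith)) hDD
      exact_mod_cast h1
    obtain ⟨X, hX⟩ := splitRnd δ hδ μ hμ D hDpos (hK μ hμ D hDD) s t hst hmul hD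
    obtain ⟨m1, i1, hi1, hp1, hst1, hmul1, hdeg1⟩ := sub s t hst μ hmul (fun e => ¬ X (s e) = X (t e))
    obtain ⟨m2, i2, hi2, hp2, hst2, hmul2, hdeg2⟩ := sub s t hst μ hmul (fun e => X (s e) = X (t e))
    obtain ⟨D1, hD1⟩ : ∃ D1 : ℕ, D1 = ⌊(1 / 2 + δ) * (D : ℝ)⌋₊ := ⟨_, rfl⟩
    have hnn : 0 ≤ (1 / 2 + δ) * (D : ℝ) := by positivity
    have hD1le : (D1 : ℝ) ≤ (1 / 2 + δ) * D := by
      rw [hD1]
      exact Nat.floor_le hnn
    obtain ⟨c1, hc1, hc1'⟩ := hCb n m1 (fun i => s (i1 i)) (fun i => t (i1 i))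
      ⟨X, fun i => (hp1 (i1 i)).1 ⟨i, rfl⟩⟩ D1 (fun v => by
        rw [hD1]
        refine Nat.le_floor ?_
        have h2 := hdeg1 v
        unfold Av at h2
        rw [h2]
        exact (hX v).2)
    obtain ⟨c2, hc2, hc2'⟩ := hC μ hμ n m2 (fun i => s (i2 i)) (fun i => t (i2 i)) hst2 hmul2 D1 (fun v => by
        rw [hD1]
        refine Nat.le_floor ?_
        rw [hdeg2 v]
        exact (hX v).1)
    obtain ⟨c, hc, hc'⟩ := glue2 s t (fun e => ¬ X (s e) = X (t e)) i1 i2 hi1 hi2 hp1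
      (fun e => (hp2 e).trans not_not.symm) c1 c2 hc1 hc2
    refine ⟨c, hc, ?_⟩
    have e1 : ((pals s t c).card : ℝ) ≤ ((pals (fun i => s (i1 i)) (fun i => t (i1 i)) c1).card : ℝ) *
        ((pals (fun i => s (i2 i)) (fun i => t (i2 i)) c2).card : ℝ) := by
      exact_mod_cast hc'
    have e2 : ((pals (fun i => s (i1 i)) (fun i => t (i1 i)) c1).card : ℝ) ≤
        (2 : ℝ) ^ b * (2 : ℝ) ^ ((2 / 3 + ε) * (D1 : ℝ)) :=
      hc1'.trans (mul_le_mul_of_nonneg_right ((le_abs_self _).trans hb) (by positivity))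
    rw [← Real.rpow_add (by norm_num)] at e2
    have e3 := mul_le_mul e2 hc2' (Nat.cast_nonneg _) (by positivity)
    rw [← Real.rpow_add (by norm_num)] at e3
    refine e1.trans (e3.trans (Real.rpow_le_rpow_of_exponent_le (by norm_num) ?_))
    have e5 : ((2 / 3 + ε) + γ) * (D1 : ℝ) ≤ ((1 / 2 + δ) * ((2 / 3 + ε) + γ)) * (D : ℝ) := by
      calc ((2 / 3 + ε) + γ) * (D1 : ℝ) ≤ ((2 / 3 + ε) + γ) * ((1 / 2 + δ) * D) :=
            mul_le_mul_of_nonneg_left hD1le (by positivity)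
        _ = ((1 / 2 + δ) * ((2 / 3 + ε) + γ)) * (D : ℝ) := by ring
    have e6 : b * 1 ≤ b * LL μ := mul_le_mul_of_nonneg_left hL hb0
    have e7 : 0 ≤ (a + 2 * K) * LL μ := by positivity
    linarith
  · obtain ⟨c, hc, hc'⟩ := hg n m s t hst D hD
    refine ⟨c, hc, hc'.trans (Real.rpow_le_rpow_of_exponent_le (by norm_num) ?_)⟩
    push Not at hDD
    have e1 : 0 ≤ ((1 / 2 + δ) * ((2 / 3 + ε) + γ)) * (D : ℝ) := mul_nonneg hg0 (Nat.cast_nonneg D)
    have e2 : a * 1 ≤ a * LL μ := mul_le_mul_of_nonneg_left hL ha0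
    have e3 : 0 ≤ (b + C) * LL μ := by positivity
    linarith

theorem good_all (η : ℝ) (hη : 0 < η) (hη1 : η ≤ 1) :
    ∀ j : ℕ, Good ((2 / 3 + η) + 2 * (1 / 2 + η / 8) ^ j) := by
  intro j
  induction j with
  | zero =>
    obtain ⟨a, ha0, hg⟩ := gen2
    refine ⟨a, ha0, fun μ hμ n m s t hst _ D hD => ?_⟩
    obtain ⟨c, hc, hc'⟩ := hg n m s t hst D hD
    refine ⟨c, hc, hc'.trans (Real.rpow_le_rpow_of_exponent_le (by norm_num) ?_)⟩
    have hL := one_le_LL hμ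
    have e2 : a * 1 ≤ a * LL μ := mul_le_mul_of_nonneg_left hL ha0
    have e3 : (2 : ℝ) * D ≤ ((2 / 3 + η) + 2 * (1 / 2 + η / 8) ^ 0) * (D : ℝ) := by
      refine mul_le_mul_of_nonneg_right ?_ (Nat.cast_nonneg D)
      rw [pow_zero]
      linarith
    linarith
  | succ j ih =>
    refine (good_step (η / 8) (η / 4) _ (by positivity) (by positivity) (by positivity) ih).mono ?_
    have h1 : (1 / 2 + η / 8) * (2 / 3 + η / 4 + (2 / 3 + η)) ≤ 2 / 3 + η := by nlinarith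
    calc (1 / 2 + η / 8) * (2 / 3 + η / 4 + (2 / 3 + η + 2 * (1 / 2 + η / 8) ^ j))
        = (1 / 2 + η / 8) * (2 / 3 + η / 4 + (2 / 3 + η)) + 2 * (1 / 2 + η / 8) ^ (j + 1) := by ring
      _ ≤ 2 / 3 + η + 2 * (1 / 2 + η / 8) ^ (j + 1) := by linarith

theorem good_final (ε : ℝ) (hε : 0 < ε) : Good (2 / 3 + ε) := by
  obtain ⟨η, hη0, hη1, hη2⟩ : ∃ η : ℝ, 0 < η ∧ η ≤ 1 ∧ 2 * η ≤ ε :=
    ⟨min (ε / 2) 1, lt_min (by positivity) one_pos, min_le_right _ _, by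
      have := min_le_left (ε / 2) 1
      linarith⟩
  obtain ⟨j, hj⟩ := exists_pow_lt_of_lt_one (show (0 : ℝ) < η / 2 by positivity)
    (show (1 / 2 + η / 8 : ℝ) < 1 by linarith)
  refine (good_all η hη0 hη1 j).mono ?_
  linarith

end Pool.Agent.H249.Pal.Rnd
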