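import Pool.Agent.H249.Pal.Forest

/-!
# Few palettes from a partition into interval colourable parts
-/

set_option autoImplicit false

open Finset

namespace Pool.Agent.H249.Pal

variable {n m : ℕ}

/-- the residues modulo `D` of an interval of `d` integers which begins with `a` -/
def cyc (D a d : ℕ) : Finset ℕ := (Finset.Ico a (a + d)).image fun x => x % D

/-- the possible sets of residues -/
def Sfin (D : ℕ) : Finset (Finset ℕ) :=
  insert ∅ (insert (Finset.range D)
    ((Finset.range D ×ˢ Finset.Ico 1 D).image fun x => cyc D x.1 x.2))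

theorem card_Sfin (D : ℕ) : (Sfin D).card ≤ D * (D - 1) + 2 := by
  unfold Sfin
  refine (Finset.card_insert_le _ _).trans ?_
  have h1 := Finset.card_insert_le (Finset.range D)
    ((Finset.range D ×ˢ Finset.Ico 1 D).image fun x => cyc D x.1 x.2)
  have h2 : ((Finset.range D ×ˢ Finset.Ico 1 D).image fun x => cyc D x.1 x.2).card ≤
      D * (D - 1) := by
    refine Finset.card_image_le.trans ?_
    rw [Finset.card_product, Finset.card_range, Nat.card_Ico]
  omega

theorem cyc_mem {D a d : ℕ} (hd : d ≤ D) : cyc D a d ∈ Sfin D := by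
  unfold Sfin
  rcases Nat.eq_zero_or_pos d with h0 | h0
  · have h1 : cyc D a d = ∅ := by
      unfold cyc
      rw [h0, Nat.add_zero, Finset.Ico_self, Finset.image_empty]
    rw [h1]
    exact Finset.mem_insert_self _ _
  · refine Finset.mem_insert_of_mem ?_
    rcases Nat.eq_or_lt_of_le hd with h1 | h1
    · have h2 : cyc D a d = Finset.range D := by
        unfold cyc
        rw [h1]
        exact Nat.image_Ico_mod a D
      rw [h2]
      exact Finset.mem_insert_self _ _
    · refine Finset.mem_insert_of_mem (Finset.mem_image.2 ⟨(a % D, d), ?_, ?_⟩)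
      · exact Finset.mem_product.2 ⟨Finset.mem_range.2 (Nat.mod_lt _ (by omega)),
          Finset.mem_Ico.2 ⟨h0, h1⟩⟩
      · show cyc D (a % D) d = cyc D a d
        unfold cyc
        ext x
        rw [Finset.mem_image, Finset.mem_image]
        constructor
        · rintro ⟨y, hy, rfl⟩
          rw [Finset.mem_Ico] at hy
          refine ⟨y - a % D + a, Finset.mem_Ico.2 ⟨by omega, by omega⟩, ?_⟩
          have h3 : y = (y - a % D) + a % D := by omega
          conv_rhs => rw [h3]
          rw [Nat.add_mod_mod]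
        · rintro ⟨y, hy, rfl⟩
          rw [Finset.mem_Ico] at hy
          refine ⟨y - a + a % D, Finset.mem_Ico.2 ⟨by omega, by omega⟩, ?_⟩
          have h3 : y = (y - a) + a := by omega
          conv_rhs => rw [h3]
          rw [Nat.add_mod_mod]

/-- the class `i` of the partition `f` of the edges -/
def cls {k : ℕ} (f : Fin m → Fin k) (i : Fin k) : Finset (Fin m) :=
  Finset.univ.filter fun e => f e = i

/-- There is a proper colouring with at most `N` different palettes. -/
def FewPalettes (s t : Fin m → Fin n) (N : ℕ) : Prop :=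
  ∃ c : Fin m → ℕ,
    (∀ i j : Fin m, i ≠ j → (s i = s j ∨ s i = t j ∨ t i = s j ∨ t i = t j) → c i ≠ c j) ∧
    ((Finset.univ : Finset (Fin n)).image fun v =>
      (Finset.univ.filter fun i : Fin m => s i = v ∨ t i = v).image c).card ≤ N

/-- A partition of the edges into interval colourable classes gives few palettes. -/
theorem few_of_interval {k : ℕ} (s t : Fin m → Fin n) (f : Fin m → Fin k) (D : Fin k → ℕ)
    (hD : ∀ i v, (At s t (cls f i) v).card ≤ D i)
    (hc : ∀ i, ∃ c : Fin m → ℕ, IntervalCol s t (cls f i) c) :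
    FewPalettes s t (∏ i, (D i * (D i - 1) + 2)) := by
  classical
  choose c hc using hc
  -- residues separate the edges of a class at a vertex
  have hres : ∀ (i : Fin k) (v : Fin n), ∀ e ∈ At s t (cls f i) v, ∀ e' ∈ At s t (cls f i) v,
      c i e % D i = c i e' % D i → e = e' := by
    intro i v e he e' he' h
    obtain ⟨hinj, a, ha⟩ := hc i v
    refine hinj (Finset.mem_coe.2 he) (Finset.mem_coe.2 he') ?_
    have h1 : c i e ∈ Finset.Ico a (a + (At s t (cls f i) v).card) := by
      rw [← ha]
      exact Finset.mem_image_of_mem _ he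
    have h2 : c i e' ∈ Finset.Ico a (a + (At s t (cls f i) v).card) := by
      rw [← ha]
      exact Finset.mem_image_of_mem _ he'
    rw [Finset.mem_Ico] at h1 h2
    have h3 := hD i v
    rcases Nat.le_total (c i e) (c i e') with h4 | h4
    · have h5 := (Nat.modEq_iff_dvd' h4).1 h
      have h6 := Nat.eq_zero_of_dvd_of_lt h5 (by omega)
      omega
    · have h5 := (Nat.modEq_iff_dvd' h4).1 h.symm
      have h6 := Nat.eq_zero_of_dvd_of_lt h5 (by omega)
      omega
  let C : Fin m → ℕ := fun e => (c (f e) e % D (f e)) * k + (f e : ℕ)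
  have hC : ∀ e e', C e = C e' → f e = f e' ∧ c (f e) e % D (f e) = c (f e') e' % D (f e') := by
    intro e e' h
    have h1 : (f e : ℕ) < k := (f e).2
    have h2 : (f e' : ℕ) < k := (f e').2
    have h0 : 0 < k := by omega
    have h3 : ∀ x y : ℕ, y < k → (x * k + y) % k = y := by
      intro x y hy
      rw [Nat.mul_comm, Nat.mul_add_mod, Nat.mod_eq_of_lt hy]
    have h4 : ∀ x y : ℕ, y < k → (x * k + y) / k = x := by
      intro x y hy
      rw [Nat.mul_comm, Nat.mul_add_div h0, Nat.div_eq_of_lt hy, Nat.add_zero]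
    have h5 : C e % k = (f e : ℕ) := h3 _ _ h1
    have h6 : C e' % k = (f e' : ℕ) := h3 _ _ h2
    have h7 : C e / k = c (f e) e % D (f e) := h4 _ _ h1
    have h8 : C e' / k = c (f e') e' % D (f e') := h4 _ _ h2
    refine ⟨Fin.ext ?_, ?_⟩
    · rw [← h5, ← h6, h]
    · rw [← h7, ← h8, h]
  refine ⟨C, ?_, ?_⟩
  · intro e e' hne hee h
    obtain ⟨h1, h2⟩ := hC e e' h
    rw [← h1] at h2
    obtain ⟨v, hv, hv'⟩ : ∃ v, (s e = v ∨ t e = v) ∧ (s e' = v ∨ t e' = v) := by
      rcases hee with h3 | h3 | h3 | h3
      · exact ⟨s e, Or.inl rfl, Or.inl h3.symm⟩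
      · exact ⟨s e, Or.inl rfl, Or.inr h3.symm⟩
      · exact ⟨t e, Or.inr rfl, Or.inl h3.symm⟩
      · exact ⟨t e, Or.inr rfl, Or.inr h3.symm⟩
    refine hne (hres (f e) v e ?_ e' ?_ h2)
    · exact Finset.mem_filter.2 ⟨Finset.mem_filter.2 ⟨Finset.mem_univ _, rfl⟩, hv⟩
    · exact Finset.mem_filter.2 ⟨Finset.mem_filter.2 ⟨Finset.mem_univ _, h1.symm⟩, hv'⟩
  · -- the palettes
    let Q : Fin n → (Fin k → Finset ℕ) := fun v i => (At s t (cls f i) v).image fun e => c i e % D i
    let Φ : (Fin k → Finset ℕ) → Finset ℕ := fun g =>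
      Finset.univ.biUnion fun i => (g i).image fun x => x * k + (i : ℕ)
    have hQ : ∀ v, Q v ∈ Fintype.piFinset fun i => Sfin (D i) := by
      intro v
      rw [Fintype.mem_piFinset]
      intro i
      obtain ⟨-, a, ha⟩ := hc i v
      have h1 : Q v i = cyc (D i) a (At s t (cls f i) v).card := by
        show (At s t (cls f i) v).image (fun e => c i e % D i) = _
        unfold cyc
        rw [← ha, Finset.image_image]
        rfl
      rw [h1]
      exact cyc_mem (hD i v)
    have hΦ : ∀ v, (Finset.univ.filter fun e : Fin m => s e = v ∨ t e = v).image C = Φ (Q v) := by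
      intro v
      ext x
      rw [Finset.mem_image, Finset.mem_biUnion]
      constructor
      · rintro ⟨e, he, rfl⟩
        refine ⟨f e, Finset.mem_univ _, Finset.mem_image.2 ⟨c (f e) e % D (f e), ?_, rfl⟩⟩
        exact Finset.mem_image.2 ⟨e, Finset.mem_filter.2 ⟨Finset.mem_filter.2
          ⟨Finset.mem_univ _, rfl⟩, (Finset.mem_filter.1 he).2⟩, rfl⟩
      · rintro ⟨i, -, hi⟩
        obtain ⟨y, hy, rfl⟩ := Finset.mem_image.1 hi
        obtain ⟨e, he, rfl⟩ := Finset.mem_image.1 hy
        obtain ⟨he1, he2⟩ := Finset.mem_filter.1 he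
        have he3 : f e = i := (Finset.mem_filter.1 he1).2
        refine ⟨e, Finset.mem_filter.2 ⟨Finset.mem_univ _, he2⟩, ?_⟩
        show (c (f e) e % D (f e)) * k + (f e : ℕ) = (c i e % D i) * k + (i : ℕ)
        rw [he3]
    have h1 : ((Finset.univ : Finset (Fin n)).image fun v =>
        (Finset.univ.filter fun e : Fin m => s e = v ∨ t e = v).image C) ⊆
        (Fintype.piFinset fun i => Sfin (D i)).image Φ := by
      intro x hx
      obtain ⟨v, -, rfl⟩ := Finset.mem_image.1 hx
      exact Finset.mem_image.2 ⟨Q v, hQ v, (hΦ v).symm⟩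
    refine (Finset.card_le_card h1).trans (Finset.card_image_le.trans ?_)
    rw [Fintype.card_piFinset]
    exact Finset.prod_le_prod' fun i _ => card_Sfin (D i)

end Pool.Agent.H249.Pal
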