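import Pool.Graph.R_seed8.Helper635.LLL
import Pool.Agent.H249.Pal.Gen

/-!
# Random bipartitions
-/

set_option autoImplicit false

open Finset
open Pool.Agent.Helper635.LLL

namespace Pool.Agent.H249.Pal.Rnd

/-- signs -/
noncomputable def sg (b : Bool) : ℝ := if b = true then 1 else -1

theorem expsum {n : ℕ} (w : Fin n → ℝ) (l : ℝ) :
    ∑ ω : Fin n → Bool, Real.exp (l * ∑ u, w u * sg (ω u)) ≤
      2 ^ n * Real.exp (l ^ 2 * (∑ u, w u ^ 2) / 2) := by
  have h1 : ∀ ω : Fin n → Bool, Real.exp (l * ∑ u, w u * sg (ω u)) =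
      ∏ u, Real.exp (l * (w u * sg (ω u))) := by
    intro ω
    rw [Finset.mul_sum, Real.exp_sum]
  have h2 : ∑ ω : Fin n → Bool, ∏ u, Real.exp (l * (w u * sg (ω u))) =
      ∏ u, ∑ b : Bool, Real.exp (l * (w u * sg b)) := by
    rw [Finset.prod_univ_sum, Fintype.piFinset_univ]
  rw [Finset.sum_congr rfl fun ω _ => h1 ω, h2]
  have h3 : ∀ u, ∑ b : Bool, Real.exp (l * (w u * sg b)) ≤ 2 * Real.exp ((l * w u) ^ 2 / 2) := by
    intro u
    have h4 : ∑ b : Bool, Real.exp (l * (w u * sg b)) = 2 * Real.cosh (l * w u) := by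
      rw [Fintype.sum_bool, Real.cosh_eq]
      have e1 : l * (w u * sg true) = l * w u := by simp [sg]
      have e2 : l * (w u * sg false) = -(l * w u) := by simp [sg]
      rw [e1, e2]
      ring
    rw [h4]
    exact mul_le_mul_of_nonneg_left (Real.cosh_le_exp_half_sq _) (by norm_num)
  refine (Finset.prod_le_prod (fun u _ => Finset.sum_nonneg fun b _ => (Real.exp_pos _).le)
    fun u _ => h3 u).trans (le_of_eq ?_)
  rw [Finset.prod_mul_distrib, Finset.prod_const, Finset.card_univ, Fintype.card_fin, ← Real.exp_sum]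
  congr 2
  rw [Finset.mul_sum, Finset.sum_div]
  refine Finset.sum_congr rfl fun u _ => ?_
  ring

theorem tail {n : ℕ} (w : Fin n → ℝ) (l a S : ℝ) (hl : 0 ≤ l) (hS : ∑ u, w u ^ 2 ≤ S) :
    (cnt (fun ω : Fin n → Bool => a < |∑ u, w u * sg (ω u)|) : ℝ) ≤
      (2 * Real.exp (l ^ 2 * S / 2 - l * a)) * Fintype.card (Fin n → Bool) := by
  classical
  have hcard : (Fintype.card (Fin n → Bool) : ℝ) = 2 ^ n := by
    rw [Fintype.card_fun, Fintype.card_bool, Fintype.card_fin]
    push_cast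
    rfl
  have h1 : (cnt (fun ω : Fin n → Bool => a < |∑ u, w u * sg (ω u)|) : ℝ) * Real.exp (l * a) ≤
      ∑ ω : Fin n → Bool, (Real.exp (l * ∑ u, w u * sg (ω u)) +
        Real.exp ((-l) * ∑ u, w u * sg (ω u))) := by
    have h2 : (cnt (fun ω : Fin n → Bool => a < |∑ u, w u * sg (ω u)|) : ℝ) * Real.exp (l * a) =
        ∑ ω ∈ ev (fun ω : Fin n → Bool => a < |∑ u, w u * sg (ω u)|), Real.exp (l * a) := by
      rw [Finset.sum_const, nsmul_eq_mul]
      rfl
    rw [h2]
    refine (Finset.sum_le_sum fun ω hω => ?_).trans (Finset.sum_le_sum_of_subset_of_nonneg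
      (Finset.subset_univ _) fun ω _ _ => add_nonneg (Real.exp_pos _).le (Real.exp_pos _).le)
    have h3 := mem_ev.1 hω
    rcases abs_cases (∑ u, w u * sg (ω u)) with ⟨h4, _⟩ | ⟨h4, _⟩
    · rw [h4] at h3
      have h5 : Real.exp (l * a) ≤ Real.exp (l * ∑ u, w u * sg (ω u)) :=
        Real.exp_le_exp.2 (mul_le_mul_of_nonneg_left h3.le hl)
      have := Real.exp_pos ((-l) * ∑ u, w u * sg (ω u))
      linarith
    · rw [h4] at h3
      have h5 : Real.exp (l * a) ≤ Real.exp ((-l) * ∑ u, w u * sg (ω u)) := by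
        refine Real.exp_le_exp.2 ?_
        have := mul_le_mul_of_nonneg_left h3.le hl
        linarith
      have := Real.exp_pos (l * ∑ u, w u * sg (ω u))
      linarith
  rw [Finset.sum_add_distrib] at h1
  have h2 := expsum w l
  have h3 := expsum w (-l)
  have h4 : Real.exp (l ^ 2 * (∑ u, w u ^ 2) / 2) ≤ Real.exp (l ^ 2 * S / 2) := by
    refine Real.exp_le_exp.2 ?_
    have := mul_le_mul_of_nonneg_left hS (sq_nonneg l)
    linarith
  rw [neg_sq] at h3
  have h5 : (cnt (fun ω : Fin n → Bool => a < |∑ u, w u * sg (ω u)|) : ℝ) * Real.exp (l * a) ≤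
      2 * (2 ^ n * Real.exp (l ^ 2 * S / 2)) := by
    have h6 : (2 : ℝ) ^ n * Real.exp (l ^ 2 * (∑ u, w u ^ 2) / 2) ≤ 2 ^ n * Real.exp (l ^ 2 * S / 2) :=
      mul_le_mul_of_nonneg_left h4 (by positivity)
    linarith
  rw [hcard, Real.exp_sub]
  have h6 := Real.exp_pos (l * a)
  rw [show 2 * (Real.exp (l ^ 2 * S / 2) / Real.exp (l * a)) * 2 ^ n =
    (2 * (2 ^ n * Real.exp (l ^ 2 * S / 2))) / Real.exp (l * a) by ring]
  rw [le_div_iff₀ h6]
  exact h5

/-- the size function of the multiplicity -/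
noncomputable def LL (μ : ℕ) : ℝ := (μ : ℝ) * (1 + Real.log μ)

theorem one_le_LL {μ : ℕ} (hμ : 0 < μ) : 1 ≤ LL μ := by
  have h1 : (1 : ℝ) ≤ μ := by exact_mod_cast hμ
  have h2 : 0 ≤ Real.log μ := Real.log_nonneg h1
  unfold LL
  nlinarith

theorem small (δ : ℝ) (hδ : 0 < δ) : ∃ K : ℝ, 0 < K ∧ ∀ μ : ℕ, 0 < μ → ∀ D : ℕ, K * LL μ ≤ D →
    4 * (2 * Real.exp (-(2 * δ ^ 2 / μ * D))) * ((D * D : ℕ) : ℝ) ≤ 1 := by
  refine ⟨(1 / δ ^ 2) * (Real.log 8 + 2 * |Real.log (2 / δ ^ 2)| + 2), ?_, ?_⟩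
  · have h1 : 0 < Real.log 8 := Real.log_pos (by norm_num)
    positivity
  intro μ hμ D hD
  have hμ' : (1 : ℝ) ≤ μ := by exact_mod_cast hμ
  have hμ0 : (0 : ℝ) < μ := by linarith
  have hlμ : 0 ≤ Real.log μ := Real.log_nonneg hμ'
  have h8 : 0 < Real.log 8 := Real.log_pos (by norm_num)
  have hL := one_le_LL hμ
  have hK : 0 < (1 / δ ^ 2) * (Real.log 8 + 2 * |Real.log (2 / δ ^ 2)| + 2) := by positivity
  have hD0 : (0 : ℝ) < D := lt_of_lt_of_le (mul_pos hK (by linarith)) hD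
  obtain ⟨y, hy⟩ : ∃ y : ℝ, y = δ ^ 2 / (2 * μ) * D := ⟨_, rfl⟩
  have hy0 : 0 < y := by
    rw [hy]
    positivity
  have hDy : (D : ℝ) = y * (2 / δ ^ 2 * μ) := by
    rw [hy]
    field_simp
  have h1 : Real.log D ≤ y + Real.log (2 / δ ^ 2) + Real.log μ := by
    rw [hDy, Real.log_mul hy0.ne' (by positivity), Real.log_mul (by positivity) hμ0.ne']
    have := Real.log_le_sub_one_of_pos hy0
    linarith
  -- `log 8 + 2 * log (2 / δ ^ 2) + 2 * log μ ≤ 2 * y`
  have h2 : Real.log 8 + 2 * Real.log (2 / δ ^ 2) + 2 * Real.log μ ≤ 2 * y := by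
    have h3 : (Real.log 8 + 2 * |Real.log (2 / δ ^ 2)| + 2) * (1 + Real.log μ) ≤ 2 * y := by
      have h4 : (1 / δ ^ 2) * (Real.log 8 + 2 * |Real.log (2 / δ ^ 2)| + 2) * LL μ * (δ ^ 2 / μ) ≤
          D * (δ ^ 2 / μ) := mul_le_mul_of_nonneg_right hD (by positivity)
      have h5 : (1 / δ ^ 2) * (Real.log 8 + 2 * |Real.log (2 / δ ^ 2)| + 2) * LL μ * (δ ^ 2 / μ) =
          (Real.log 8 + 2 * |Real.log (2 / δ ^ 2)| + 2) * (1 + Real.log μ) := by
        unfold LL
        field_simp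
      have h6 : D * (δ ^ 2 / μ) = 2 * y := by
        rw [hy]
        field_simp
      rw [h5, h6] at h4
      exact h4
    have h4 := le_abs_self (Real.log (2 / δ ^ 2))
    have h5 := abs_nonneg (Real.log (2 / δ ^ 2))
    nlinarith
  have h4 : 8 * (D : ℝ) ^ 2 ≤ Real.exp (2 * δ ^ 2 / μ * D) := by
    rw [← Real.log_le_iff_le_exp (by positivity), Real.log_mul (by norm_num) (by positivity),
      Real.log_pow]
    have h5 : 2 * δ ^ 2 / μ * D = 4 * y := by
      rw [hy]
      field_simp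
      ring
    rw [h5]
    push_cast
    linarith
  rw [Real.exp_neg]
  push_cast
  have h6 := Real.exp_pos (2 * δ ^ 2 / μ * D)
  rw [show 4 * (2 * (Real.exp (2 * δ ^ 2 / μ * D))⁻¹) * ((D : ℝ) * D) =
    (8 * (D : ℝ) ^ 2) / Real.exp (2 * δ ^ 2 / μ * D) by
    rw [div_eq_mul_inv]; ring]
  rw [div_le_one h6]
  exact h4

theorem lllB {n : ℕ} (B : Fin n → (Fin n → Bool) → Prop) (S : Fin n → Finset (Fin n))
    (hB : ∀ i, Pool.Agent.Helper635.LLL.DependsOn (B i) (S i)) (p : ℝ) (d : ℕ) (hp0 : 0 ≤ p)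
    (hp : ∀ i, (cnt (B i) : ℝ) ≤ p * Fintype.card (Fin n → Bool))
    (hd : ∀ i, ((Finset.univ : Finset (Fin n)).filter fun j => ¬ Disjoint (S i) (S j)).card ≤ d)
    (h4 : 4 * p * (d : ℕ) ≤ 1) (hd1 : 1 ≤ d) : ∃ ω : Fin n → Bool, ∀ i, ¬ B i ω := by
  have hcc : ∀ (i1 i2 : Fintype (Fin n → Bool)), (@Fintype.card _ i1 : ℝ) = (@Fintype.card _ i2 : ℝ) :=
    fun i1 i2 => by rw [Subsingleton.elim i1 i2]
  have hpos : ∀ i1 : Fintype (Fin n → Bool), 0 < @Fintype.card _ i1 :=
    fun i1 => @Fintype.card_pos _ i1 ⟨fun _ => true⟩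
  obtain ⟨ω, hω⟩ := lll (T := Fin n) (C := Bool) (Finset.univ : Finset (Fin n)) B S (fun i _ => hB i) p d hp0
    (fun i _ => (hp i).trans (le_of_eq (congrArg (fun x => p * x) (hcc _ _))))
    (fun i _ => by
      refine le_trans (le_of_eq ?_) (hd i)
      congr 1
      ext j
      simp only [Finset.mem_filter])
    h4 hd1 (hpos _)
  exact ⟨ω, fun i => hω i (Finset.mem_univ _)⟩

variable {n m : ℕ}

/-- the other end of an edge at `v` -/
def oth (s t : Fin m → Fin n) (v : Fin n) (e : Fin m) : Fin n := if s e = v then t e else s e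

/-- the edges at a vertex -/
def Av (s t : Fin m → Fin n) (v : Fin n) : Finset (Fin m) :=
  Finset.univ.filter fun e => s e = v ∨ t e = v

theorem mem_Av {s t : Fin m → Fin n} {v : Fin n} {e : Fin m} : e ∈ Av s t v ↔ s e = v ∨ t e = v := by
  unfold Av
  rw [Finset.mem_filter]
  exact ⟨fun h => h.2, fun h => ⟨Finset.mem_univ _, h⟩⟩

theorem oth_spec {s t : Fin m → Fin n} {v : Fin n} {e : Fin m} (he : e ∈ Av s t v) :
    (s e = v ∧ t e = oth s t v e) ∨ (t e = v ∧ s e = oth s t v e) := by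
  unfold oth
  by_cases h : s e = v
  · rw [if_pos h]
    exact Or.inl ⟨h, rfl⟩
  · rw [if_neg h]
    rcases mem_Av.1 he with h1 | h1
    · exact absurd h1 h
    · exact Or.inr ⟨h1, rfl⟩

theorem splitRnd (δ : ℝ) (hδ : 0 < δ) (μ : ℕ) (hμ : 0 < μ) (D : ℕ) (hDpos : 0 < D)
    (hD0 : 4 * (2 * Real.exp (-(2 * δ ^ 2 / μ * D))) * ((D * D : ℕ) : ℝ) ≤ 1)
    (s t : Fin m → Fin n) (hst : ∀ e, s e ≠ t e)
    (hmul : ∀ u v, (Finset.univ.filter fun e => (s e = u ∧ t e = v) ∨ (s e = v ∧ t e = u)).card ≤ μ)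
    (hdeg : ∀ v, (Av s t v).card ≤ D) :
    ∃ X : Fin n → Bool, ∀ v,
      (((Av s t v).filter fun e => X (s e) = X (t e)).card : ℝ) ≤ (1 / 2 + δ) * D ∧
      (((Av s t v).filter fun e => ¬ X (s e) = X (t e)).card : ℝ) ≤ (1 / 2 + δ) * D := by
  have hμ' : (0 : ℝ) < μ := by exact_mod_cast hμ
  classical
  -- the weights
  let w : Fin n → Fin n → ℝ := fun v u => (((Av s t v).filter fun e => oth s t v e = u).card : ℝ)
  have hwle : ∀ v u, w v u ≤ μ := by
    intro v u
    have h1 : ((Av s t v).filter fun e => oth s t v e = u).card ≤ μ := by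
      refine (Finset.card_le_card fun e he => ?_).trans (hmul v u)
      obtain ⟨h1, h2⟩ := Finset.mem_filter.1 he
      refine Finset.mem_filter.2 ⟨Finset.mem_univ _, ?_⟩
      rcases oth_spec h1 with h3 | h3
      · exact Or.inl ⟨h3.1, h3.2.trans h2⟩
      · exact Or.inr ⟨h3.2.trans h2, h3.1⟩
    exact Nat.cast_le.2 h1
  have hwsum : ∀ v, ∑ u, w v u ≤ D := by
    intro v
    have h1 : ∑ u, ((Av s t v).filter fun e => oth s t v e = u).card = (Av s t v).card :=
      (Finset.card_eq_sum_card_fiberwise (f := oth s t v) (t := Finset.univ)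
        (fun _ _ => Finset.mem_univ _)).symm
    have h2 : ∑ u, w v u = ((Av s t v).card : ℝ) := by
      rw [← h1]
      push_cast
      rfl
    rw [h2]
    exact_mod_cast hdeg v
  have hwsq : ∀ v, ∑ u, w v u ^ 2 ≤ μ * D := by
    intro v
    have h1 : ∑ u, w v u ^ 2 ≤ ∑ u, (μ : ℝ) * w v u := by
      refine Finset.sum_le_sum fun u _ => ?_
      rw [sq]
      exact mul_le_mul_of_nonneg_right (hwle v u) (Nat.cast_nonneg _)
    rw [← Finset.mul_sum] at h1
    exact h1.trans (mul_le_mul_of_nonneg_left (hwsum v) hμ'.le)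
  -- the local lemma
  let S : Fin n → Finset (Fin n) := fun v => (Av s t v).image (oth s t v)
  let B : Fin n → (Fin n → Bool) → Prop := fun v ω => 2 * δ * D < |∑ u, w v u * sg (ω u)|
  have hw0 : ∀ v u, u ∉ S v → w v u = 0 := by
    intro v u hu
    have h1 : ((Av s t v).filter fun e => oth s t v e = u) = ∅ := by
      rw [Finset.filter_eq_empty_iff]
      intro e he h
      exact hu (Finset.mem_image.2 ⟨e, he, h⟩)
    show (((Av s t v).filter fun e => oth s t v e = u).card : ℝ) = 0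
    rw [h1, Finset.card_empty, Nat.cast_zero]
  have hB : ∀ v, Pool.Agent.Helper635.LLL.DependsOn (B v) (S v) := by
    intro v ω ω' h hω
    have h1 : ∑ u, w v u * sg (ω' u) = ∑ u, w v u * sg (ω u) := by
      refine Finset.sum_congr rfl fun u _ => ?_
      by_cases hu : u ∈ S v
      · rw [h u hu]
      · rw [hw0 v u hu, zero_mul, zero_mul]
    show 2 * δ * D < |∑ u, w v u * sg (ω' u)|
    rw [h1]
    exact hω
  have hp : ∀ v, (cnt (B v) : ℝ) ≤
      (2 * Real.exp (-(2 * δ ^ 2 / μ * D))) * Fintype.card (Fin n → Bool) := by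
    intro v
    have h1 := tail (w v) (2 * δ / μ) (2 * δ * D) (μ * D) (by positivity) (hwsq v)
    have h2 : (2 * δ / μ) ^ 2 * (μ * D) / 2 - 2 * δ / μ * (2 * δ * D) = -(2 * δ ^ 2 / μ * D) := by
      field_simp
      ring
    rw [h2] at h1
    exact h1
  have hSc : ∀ v, (S v).card ≤ D := fun v => Finset.card_image_le.trans (hdeg v)
  have hSs : ∀ u v, u ∈ S v → v ∈ S u := by
    intro u v h
    obtain ⟨e, he, h1⟩ := Finset.mem_image.1 h
    refine Finset.mem_image.2 ⟨e, ?_, ?_⟩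
    · rcases oth_spec he with h3 | h3
      · exact mem_Av.2 (Or.inr (h3.2.trans h1))
      · exact mem_Av.2 (Or.inl (h3.2.trans h1))
    · unfold oth
      rcases oth_spec he with h3 | h3
      · have h4 : ¬ s e = u := by
          rw [← h1, ← h3.2]
          exact hst e
        rw [if_neg h4]
        exact h3.1
      · rw [if_pos (h3.2.trans h1)]
        exact h3.1
  have hd : ∀ v,
      ((Finset.univ : Finset (Fin n)).filter (fun j => ¬ Disjoint (S v) (S j))).card ≤ D * D := by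
    intro v
    have h1 : ((Finset.univ : Finset (Fin n)).filter (fun j => ¬ Disjoint (S v) (S j))) ⊆
        (S v).biUnion S := by
      intro j hj
      have h2 := (Finset.mem_filter.1 hj).2
      rw [Finset.not_disjoint_iff] at h2
      obtain ⟨u, hu, hu'⟩ := h2
      exact Finset.mem_biUnion.2 ⟨u, hu, hSs u j hu'⟩
    refine (Finset.card_le_card h1).trans ((Finset.card_biUnion_le_card_mul _ _ D fun u _ => hSc u).trans ?_)
    exact Nat.mul_le_mul_right D (hSc v)
  obtain ⟨X, hX⟩ := lllB B S hB (2 * Real.exp (-(2 * δ ^ 2 / μ * D))) (D * D) (by positivity) hp hd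
    hD0 (Nat.mul_pos hDpos hDpos)
  refine ⟨X, fun v => ?_⟩
  have h1 : ¬ (2 * δ * D < |∑ u, w v u * sg (X u)|) := hX v
  -- the sum is the difference of the two degrees
  have h2 : ∑ u, w v u * sg (X u) = ∑ e ∈ Av s t v, sg (X (oth s t v e)) := by
    rw [← Finset.sum_fiberwise (Av s t v) (oth s t v) fun e => sg (X (oth s t v e))]
    refine Finset.sum_congr rfl fun u _ => ?_
    rw [Finset.sum_congr rfl fun e he => by rw [(Finset.mem_filter.1 he).2], Finset.sum_const,
      nsmul_eq_mul]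
  have h3 : sg (X v) * ∑ e ∈ Av s t v, sg (X (oth s t v e)) =
      (((Av s t v).filter fun e => X (s e) = X (t e)).card : ℝ) -
        (((Av s t v).filter fun e => ¬ X (s e) = X (t e)).card : ℝ) := by
    rw [Finset.card_filter, Finset.card_filter, Finset.mul_sum]
    push_cast
    rw [← Finset.sum_sub_distrib]
    refine Finset.sum_congr rfl fun e he => ?_
    have h4 : X (s e) = X (t e) ↔ X v = X (oth s t v e) := by
      rcases oth_spec he with h | h
      · rw [h.1, h.2]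
      · rw [h.1, h.2]
        exact eq_comm
    by_cases h5 : X (s e) = X (t e)
    · rw [if_pos h5, if_neg (not_not.2 h5), ← h4.1 h5]
      unfold sg
      by_cases h6 : X v = true
      · rw [if_pos h6]; norm_num
      · rw [if_neg h6]; norm_num
    · rw [if_neg h5, if_pos h5]
      have h6 : ¬ X v = X (oth s t v e) := fun h => h5 (h4.2 h)
      unfold sg
      cases h7 : X v <;> cases h8 : X (oth s t v e)
      · rw [h7, h8] at h6
        exact absurd rfl h6
      · norm_num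
      · norm_num
      · rw [h7, h8] at h6
        exact absurd rfl h6
  have h4 : |∑ u, w v u * sg (X u)| = |(((Av s t v).filter fun e => X (s e) = X (t e)).card : ℝ) -
        (((Av s t v).filter fun e => ¬ X (s e) = X (t e)).card : ℝ)| := by
    rw [← h3, h2, abs_mul]
    have h5 : |sg (X v)| = 1 := by
      unfold sg
      by_cases h6 : X v = true
      · rw [if_pos h6]; norm_num
      · rw [if_neg h6]; norm_num
    rw [h5, one_mul]
  rw [h4, not_lt, abs_le] at h1
  have h5 : (((Av s t v).filter fun e => X (s e) = X (t e)).card : ℝ) +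
        (((Av s t v).filter fun e => ¬ X (s e) = X (t e)).card : ℝ) ≤ D := by
    have h6 := Finset.card_filter_add_card_filter_not (s := Av s t v) (fun e => X (s e) = X (t e))
    have h7 : ((Av s t v).filter fun e => X (s e) = X (t e)).card +
        ((Av s t v).filter fun e => ¬ X (s e) = X (t e)).card ≤ D := by
      rw [h6]
      exact hdeg v
    exact_mod_cast h7
  constructor <;> linarith [h1.1, h1.2]

end Pool.Agent.H249.Pal.Rnd
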