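import Pool.Graph.R_seed8.QCube.Lll
import Pool.Agent.H249.Pal.Fold

/-!
# Random shifts
-/

set_option autoImplicit false

open Finset
open Pool.Agent.Helper635.LLL

namespace Pool.Agent.H249.Pal.Rnd

theorem small' (δ R : ℝ) (hδ : 0 < δ) (hR : 1 ≤ R) : ∃ K : ℝ, 0 < K ∧ ∀ μ : ℕ, 0 < μ → ∀ D : ℕ,
    K * LL μ ≤ D → 4 * (R * Real.exp (-(2 * δ ^ 2 / μ * D))) * ((D * D : ℕ) : ℝ) ≤ 1 := by
  refine ⟨(1 / δ ^ 2) * (Real.log (4 * R) + 2 * |Real.log (2 / δ ^ 2)| + 2), ?_, ?_⟩
  · have h1 : 0 < Real.log (4 * R) := Real.log_pos (by linarith)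
    positivity
  intro μ hμ D hD
  have hμ' : (1 : ℝ) ≤ μ := by exact_mod_cast hμ
  have hμ0 : (0 : ℝ) < μ := by linarith
  have hlμ : 0 ≤ Real.log μ := Real.log_nonneg hμ'
  have h8 : 0 < Real.log (4 * R) := Real.log_pos (by linarith)
  have hL := one_le_LL hμ
  have hK : 0 < (1 / δ ^ 2) * (Real.log (4 * R) + 2 * |Real.log (2 / δ ^ 2)| + 2) := by positivity
  have hD0 : (0 : ℝ) < D := lt_of_lt_of_le (mul_pos hK (by linarith)) hD
  obtain ⟨y, hy⟩ : ∃ y : ℝ, y = δ ^ 2 / (2 * μ) * D := ⟨_, rfl⟩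
  have hy0 : 0 < y := by
    rw [hy]
    positivity
  have hDy : (D : ℝ) = y * (2 / δ ^ 2 * μ) := by
    rw [hy]
    field_simp
  have h1 : Real.log D ≤ y + Real.log (2 / δ ^ 2) + Real.log μ := by
    rw [hDy, Real.log_mul hy0.ne' (by positivity), Real.log_mul (by positivity) hμ0.ne']
    have := Real.log_le_sub_one_of_pos hy0
    linarith
  have h2 : Real.log (4 * R) + 2 * Real.log (2 / δ ^ 2) + 2 * Real.log μ ≤ 2 * y := by
    have h3 : (Real.log (4 * R) + 2 * |Real.log (2 / δ ^ 2)| + 2) * (1 + Real.log μ) ≤ 2 * y := by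
      have h4 : (1 / δ ^ 2) * (Real.log (4 * R) + 2 * |Real.log (2 / δ ^ 2)| + 2) * LL μ * (δ ^ 2 / μ) ≤
          D * (δ ^ 2 / μ) := mul_le_mul_of_nonneg_right hD (by positivity)
      have h5 : (1 / δ ^ 2) * (Real.log (4 * R) + 2 * |Real.log (2 / δ ^ 2)| + 2) * LL μ * (δ ^ 2 / μ) =
          (Real.log (4 * R) + 2 * |Real.log (2 / δ ^ 2)| + 2) * (1 + Real.log μ) := by
        unfold LL
        field_simp
      have h6 : D * (δ ^ 2 / μ) = 2 * y := by
        rw [hy]
        field_simp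
      rw [h5, h6] at h4
      exact h4
    have h4 := le_abs_self (Real.log (2 / δ ^ 2))
    have h5 := abs_nonneg (Real.log (2 / δ ^ 2))
    nlinarith
  have h4 : 4 * R * (D : ℝ) ^ 2 ≤ Real.exp (2 * δ ^ 2 / μ * D) := by
    rw [← Real.log_le_iff_le_exp (by positivity), Real.log_mul (by positivity) (by positivity),
      Real.log_pow]
    have h5 : 2 * δ ^ 2 / μ * D = 4 * y := by
      rw [hy]
      field_simp
      ring
    rw [h5]
    push_cast
    linarith
  rw [Real.exp_neg]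
  push_cast
  have h6 := Real.exp_pos (2 * δ ^ 2 / μ * D)
  rw [show 4 * (R * (Real.exp (2 * δ ^ 2 / μ * D))⁻¹) * ((D : ℝ) * D) =
    (4 * R * (D : ℝ) ^ 2) / Real.exp (2 * δ ^ 2 / μ * D) by
    rw [div_eq_mul_inv]; ring]
  rw [div_le_one h6]
  exact h4

/-- the centred indicator -/
noncomputable def ci {r : ℕ} (x c : Fin r) : ℝ := (if c = x then 1 else 0) - 1 / (r : ℝ)

theorem expsumR {n r : ℕ} (hr : 0 < r) (x : Fin r) (w : Fin n → ℝ) (l : ℝ) :
    ∑ ω : Fin n → Fin r, Real.exp (l * ∑ u, w u * ci x (ω u)) ≤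
      (r : ℝ) ^ n * Real.exp (l ^ 2 * (∑ u, w u ^ 2) / 2) := by
  have hr' : (0 : ℝ) < r := by exact_mod_cast hr
  have : Nonempty (Fin r) := ⟨⟨0, hr⟩⟩
  have h1 : ∀ ω : Fin n → Fin r, Real.exp (l * ∑ u, w u * ci x (ω u)) =
      ∏ u, Real.exp (l * (w u * ci x (ω u))) := by
    intro ω
    rw [Finset.mul_sum, Real.exp_sum]
  have h2 : ∑ ω : Fin n → Fin r, ∏ u, Real.exp (l * (w u * ci x (ω u))) =
      ∏ u, ∑ b : Fin r, Real.exp (l * (w u * ci x b)) := by
    rw [Finset.prod_univ_sum, Fintype.piFinset_univ]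
  rw [Finset.sum_congr rfl fun ω _ => h1 ω, h2]
  have h3 : ∀ u, ∑ b : Fin r, Real.exp (l * (w u * ci x b)) ≤ r * Real.exp ((l * w u) ^ 2 / 2) := by
    intro u
    have h4 := Pool.Agent.QCube.exp_one (fun b : Fin r => ci x b) 1 (by norm_num)
      (by
        unfold ci
        rw [Finset.sum_sub_distrib, Finset.sum_ite_eq' Finset.univ x fun _ => (1 : ℝ),
          if_pos (Finset.mem_univ _), Finset.sum_const, Finset.card_univ, Fintype.card_fin, nsmul_eq_mul]
        field_simp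
        ring)
      (by
        intro v v'
        unfold ci
        rw [sub_sub_sub_cancel_right]
        by_cases h : v = x <;> by_cases h' : v' = x <;> simp [h, h'])
      (l * w u)
    rw [Fintype.card_fin] at h4
    refine le_trans (le_of_eq ?_) (h4.trans (le_of_eq ?_))
    · refine Finset.sum_congr rfl fun b _ => ?_
      rw [mul_assoc]
    · rw [one_pow, mul_one]
  refine (Finset.prod_le_prod (fun u _ => Finset.sum_nonneg fun b _ => (Real.exp_pos _).le)
    fun u _ => h3 u).trans (le_of_eq ?_)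
  rw [Finset.prod_mul_distrib, Finset.prod_const, Finset.card_univ, Fintype.card_fin, ← Real.exp_sum]
  congr 2
  rw [Finset.mul_sum, Finset.sum_div]
  refine Finset.sum_congr rfl fun u _ => ?_
  ring

theorem tailR {n r : ℕ} (hr : 0 < r) (x : Fin r) (w : Fin n → ℝ) (l a S : ℝ) (hl : 0 ≤ l)
    (hS : ∑ u, w u ^ 2 ≤ S) :
    (cnt (fun ω : Fin n → Fin r => a < ∑ u, w u * ci x (ω u)) : ℝ) ≤
      Real.exp (l ^ 2 * S / 2 - l * a) * (r : ℝ) ^ n := by
  classical
  have h1 : (cnt (fun ω : Fin n → Fin r => a < ∑ u, w u * ci x (ω u)) : ℝ) * Real.exp (l * a) ≤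
      ∑ ω : Fin n → Fin r, Real.exp (l * ∑ u, w u * ci x (ω u)) := by
    have h2 : (cnt (fun ω : Fin n → Fin r => a < ∑ u, w u * ci x (ω u)) : ℝ) * Real.exp (l * a) =
        ∑ ω ∈ ev (fun ω : Fin n → Fin r => a < ∑ u, w u * ci x (ω u)), Real.exp (l * a) := by
      rw [Finset.sum_const, nsmul_eq_mul]
      rfl
    rw [h2]
    refine (Finset.sum_le_sum fun ω hω => ?_).trans (Finset.sum_le_sum_of_subset_of_nonneg
      (Finset.subset_univ _) fun ω _ _ => (Real.exp_pos _).le)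
    exact Real.exp_le_exp.2 (mul_le_mul_of_nonneg_left (mem_ev.1 hω).le hl)
  have h2 := expsumR hr x w l
  have h4 : Real.exp (l ^ 2 * (∑ u, w u ^ 2) / 2) ≤ Real.exp (l ^ 2 * S / 2) := by
    refine Real.exp_le_exp.2 ?_
    have := mul_le_mul_of_nonneg_left hS (sq_nonneg l)
    linarith
  have h5 := h1.trans (h2.trans (mul_le_mul_of_nonneg_left h4 (by positivity : (0 : ℝ) ≤ (r : ℝ) ^ n)))
  rw [Real.exp_sub]
  have h6 := Real.exp_pos (l * a)
  rw [show Real.exp (l ^ 2 * S / 2) / Real.exp (l * a) * (r : ℝ) ^ n =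
    ((r : ℝ) ^ n * Real.exp (l ^ 2 * S / 2)) / Real.exp (l * a) by ring]
  rw [le_div_iff₀ h6]
  exact h5

theorem lllR {n r : ℕ} (hr : 0 < r) (B : Fin n → (Fin n → Fin r) → Prop) (S : Fin n → Finset (Fin n))
    (hB : ∀ i, Pool.Agent.Helper635.LLL.DependsOn (B i) (S i)) (p : ℝ) (d : ℕ) (hp0 : 0 ≤ p)
    (hp : ∀ i, (cnt (B i) : ℝ) ≤ p * (r : ℝ) ^ n)
    (hd : ∀ i, ((Finset.univ : Finset (Fin n)).filter fun j => ¬ Disjoint (S i) (S j)).card ≤ d)
    (h4 : 4 * p * (d : ℕ) ≤ 1) (hd1 : 1 ≤ d) : ∃ ω : Fin n → Fin r, ∀ i, ¬ B i ω := by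
  have hcc : ∀ i1 : Fintype (Fin n → Fin r), (@Fintype.card _ i1 : ℝ) = (r : ℝ) ^ n := by
    intro i1
    have h1 : @Fintype.card _ i1 = r ^ n := by
      rw [← @Nat.card_eq_fintype_card _ i1, Nat.card_fun, Nat.card_fin, Nat.card_fin]
    rw [h1]
    push_cast
    rfl
  have hpos : ∀ i1 : Fintype (Fin n → Fin r), 0 < @Fintype.card _ i1 :=
    fun i1 => @Fintype.card_pos _ i1 ⟨fun _ => ⟨0, hr⟩⟩
  obtain ⟨ω, hω⟩ := lll (T := Fin n) (C := Fin r) (Finset.univ : Finset (Fin n)) B S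
    (fun i _ => hB i) p d hp0
    (fun i _ => (hp i).trans (le_of_eq (congrArg (fun x => p * x) (hcc _).symm)))
    (fun i _ => by
      refine le_trans (le_of_eq ?_) (hd i)
      congr 1
      ext j
      simp only [Finset.mem_filter])
    h4 hd1 (hpos _)
  exact ⟨ω, fun i => hω i (Finset.mem_univ _)⟩

variable {n m : ℕ}

/-- balanced shifts -/
theorem balR (r : ℕ) (hr : 0 < r) (η : ℝ) (hη : 0 < η) : ∃ K : ℝ, 0 < K ∧ ∀ μ : ℕ, 0 < μ → ∀ D : ℕ,
    K * LL μ ≤ D → ∀ (n m : ℕ) (s t : Fin m → Fin n), (∀ e, s e ≠ t e) → MulLe s t μ →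
    (∀ v, (Av s t v).card ≤ D) → ∀ kk : Fin n → Fin (r + 1), ∃ ω : Fin n → Fin r,
    ∀ (u : Fin n) (k : Fin (r + 1)) (x : Fin r),
      (((Av s t u).filter fun e => kk (oth s t u e) = k ∧ ω (oth s t u e) = x).card : ℝ) ≤
        (((Av s t u).filter fun e => kk (oth s t u e) = k).card : ℝ) / r + η * D := by
  have hr' : (1 : ℝ) ≤ r := by exact_mod_cast hr
  obtain ⟨K, hK0, hK⟩ := small' (η / 2) (((r : ℝ) + 1) * r) (by positivity) (by nlinarith)
  refine ⟨K, hK0, fun μ hμ D hDD n m s t hst hmul hdeg kk => ?_⟩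
  have hL := one_le_LL hμ
  have hDpos : 0 < D := by
    have h1 : (0 : ℝ) < D := lt_of_lt_of_le (mul_pos hK0 (by linarith)) hDD
    exact_mod_cast h1
  have hD0 := hK μ hμ D hDD
  have hμ' : (0 : ℝ) < μ := by exact_mod_cast hμ
  classical
  let w : Fin n → Fin (r + 1) → Fin n → ℝ := fun v k u =>
    (((Av s t v).filter fun e => oth s t v e = u ∧ kk (oth s t v e) = k).card : ℝ)
  have hwle : ∀ v k u, w v k u ≤ μ := by
    intro v k u
    have h1 : ((Av s t v).filter fun e => oth s t v e = u ∧ kk (oth s t v e) = k).card ≤ μ := by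
      refine (Finset.card_le_card fun e he => ?_).trans (hmul v u)
      obtain ⟨h1, h2, -⟩ := Finset.mem_filter.1 he
      refine Finset.mem_filter.2 ⟨Finset.mem_univ _, ?_⟩
      rcases oth_spec h1 with h3 | h3
      · exact Or.inl ⟨h3.1, h3.2.trans h2⟩
      · exact Or.inr ⟨h3.2.trans h2, h3.1⟩
    exact Nat.cast_le.2 h1
  -- fibres
  have hfib : ∀ v k (F : Fin n → ℝ), ∑ u, w v k u * F u =
      ∑ e ∈ (Av s t v).filter (fun e => kk (oth s t v e) = k), F (oth s t v e) := by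
    intro v k F
    rw [← Finset.sum_fiberwise ((Av s t v).filter fun e => kk (oth s t v e) = k) (oth s t v)
      fun e => F (oth s t v e)]
    refine Finset.sum_congr rfl fun u _ => ?_
    rw [Finset.sum_congr rfl fun e he => by rw [(Finset.mem_filter.1 he).2], Finset.sum_const,
      nsmul_eq_mul]
    have h9 : ((Av s t v).filter fun e => oth s t v e = u ∧ kk (oth s t v e) = k) =
        ((Av s t v).filter fun e => kk (oth s t v e) = k).filter fun e => oth s t v e = u := by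
      ext e
      rw [Finset.mem_filter, Finset.mem_filter, Finset.mem_filter]
      tauto
    show (((Av s t v).filter fun e => oth s t v e = u ∧ kk (oth s t v e) = k).card : ℝ) * F u = _
    rw [h9]
  have hwsum : ∀ v k, ∑ u, w v k u ≤ D := by
    intro v k
    have h1 := hfib v k fun _ => 1
    simp only [mul_one] at h1
    rw [h1, Finset.sum_const, nsmul_eq_mul, mul_one]
    exact_mod_cast (Finset.card_le_card (Finset.filter_subset _ _)).trans (hdeg v)
  have hwsq : ∀ v k, ∑ u, w v k u ^ 2 ≤ μ * D := by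
    intro v k
    have h1 : ∑ u, w v k u ^ 2 ≤ ∑ u, (μ : ℝ) * w v k u := by
      refine Finset.sum_le_sum fun u _ => ?_
      rw [sq]
      exact mul_le_mul_of_nonneg_right (hwle v k u) (Nat.cast_nonneg _)
    rw [← Finset.mul_sum] at h1
    exact h1.trans (mul_le_mul_of_nonneg_left (hwsum v k) hμ'.le)
  let S : Fin n → Finset (Fin n) := fun v => (Av s t v).image (oth s t v)
  let B : Fin n → (Fin n → Fin r) → Prop := fun v ω =>
    ∃ y : Fin (r + 1) × Fin r, η * D < ∑ u, w v y.1 u * ci y.2 (ω u)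
  have hw0 : ∀ v k u, u ∉ S v → w v k u = 0 := by
    intro v k u hu
    have h1 : ((Av s t v).filter fun e => oth s t v e = u ∧ kk (oth s t v e) = k) = ∅ := by
      rw [Finset.filter_eq_empty_iff]
      intro e he h
      exact hu (Finset.mem_image.2 ⟨e, he, h.1⟩)
    show (((Av s t v).filter fun e => oth s t v e = u ∧ kk (oth s t v e) = k).card : ℝ) = 0
    rw [h1, Finset.card_empty, Nat.cast_zero]
  have hB : ∀ v, Pool.Agent.Helper635.LLL.DependsOn (B v) (S v) := by
    intro v ω ω' h hω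
    obtain ⟨y, hy⟩ := hω
    refine ⟨y, lt_of_lt_of_eq hy (Finset.sum_congr rfl fun u _ => ?_)⟩
    by_cases hu : u ∈ S v
    · rw [h u hu]
    · rw [hw0 v y.1 u hu, zero_mul, zero_mul]
  have hp : ∀ v, (cnt (B v) : ℝ) ≤
      ((((r : ℝ) + 1) * r) * Real.exp (-(2 * (η / 2) ^ 2 / μ * D))) * (r : ℝ) ^ n := by
    intro v
    have h0 : cnt (B v) ≤ ∑ y : Fin (r + 1) × Fin r,
        cnt (fun ω : Fin n → Fin r => η * D < ∑ u, w v y.1 u * ci y.2 (ω u)) := by
      refine (Finset.card_le_card (?_ : ev (B v) ⊆ (Finset.univ : Finset (Fin (r + 1) × Fin r)).biUnion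
        fun y => ev (fun ω : Fin n → Fin r => η * D < ∑ u, w v y.1 u * ci y.2 (ω u)))).trans
        Finset.card_biUnion_le
      intro ω hω
      obtain ⟨y, hy⟩ := mem_ev.1 hω
      exact Finset.mem_biUnion.2 ⟨y, Finset.mem_univ _, mem_ev.2 hy⟩
    have h1 : ∀ y : Fin (r + 1) × Fin r,
        (cnt (fun ω : Fin n → Fin r => η * D < ∑ u, w v y.1 u * ci y.2 (ω u)) : ℝ) ≤
        Real.exp (-(2 * (η / 2) ^ 2 / μ * D)) * (r : ℝ) ^ n := by
      intro y
      have h1 := tailR hr y.2 (w v y.1) (η / μ) (η * D) (μ * D) (by positivity) (hwsq v y.1)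
      have h2 : (η / μ) ^ 2 * (μ * D) / 2 - η / μ * (η * D) = -(2 * (η / 2) ^ 2 / μ * D) := by
        field_simp
        ring
      rw [h2] at h1
      exact h1
    have h2 : (cnt (B v) : ℝ) ≤ ∑ y : Fin (r + 1) × Fin r,
        (cnt (fun ω : Fin n → Fin r => η * D < ∑ u, w v y.1 u * ci y.2 (ω u)) : ℝ) := by
      exact_mod_cast h0
    refine h2.trans ((Finset.sum_le_sum fun y _ => h1 y).trans (le_of_eq ?_))
    rw [Finset.sum_const, Finset.card_univ, Fintype.card_prod, Fintype.card_fin, Fintype.card_fin,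
      nsmul_eq_mul]
    push_cast
    ring
  have hSc : ∀ v, (S v).card ≤ D := fun v => Finset.card_image_le.trans (hdeg v)
  have hSs : ∀ u v, u ∈ S v → v ∈ S u := by
    intro u v h
    obtain ⟨e, he, h1⟩ := Finset.mem_image.1 h
    refine Finset.mem_image.2 ⟨e, ?_, ?_⟩
    · rcases oth_spec he with h3 | h3
      · exact mem_Av.2 (Or.inr (h3.2.trans h1))
      · exact mem_Av.2 (Or.inl (h3.2.trans h1))
    · unfold oth
      rcases oth_spec he with h3 | h3
      · have h4 : ¬ s e = u := by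
          rw [← h1, ← h3.2]
          exact hst e
        rw [if_neg h4]
        exact h3.1
      · rw [if_pos (h3.2.trans h1)]
        exact h3.1
  have hd : ∀ v,
      ((Finset.univ : Finset (Fin n)).filter (fun j => ¬ Disjoint (S v) (S j))).card ≤ D * D := by
    intro v
    have h1 : ((Finset.univ : Finset (Fin n)).filter (fun j => ¬ Disjoint (S v) (S j))) ⊆
        (S v).biUnion S := by
      intro j hj
      have h2 := (Finset.mem_filter.1 hj).2
      rw [Finset.not_disjoint_iff] at h2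
      obtain ⟨u, hu, hu'⟩ := h2
      exact Finset.mem_biUnion.2 ⟨u, hu, hSs u j hu'⟩
    refine (Finset.card_le_card h1).trans ((Finset.card_biUnion_le_card_mul _ _ D fun u _ => hSc u).trans ?_)
    exact Nat.mul_le_mul_right D (hSc v)
  obtain ⟨ω, hω⟩ := lllR hr B S hB _ (D * D) (by positivity) hp hd hD0 (Nat.mul_pos hDpos hDpos)
  refine ⟨ω, fun u k x => ?_⟩
  have h1 : ¬ (η * D < ∑ v, w u k v * ci x (ω v)) := fun h => hω u ⟨(k, x), h⟩
  rw [hfib u k fun v => ci x (ω v)] at h1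
  have h2 : ∑ e ∈ (Av s t u).filter (fun e => kk (oth s t u e) = k), ci x (ω (oth s t u e)) =
      (((Av s t u).filter fun e => kk (oth s t u e) = k ∧ ω (oth s t u e) = x).card : ℝ) -
        (((Av s t u).filter fun e => kk (oth s t u e) = k).card : ℝ) / r := by
    unfold ci
    rw [Finset.sum_sub_distrib, Finset.sum_const, nsmul_eq_mul, ← Finset.filter_filter,
      Finset.card_filter (fun e => ω (oth s t u e) = x)]
    push_cast
    ring
  rw [h2, not_lt] at h1
  linarith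

end Pool.Agent.H249.Pal.Rnd
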