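import Mathlib

/-!
# Balanced orientations and equitable partitions of the edges of a multigraph
-/

set_option autoImplicit false

open Finset

namespace Pool.Agent.H249.Pal

/-- Every multigraph (loops allowed) has an orientation in which the out-degree and the in-degree of
each vertex differ by at most one. -/
theorem bal {ι W : Type} [DecidableEq ι] [DecidableEq W] : ∀ (N : ℕ) (E : Finset ι), E.card = N →
    ∀ a b : ι → W, ∃ x : ι → ℤ, (∀ i, x i = 1 ∨ x i = -1) ∧
      ∀ w, |∑ i ∈ E, x i * ((if a i = w then 1 else 0) - (if b i = w then 1 else 0))| ≤ 1 := by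
  intro N
  induction N with
  | zero =>
    intro E hE a b
    refine ⟨fun _ => 1, fun _ => Or.inl rfl, fun w => ?_⟩
    rw [Finset.card_eq_zero.1 hE, Finset.sum_empty, abs_zero]
    exact zero_le_one
  | succ N ih =>
    intro E hE a b
    by_cases hsh : ∃ e1 ∈ E, ∃ e2 ∈ E, e1 ≠ e2 ∧ ∃ p, (a e1 = p ∨ b e1 = p) ∧ (a e2 = p ∨ b e2 = p)
    · obtain ⟨e1, he1, e2, he2, hne, p, hp1, hp2⟩ := hsh
      have hrep : ∀ e, (a e = p ∨ b e = p) → ∃ (σ : ℤ) (q : W), (σ = 1 ∨ σ = -1) ∧ ∀ w,
          ((if a e = w then 1 else 0) - (if b e = w then 1 else 0) : ℤ) =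
            σ * ((if p = w then 1 else 0) - (if q = w then 1 else 0)) := by
        intro e he
        rcases he with he | he
        · exact ⟨1, b e, Or.inl rfl, fun w => by rw [he, one_mul]⟩
        · exact ⟨-1, a e, Or.inr rfl, fun w => by rw [he]; ring⟩
      obtain ⟨σ1, q1, hσ1, hD1⟩ := hrep e1 hp1
      obtain ⟨σ2, q2, hσ2, hD2⟩ := hrep e2 hp2
      obtain ⟨x, hx, hx'⟩ := ih (E.erase e2) (by rw [Finset.card_erase_of_mem he2, hE]; rfl)
        (Function.update a e1 q1) (Function.update b e1 q2)
      have he1' : e1 ∈ E.erase e2 := Finset.mem_erase.2 ⟨hne, he1⟩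
      obtain ⟨y, hy1, hy2, hy3⟩ : ∃ y : ι → ℤ, y e1 = -σ1 * x e1 ∧ y e2 = σ2 * x e1 ∧
          ∀ i, i ≠ e1 → i ≠ e2 → y i = x i := by
        refine ⟨fun i => if i = e1 then -σ1 * x e1 else if i = e2 then σ2 * x e1 else x i,
          if_pos rfl, ?_, fun i h1 h2 => ?_⟩
        · show (if e2 = e1 then -σ1 * x e1 else if e2 = e2 then σ2 * x e1 else x e2) = _
          rw [if_neg hne.symm, if_pos rfl]
        · show (if i = e1 then -σ1 * x e1 else if i = e2 then σ2 * x e1 else x i) = _
          rw [if_neg h1, if_neg h2]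
      refine ⟨y, fun i => ?_, fun w => ?_⟩
      · by_cases h1 : i = e1
        · rw [h1, hy1]
          rcases hσ1 with h | h <;> rcases hx e1 with h' | h' <;> rw [h, h'] <;> norm_num
        · by_cases h2 : i = e2
          · rw [h2, hy2]
            rcases hσ2 with h | h <;> rcases hx e1 with h' | h' <;> rw [h, h'] <;> norm_num
          · rw [hy3 i h1 h2]
            exact hx i
      · have h1 := hx' w
        rw [← Finset.add_sum_erase _ _ he1'] at h1
        rw [← Finset.add_sum_erase _ _ he2, ← Finset.add_sum_erase _ _ he1']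
        rw [Function.update_self, Function.update_self] at h1
        have h2 : ∑ i ∈ (E.erase e2).erase e1, x i * ((if Function.update a e1 q1 i = w then 1 else 0) -
            (if Function.update b e1 q2 i = w then 1 else 0)) = ∑ i ∈ (E.erase e2).erase e1,
            y i * ((if a i = w then 1 else 0) - (if b i = w then 1 else 0)) := by
          refine Finset.sum_congr rfl fun i hi => ?_
          obtain ⟨hi1, hi2⟩ := Finset.mem_erase.1 hi
          have hi3 := (Finset.mem_erase.1 hi2).1
          rw [Function.update_of_ne hi1, Function.update_of_ne hi1, hy3 i hi1 hi3]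
        rw [h2] at h1
        rw [hy1, hy2, hD1 w, hD2 w]
        have e3 : σ2 * x e1 * (σ2 * ((if p = w then 1 else 0) - (if q2 = w then 1 else 0))) =
            x e1 * ((if p = w then 1 else 0) - (if q2 = w then 1 else 0)) := by
          rcases hσ2 with h | h <;> rw [h] <;> ring
        have e4 : -σ1 * x e1 * (σ1 * ((if p = w then 1 else 0) - (if q1 = w then 1 else 0))) =
            -(x e1 * ((if p = w then 1 else 0) - (if q1 = w then 1 else 0))) := by
          rcases hσ1 with h | h <;> rw [h] <;> ring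
        rw [e3, e4]
        have e5 : x e1 * ((if p = w then 1 else 0) - (if q2 = w then 1 else 0)) +
            (-(x e1 * ((if p = w then 1 else 0) - (if q1 = w then 1 else 0))) +
              ∑ i ∈ (E.erase e2).erase e1,
                y i * ((if a i = w then 1 else 0) - (if b i = w then 1 else 0))) =
            x e1 * ((if q1 = w then 1 else 0) - (if q2 = w then 1 else 0)) +
              ∑ i ∈ (E.erase e2).erase e1,
                y i * ((if a i = w then 1 else 0) - (if b i = w then 1 else 0)) := by ring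
        rw [e5]
        exact h1
    · refine ⟨fun _ => 1, fun _ => Or.inl rfl, fun w => ?_⟩
      by_cases hw : ∃ i ∈ E, a i = w ∨ b i = w
      · obtain ⟨i, hi, hiw⟩ := hw
        rw [Finset.sum_eq_single_of_mem i hi]
        · rw [one_mul]
          split_ifs <;> norm_num
        · intro j hj hji
          have h1 : ¬ (a j = w ∨ b j = w) := fun h => hsh ⟨j, hj, i, hi, hji, w, h, hiw⟩
          rw [if_neg fun h => h1 (Or.inl h), if_neg fun h => h1 (Or.inr h)]
          ring
      · rw [Finset.sum_eq_zero]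
        · norm_num
        · intro j hj
          rw [if_neg fun h => hw ⟨j, hj, Or.inl h⟩, if_neg fun h => hw ⟨j, hj, Or.inr h⟩]
          ring

variable {n m : ℕ}

/-- Halving: the edges of `E` get two colours such that at each vertex the outgoing edges are
divided evenly, and so are the incoming edges. -/
theorem halve (s t : Fin m → Fin n) (E : Finset (Fin m)) : ∃ g : Fin m → Bool, ∀ v,
    ((E.filter fun e => g e = true ∧ s e = v).card ≤ (E.filter fun e => g e = false ∧ s e = v).card + 1 ∧
      (E.filter fun e => g e = false ∧ s e = v).card ≤ (E.filter fun e => g e = true ∧ s e = v).card + 1) ∧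
    ((E.filter fun e => g e = true ∧ t e = v).card ≤ (E.filter fun e => g e = false ∧ t e = v).card + 1 ∧
      (E.filter fun e => g e = false ∧ t e = v).card ≤ (E.filter fun e => g e = true ∧ t e = v).card + 1) := by
  obtain ⟨x, hx, hx'⟩ := bal E.card E rfl (fun e => (Sum.inl (s e) : Fin n ⊕ Fin n))
    (fun e => (Sum.inr (t e) : Fin n ⊕ Fin n))
  obtain ⟨g, hg⟩ : ∃ g : Fin m → Bool, ∀ e, x e = if g e = true then 1 else -1 :=
    ⟨fun e => decide (x e = 1), fun e => by rcases hx e with h | h <;> simp [h]⟩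
  refine ⟨g, fun v => ?_⟩
  have hsum : ∀ (u : Fin m → Fin n) (w : Fin n), ∑ i ∈ E, x i * (if u i = w then 1 else 0) =
      ((E.filter fun e => g e = true ∧ u e = w).card : ℤ) -
        ((E.filter fun e => g e = false ∧ u e = w).card : ℤ) := by
    intro u w
    rw [Finset.card_filter, Finset.card_filter]
    push_cast
    rw [← Finset.sum_sub_distrib]
    refine Finset.sum_congr rfl fun i _ => ?_
    rw [hg i]
    by_cases h : u i = w
    · cases hgi : g i <;> simp [h]
    · simp [h]
  have h1 := hx' (Sum.inl v)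
  have h2 := hx' (Sum.inr v)
  have e1 : ∑ i ∈ E, x i * ((if (Sum.inl (s i) : Fin n ⊕ Fin n) = Sum.inl v then 1 else 0) -
      (if (Sum.inr (t i) : Fin n ⊕ Fin n) = Sum.inl v then 1 else 0)) =
      ∑ i ∈ E, x i * (if s i = v then 1 else 0) := by
    refine Finset.sum_congr rfl fun i _ => ?_
    simp
  have e2 : ∑ i ∈ E, x i * ((if (Sum.inl (s i) : Fin n ⊕ Fin n) = Sum.inr v then 1 else 0) -
      (if (Sum.inr (t i) : Fin n ⊕ Fin n) = Sum.inr v then 1 else 0)) =
      -∑ i ∈ E, x i * (if t i = v then 1 else 0) := by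
    rw [← Finset.sum_neg_distrib]
    refine Finset.sum_congr rfl fun i _ => ?_
    simp
  rw [e1, hsum, abs_le] at h1
  rw [e2, hsum, abs_neg, abs_le] at h2
  constructor <;> constructor <;> omega

/-! ### equitable partitions into several classes -/

/-- the number of the edges of the class `i` with `u e = v` -/
def cn {k : ℕ} (u : Fin m → Fin n) (f : Fin m → Fin k) (i : Fin k) (v : Fin n) : ℕ :=
  (Finset.univ.filter fun e => f e = i ∧ u e = v).card

/-- rebalancing two classes -/
theorem sq_bal {k : ℕ} {F F' : Fin k → ℕ} {i j : Fin k} (hij : i ≠ j)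
    (h : ∀ l, l ≠ i → l ≠ j → F' l = F l) (hs : F' i + F' j = F i + F j)
    (h1 : F' i ≤ F' j + 1) (h2 : F' j ≤ F' i + 1) :
    ∑ l, F' l ^ 2 ≤ ∑ l, F l ^ 2 ∧ (F j + 2 ≤ F i → ∑ l, F' l ^ 2 < ∑ l, F l ^ 2) := by
  have hj : j ∈ (Finset.univ.erase i : Finset (Fin k)) := Finset.mem_erase.2 ⟨hij.symm, Finset.mem_univ _⟩
  rw [← Finset.add_sum_erase _ _ (Finset.mem_univ i), ← Finset.add_sum_erase _ _ hj,
    ← Finset.add_sum_erase (Finset.univ : Finset (Fin k)) (fun l => F l ^ 2) (Finset.mem_univ i),
    ← Finset.add_sum_erase _ (fun l => F l ^ 2) hj]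
  have e : ∑ l ∈ (Finset.univ.erase i).erase j, F' l ^ 2 = ∑ l ∈ (Finset.univ.erase i).erase j, F l ^ 2 := by
    refine Finset.sum_congr rfl fun l hl => ?_
    obtain ⟨h3, h4⟩ := Finset.mem_erase.1 hl
    rw [h l (Finset.mem_erase.1 h4).1 h3]
  rw [e]
  have key : F' i ^ 2 + F' j ^ 2 ≤ F i ^ 2 + F j ^ 2 ∧
      (F j + 2 ≤ F i → F' i ^ 2 + F' j ^ 2 < F i ^ 2 + F j ^ 2) := by
    have keyZ : ∀ a b c d : ℤ, c + d = a + b → c ≤ d + 1 → d ≤ c + 1 →
        c ^ 2 + d ^ 2 ≤ a ^ 2 + b ^ 2 ∧ (b + 2 ≤ a → c ^ 2 + d ^ 2 < a ^ 2 + b ^ 2) := by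
      intro a b c d h3 h4 h5
      have h6 : a = c + d - b := by omega
      subst h6
      rcases (by omega : c = d ∨ c = d + 1 ∨ d = c + 1) with h7 | h7 | h7
      · subst h7
        exact ⟨by nlinarith [sq_nonneg (c - b)], fun h8 => by nlinarith⟩
      · subst h7
        refine ⟨?_, fun h8 => by nlinarith⟩
        rcases (by omega : b ≤ d ∨ d + 1 ≤ b) with h8 | h8 <;> nlinarith
      · subst h7
        refine ⟨?_, fun h8 => by nlinarith⟩
        rcases (by omega : b ≤ c ∨ c + 1 ≤ b) with h8 | h8 <;> nlinarith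
    have := keyZ (F i) (F j) (F' i) (F' j) (by exact_mod_cast hs) (by exact_mod_cast h1) (by exact_mod_cast h2)
    exact ⟨by exact_mod_cast this.1, fun h3 => by exact_mod_cast this.2 (by exact_mod_cast h3)⟩
  constructor
  · have := key.1
    omega
  · intro h3
    have := key.2 h3
    omega

/-- Equitable partitions: the edges can be divided into `k` classes such that at each vertex the
numbers of outgoing edges of any two classes differ by at most one, and also the numbers of
incoming edges. -/
theorem split {k : ℕ} (hk : 0 < k) (s t : Fin m → Fin n) : ∃ f : Fin m → Fin k, ∀ i j v,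
    cn s f i v ≤ cn s f j v + 1 ∧ cn t f i v ≤ cn t f j v + 1 := by
  classical
  let Φ : (Fin m → Fin k) → ℕ := fun f => ∑ v, (∑ l, cn s f l v ^ 2 + ∑ l, cn t f l v ^ 2)
  obtain ⟨f, -, hf⟩ := Finset.exists_min_image (Finset.univ : Finset (Fin m → Fin k)) Φ
    ⟨fun _ => ⟨0, hk⟩, Finset.mem_univ _⟩
  refine ⟨f, fun i j v => ?_⟩
  by_cases hij : i = j
  · rw [hij]
    exact ⟨Nat.le_succ _, Nat.le_succ _⟩
  by_contra hcon
  obtain ⟨g, hg⟩ := halve s t (Finset.univ.filter fun e => f e = i ∨ f e = j)
  let f' : Fin m → Fin k := fun e => if f e = i ∨ f e = j then (if g e = true then i else j) else f e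
  have hf' : ∀ e, f' e = if f e = i ∨ f e = j then (if g e = true then i else j) else f e := fun e => rfl
  have ci : ∀ (u : Fin m → Fin n) w, cn u f' i w =
      ((Finset.univ.filter fun e => f e = i ∨ f e = j).filter fun e => g e = true ∧ u e = w).card := by
    intro u w
    unfold cn
    congr 1
    ext e
    rw [Finset.mem_filter, Finset.mem_filter, Finset.mem_filter, hf']
    by_cases h1 : f e = i ∨ f e = j
    · rw [if_pos h1]
      cases hge : g e <;> simp [h1, Ne.symm hij]
    · rw [if_neg h1]
      have h2 : f e ≠ i := fun h => h1 (Or.inl h)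
      have h3 : f e ≠ j := fun h => h1 (Or.inr h)
      simp [h2, h3]
  have cj : ∀ (u : Fin m → Fin n) w, cn u f' j w =
      ((Finset.univ.filter fun e => f e = i ∨ f e = j).filter fun e => g e = false ∧ u e = w).card := by
    intro u w
    unfold cn
    congr 1
    ext e
    rw [Finset.mem_filter, Finset.mem_filter, Finset.mem_filter, hf']
    by_cases h1 : f e = i ∨ f e = j
    · rw [if_pos h1]
      cases hge : g e <;> simp [h1, hij]
    · rw [if_neg h1]
      have h2 : f e ≠ i := fun h => h1 (Or.inl h)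
      have h3 : f e ≠ j := fun h => h1 (Or.inr h)
      simp [h2, h3]
  have cl : ∀ (u : Fin m → Fin n) w l, l ≠ i → l ≠ j → cn u f' l w = cn u f l w := by
    intro u w l hli hlj
    unfold cn
    congr 1
    ext e
    rw [Finset.mem_filter, Finset.mem_filter, hf']
    by_cases h1 : f e = i ∨ f e = j
    · rw [if_pos h1]
      have h2 : f e ≠ l := by
        rcases h1 with h | h <;> rw [h]
        · exact hli.symm
        · exact hlj.symm
      cases hge : g e <;> simp [h2, hli.symm, hlj.symm]
    · rw [if_neg h1]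
  have cs : ∀ (u : Fin m → Fin n) w, cn u f' i w + cn u f' j w = cn u f i w + cn u f j w := by
    intro u w
    rw [ci, cj]
    unfold cn
    rw [← Finset.card_union_of_disjoint, ← Finset.card_union_of_disjoint]
    · congr 1
      ext e
      simp only [Finset.mem_union, Finset.mem_filter, Finset.mem_univ, true_and]
      cases hge : g e <;> simp <;> tauto
    · rw [Finset.disjoint_left]
      intro e he he'
      rw [Finset.mem_filter] at he he'
      exact hij (he.2.1.symm.trans he'.2.1)
    · rw [Finset.disjoint_left]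
      intro e he he'
      rw [Finset.mem_filter] at he he'
      rw [he.2.1] at he'
      exact absurd he'.2.1 (by simp)
  have hsb : ∀ w, (∑ l, cn s f' l w ^ 2 ≤ ∑ l, cn s f l w ^ 2 ∧
      (cn s f j w + 2 ≤ cn s f i w → ∑ l, cn s f' l w ^ 2 < ∑ l, cn s f l w ^ 2)) := by
    intro w
    refine sq_bal hij (cl s w) (cs s w) ?_ ?_
    · rw [ci, cj]
      exact (hg w).1.1
    · rw [ci, cj]
      exact (hg w).1.2
  have htb : ∀ w, (∑ l, cn t f' l w ^ 2 ≤ ∑ l, cn t f l w ^ 2 ∧
      (cn t f j w + 2 ≤ cn t f i w → ∑ l, cn t f' l w ^ 2 < ∑ l, cn t f l w ^ 2)) := by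
    intro w
    refine sq_bal hij (cl t w) (cs t w) ?_ ?_
    · rw [ci, cj]
      exact (hg w).2.1
    · rw [ci, cj]
      exact (hg w).2.2
  have hlt : Φ f' < Φ f := by
    refine Finset.sum_lt_sum (fun w _ => Nat.add_le_add (hsb w).1 (htb w).1) ⟨v, Finset.mem_univ _, ?_⟩
    by_cases h1 : cn s f i v ≤ cn s f j v + 1
    · have h2 : ¬ cn t f i v ≤ cn t f j v + 1 := fun h => hcon ⟨h1, h⟩
      exact Nat.add_lt_add_of_le_of_lt (hsb v).1 ((htb v).2 (by omega))
    · exact Nat.add_lt_add_of_lt_of_le ((hsb v).2 (by omega)) (htb v).1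
  exact absurd (hf f' (Finset.mem_univ _)) (not_le.2 hlt)

/-- the sum over the classes -/
theorem sum_cn {k : ℕ} (u : Fin m → Fin n) (f : Fin m → Fin k) (v : Fin n) :
    ∑ i, cn u f i v = (Finset.univ.filter fun e => u e = v).card := by
  unfold cn
  rw [Finset.card_eq_sum_card_fiberwise (f := f) (t := Finset.univ) (fun _ _ => Finset.mem_univ _)]
  refine Finset.sum_congr rfl fun i _ => ?_
  congr 1
  ext e
  simp only [Finset.mem_filter, Finset.mem_univ, true_and]
  exact And.comm

end Pool.Agent.H249.Pal
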