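import Pool.Agent.H249.Pal.BipS

/-!
# All multigraphs: subexponentially many palettes
-/

set_option autoImplicit false

open Finset

namespace Pool.Agent.H249.Pal.Rnd

theorem bipS (ε : ℝ) (hε : 0 < ε) : ∃ C : ℝ, 0 ≤ C ∧ ∀ μ : ℕ, 0 < μ → ∀ (n m : ℕ)
    (s t : Fin m → Fin n) (X : Fin n → Bool), (∀ e, X (s e) ≠ X (t e)) → MulLe s t μ →
    ∀ D : ℕ, (∀ v, (Av s t v).card ≤ D) →
      ∃ c : Fin m → ℕ, Col s t c ∧ ((pals s t c).card : ℝ) ≤ (2 : ℝ) ^ (ε * (D : ℝ) + C * LL μ) := by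
  obtain ⟨h, hh⟩ := exists_pow_lt_of_lt_one (show (0 : ℝ) < ε / 8 by positivity)
    (show (1 / 2 : ℝ) < 1 by norm_num)
  obtain ⟨r0, hr0⟩ := exists_nat_gt (4 * (h : ℝ) / ε)
  obtain ⟨r, hrdef⟩ : ∃ r : ℕ, r = r0 + 1 := ⟨_, rfl⟩
  have hr : 0 < r := by omega
  have hr1 : (1 : ℝ) ≤ r := by exact_mod_cast hr
  have hrr : 4 * (h : ℝ) ≤ ε * r := by
    have h1 : (r0 : ℝ) ≤ r := by
      rw [hrdef]
      push_cast
      linarith
    have h2 : 4 * (h : ℝ) / ε ≤ r := by linarith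
    rw [div_le_iff₀ hε] at h2
    linarith
  obtain ⟨η, hη⟩ : ∃ η : ℝ, η = 1 / ((r : ℝ) ^ 3 * (r + 1)) := ⟨_, rfl⟩
  have hη0 : 0 < η := by
    rw [hη]
    positivity
  obtain ⟨K, hK0, hK⟩ := balR r hr η hη0
  obtain ⟨a, ha0, hg⟩ := gen2
  obtain ⟨c1, hc1⟩ : ∃ c1 : ℝ, c1 = (r : ℝ) ^ 2 * ((r + 1) * (r.factorial : ℝ) ^ 2 + 1) := ⟨_, rfl⟩
  have hc10 : 0 ≤ c1 := by
    rw [hc1]
    positivity
  refine ⟨(h : ℝ) * c1 + 2 * c1 + 2 * ((r + 1) * r) + (2 * K + a), by positivity,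
    fun μ hμ n m s t X hX hmul D hD => ?_⟩
  have hL := one_le_LL hμ
  have hst : ∀ e, s e ≠ t e := fun e h => hX e (by rw [h])
  have hε0 : 0 ≤ ε * (D : ℝ) := by positivity
  by_cases hDD : K * LL μ ≤ D
  · have hDpos : 0 < D := by
      have h1 : (0 : ℝ) < D := lt_of_lt_of_le (mul_pos hK0 (by linarith)) hDD
      exact_mod_cast h1
    obtain ⟨kk, hkk⟩ : ∃ kk : Fin n → Fin (r + 1), ∀ v,
        (kk v : ℕ) = min r (r * (Av s t v).card / D + 1) :=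
      ⟨fun v => ⟨min r (r * (Av s t v).card / D + 1), Nat.lt_succ_of_le (min_le_left _ _)⟩,
        fun _ => rfl⟩
    have hk0 : ∀ v, 0 < (kk v : ℕ) := by
      intro v
      rw [hkk]
      exact lt_min hr (Nat.succ_pos _)
    have hk1 : ∀ v, r * (Av s t v).card ≤ (kk v : ℕ) * D := by
      intro v
      rw [hkk]
      rcases min_choice r (r * (Av s t v).card / D + 1) with h1 | h1
      · rw [h1]
        exact Nat.mul_le_mul_left r (hD v)
      · rw [h1]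
        rw [Nat.mul_comm (r * (Av s t v).card / D + 1)]
        exact (Nat.lt_mul_div_succ _ hDpos).le
    have hk2 : ∀ v, ((kk v : ℕ) - 1) * D ≤ r * (Av s t v).card := by
      intro v
      have h1 : (kk v : ℕ) - 1 ≤ r * (Av s t v).card / D := by
        rw [hkk]
        exact Nat.sub_le_iff_le_add.2 (min_le_right _ _)
      exact (Nat.mul_le_mul_right D h1).trans (Nat.div_mul_le_self _ _)
    obtain ⟨ω, hω⟩ := hK μ hμ D hDD n m s t hst hmul hD kk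
    have hD0 : (0 : ℝ) < D := by exact_mod_cast hDpos
    have hηD : (r : ℝ) ^ 2 * ((r + 1) * (η * D + (r.factorial : ℝ) ^ 2) + 1) = (D : ℝ) / r + c1 := by
      rw [hc1, hη]
      field_simp
      ring
    obtain ⟨c, hc, hcc⟩ := bipCore hr h η hη0.le s t X hX D kk hk0 hk1 hk2 ω hω
      (2 * ((D : ℝ) / r) + c1) (2 * (D : ℝ) + c1)
      (by
        rw [hηD]
        linarith)
      (by
        rw [hηD]
        have h1 : (D : ℝ) / r ≤ D := div_le_self hD0.le hr1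
        linarith)
    refine ⟨c, hc, hcc.trans ?_⟩
    have h1 : (2 * ((r + 1) * r) : ℝ) ≤ (2 : ℝ) ^ (2 * ((r + 1) * r) : ℝ) := by
      have h2 : 2 * ((r + 1) * r) < 2 ^ (2 * ((r + 1) * r)) := Nat.lt_two_pow_self
      have h3 : ((2 * ((r + 1) * r) : ℕ) : ℝ) ≤ (2 : ℝ) ^ (2 * ((r + 1) * r) : ℕ) := by
        exact_mod_cast h2.le
      rw [← Real.rpow_natCast] at h3
      push_cast at h3
      exact h3
    refine (mul_le_mul_of_nonneg_right h1 (by positivity)).trans ?_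
    rw [← Real.rpow_add (by norm_num)]
    refine Real.rpow_le_rpow_of_exponent_le (by norm_num) ?_
    have h2 : (h : ℝ) * (2 * ((D : ℝ) / r)) ≤ ε / 2 * D := by
      have h3 : (h : ℝ) * (2 * ((D : ℝ) / r)) = (2 * h) * D / r := by ring
      rw [h3, div_le_iff₀ (by linarith)]
      have h4 := mul_le_mul_of_nonneg_right hrr hD0.le
      nlinarith
    have h3 : 2 * (1 / 2 : ℝ) ^ h * (2 * (D : ℝ)) ≤ ε / 2 * D := by
      have h4 := mul_le_mul_of_nonneg_right hh.le hD0.le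
      linarith
    have h4 : 2 * (1 / 2 : ℝ) ^ h * c1 ≤ 2 * c1 := by
      have h5 : (1 / 2 : ℝ) ^ h ≤ 1 := pow_le_one₀ (by norm_num) (by norm_num)
      have h6 := mul_le_mul_of_nonneg_right h5 hc10
      linarith
    have h5 : 0 ≤ (2 * K + a) * LL μ := by positivity
    have h6 : ((h : ℝ) * c1 + 2 * c1 + 2 * ((r + 1) * r)) * 1 ≤
        ((h : ℝ) * c1 + 2 * c1 + 2 * ((r + 1) * r)) * LL μ :=
      mul_le_mul_of_nonneg_left hL (by positivity)
    nlinarith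
  · obtain ⟨c, hc, hc'⟩ := hg n m s t hst D hD
    refine ⟨c, hc, hc'.trans (Real.rpow_le_rpow_of_exponent_le (by norm_num) ?_)⟩
    push Not at hDD
    have e2 : a * 1 ≤ a * LL μ := mul_le_mul_of_nonneg_left hL ha0
    have e3 : 0 ≤ ((h : ℝ) * c1 + 2 * c1 + 2 * ((r + 1) * r)) * LL μ := by positivity
    nlinarith

theorem good_stepS (δ ε γ : ℝ) (hδ : 0 < δ) (hε : 0 < ε) (hγ : 0 ≤ γ)
    (h : Good γ) : Good ((1 / 2 + δ) * (ε + γ)) := by
  classical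
  obtain ⟨C, hC0, hC⟩ := h
  obtain ⟨Cb, hb0, hCb⟩ := bipS ε hε
  obtain ⟨a, ha0, hg⟩ := gen2
  obtain ⟨K, hK0, hK⟩ := small δ hδ
  refine ⟨Cb + C + a + 2 * K, by positivity, fun μ hμ n m s t hst hmul D hD => ?_⟩
  have hL := one_le_LL hμ
  have hg0 : 0 ≤ (1 / 2 + δ) * (ε + γ) := by positivity
  by_cases hDD : K * LL μ ≤ D
  · have hDpos : 0 < D := by
      have h1 : (0 : ℝ) < D := lt_of_lt_of_le (mul_pos hK0 (by linarith)) hDD
      exact_mod_cast h1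
    obtain ⟨X, hX⟩ := splitRnd δ hδ μ hμ D hDpos (hK μ hμ D hDD) s t hst hmul hD
    obtain ⟨m1, i1, hi1, hp1, hst1, hmul1, hdeg1⟩ := sub s t hst μ hmul (fun e => ¬ X (s e) = X (t e))
    obtain ⟨m2, i2, hi2, hp2, hst2, hmul2, hdeg2⟩ := sub s t hst μ hmul (fun e => X (s e) = X (t e))
    obtain ⟨D1, hD1⟩ : ∃ D1 : ℕ, D1 = ⌊(1 / 2 + δ) * (D : ℝ)⌋₊ := ⟨_, rfl⟩
    have hnn : 0 ≤ (1 / 2 + δ) * (D : ℝ) := by positivity
    have hD1le : (D1 : ℝ) ≤ (1 / 2 + δ) * D := by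
      rw [hD1]
      exact Nat.floor_le hnn
    obtain ⟨c1, hc1, hc1'⟩ := hCb μ hμ n m1 (fun i => s (i1 i)) (fun i => t (i1 i))
      X (fun i => (hp1 (i1 i)).1 ⟨i, rfl⟩) hmul1 D1 (fun v => by
        rw [hD1]
        refine Nat.le_floor ?_
        rw [hdeg1 v]
        exact (hX v).2)
    obtain ⟨c2, hc2, hc2'⟩ := hC μ hμ n m2 (fun i => s (i2 i)) (fun i => t (i2 i)) hst2 hmul2 D1 (fun v => by
        rw [hD1]
        refine Nat.le_floor ?_
        rw [hdeg2 v]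
        exact (hX v).1)
    obtain ⟨c, hc, hc'⟩ := glue2 s t (fun e => ¬ X (s e) = X (t e)) i1 i2 hi1 hi2 hp1
      (fun e => (hp2 e).trans not_not.symm) c1 c2 hc1 hc2
    refine ⟨c, hc, ?_⟩
    have e1 : ((pals s t c).card : ℝ) ≤ ((pals (fun i => s (i1 i)) (fun i => t (i1 i)) c1).card : ℝ) *
        ((pals (fun i => s (i2 i)) (fun i => t (i2 i)) c2).card : ℝ) := by
      exact_mod_cast hc'
    have e3 := mul_le_mul hc1' hc2' (Nat.cast_nonneg _) (by positivity)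
    rw [← Real.rpow_add (by norm_num)] at e3
    refine e1.trans (e3.trans (Real.rpow_le_rpow_of_exponent_le (by norm_num) ?_))
    have e5 : (ε + γ) * (D1 : ℝ) ≤ ((1 / 2 + δ) * (ε + γ)) * (D : ℝ) := by
      calc (ε + γ) * (D1 : ℝ) ≤ (ε + γ) * ((1 / 2 + δ) * D) :=
            mul_le_mul_of_nonneg_left hD1le (by positivity)
        _ = ((1 / 2 + δ) * (ε + γ)) * (D : ℝ) := by ring
    have e7 : 0 ≤ (a + 2 * K) * LL μ := by positivity
    linarith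
  · obtain ⟨c, hc, hc'⟩ := hg n m s t hst D hD
    refine ⟨c, hc, hc'.trans (Real.rpow_le_rpow_of_exponent_le (by norm_num) ?_)⟩
    push Not at hDD
    have e1 : 0 ≤ ((1 / 2 + δ) * (ε + γ)) * (D : ℝ) := mul_nonneg hg0 (Nat.cast_nonneg D)
    have e2 : a * 1 ≤ a * LL μ := mul_le_mul_of_nonneg_left hL ha0
    have e3 : 0 ≤ (Cb + C) * LL μ := by positivity
    linarith

theorem good_allS (η : ℝ) (hη : 0 < η) : ∀ j : ℕ, Good (η + 2 * (1 / 2 + 1 / 8) ^ j) := by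
  intro j
  induction j with
  | zero =>
    obtain ⟨a, ha0, hg⟩ := gen2
    refine ⟨a, ha0, fun μ hμ n m s t hst _ D hD => ?_⟩
    obtain ⟨c, hc, hc'⟩ := hg n m s t hst D hD
    refine ⟨c, hc, hc'.trans (Real.rpow_le_rpow_of_exponent_le (by norm_num) ?_)⟩
    have hL := one_le_LL hμ
    have e2 : a * 1 ≤ a * LL μ := mul_le_mul_of_nonneg_left hL ha0
    have e3 : (2 : ℝ) * D ≤ (η + 2 * (1 / 2 + 1 / 8) ^ 0) * (D : ℝ) := by
      refine mul_le_mul_of_nonneg_right ?_ (Nat.cast_nonneg D)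
      rw [pow_zero]
      linarith
    linarith
  | succ j ih =>
    refine (good_stepS (1 / 8) (η / 4) _ (by norm_num) (by positivity) (by positivity) ih).mono ?_
    have h1 : (1 / 2 + 1 / 8 : ℝ) * (η / 4 + η) ≤ η := by linarith
    calc (1 / 2 + 1 / 8 : ℝ) * (η / 4 + (η + 2 * (1 / 2 + 1 / 8) ^ j))
        = (1 / 2 + 1 / 8) * (η / 4 + η) + 2 * (1 / 2 + 1 / 8) ^ (j + 1) := by ring
      _ ≤ η + 2 * (1 / 2 + 1 / 8) ^ (j + 1) := by linarith

theorem good_finalS (ε : ℝ) (hε : 0 < ε) : Good ε := by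
  obtain ⟨j, hj⟩ := exists_pow_lt_of_lt_one (show (0 : ℝ) < ε / 4 by positivity)
    (show (1 / 2 + 1 / 8 : ℝ) < 1 by norm_num)
  refine (good_allS (ε / 2) (by positivity) j).mono ?_
  linarith

theorem finalS (ε : ℝ) (hε : 0 < ε) : ∃ C : ℝ, ∀ (n m : ℕ) (s t : Fin m → Fin n),
    (∀ e, s e ≠ t e) → ∀ D : ℕ, (∀ v, (Av s t v).card ≤ D) →
      ∃ c : Fin m → ℕ, Col s t c ∧ ((pals s t c).card : ℝ) ≤ C * (2 : ℝ) ^ (ε * (D : ℝ)) := by
  obtain ⟨C, hC0, hC⟩ := good_finalS (ε / 2) (by positivity)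
  obtain ⟨a, ha0, hg⟩ := gen2
  obtain ⟨B, hB⟩ := err C ε hC0 hε
  refine ⟨(2 : ℝ) ^ (B + a), fun n m s t hst D hD => ?_⟩
  have h1 : (2 / 3 + (ε / 2 - 2 / 3) : ℝ) = ε / 2 := by ring
  obtain ⟨c, hc, hcc⟩ := fold_bound C a (ε / 2 - 2 / 3)
    (fun μ hμ n m s t hst hmul D hD => by
      rw [h1]
      exact hC μ hμ n m s t hst hmul D hD) hg (Nat.sqrt D + 1) (Nat.succ_pos _) s t hst D hD
  rw [h1] at hcc
  refine ⟨c, hc, hcc.trans ?_⟩
  rw [← Real.rpow_add (by norm_num)]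
  refine Real.rpow_le_rpow_of_exponent_le (by norm_num) ?_
  have := hB D
  linarith

end Pool.Agent.H249.Pal.Rnd
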